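import Mathlib

set_option autoImplicit false
set_option linter.unusedSectionVars false

/-! The combinatorial classification. -/

namespace Pool.Agent.H76R

/-- the combinatorial structure -/
structure PC {Ω : Type} (X Z : Ω → Ω → Prop) : Prop where
  rx : ∀ p, ∃ s t, s ≠ t ∧ ∀ q, X p q ↔ q = s ∨ q = t
  rz : ∀ p, ∃ s t, s ≠ t ∧ ∀ q, Z p q ↔ q = s ∨ q = t
  cz : ∀ q, ∃ s t, s ≠ t ∧ ∀ p, Z p q ↔ p = s ∨ p = t
  ex : ∀ p s t, s ≠ t → (∀ q, X p q ↔ q = s ∨ q = t) →
    ∀ q, (Z p q ↔ ((q = s ∨ Z s q) ↔ ¬ (q = t ∨ Z t q)))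
  ez : ∀ p s t, s ≠ t → (∀ q, Z p q ↔ q = s ∨ q = t) →
    ∀ q, (X p q ↔ ((q = s ∨ X s q) ↔ ¬ (q = t ∨ X t q)))
  dx : ∀ p, ¬ X p p
  dz : ∀ p, ¬ Z p p
  dis : ∀ p q, X p q → ¬ Z q p

variable {Ω : Type} {X Z : Ω → Ω → Prop}

theorem two_with {P : Ω → Prop} (h : ∃ s t, s ≠ t ∧ ∀ q, P q ↔ q = s ∨ q = t) {a : Ω} (ha : P a) :
    ∃ b, a ≠ b ∧ ∀ q, P q ↔ q = a ∨ q = b := by
  obtain ⟨s, t, hst, h⟩ := h
  rcases (h a).1 ha with rfl | rfl
  · exact ⟨t, hst, h⟩
  · exact ⟨s, hst.symm, fun q => by rw [h]; tauto⟩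

theorem two_eq {P : Ω → Prop} (h : ∃ s t, s ≠ t ∧ ∀ q, P q ↔ q = s ∨ q = t) {a b : Ω}
    (ha : P a) (hb : P b) (hab : a ≠ b) : ∀ q, P q ↔ q = a ∨ q = b := by
  obtain ⟨c, hc, h⟩ := two_with h ha
  rcases (h b).1 hb with h2 | rfl
  · exact absurd h2.symm hab
  · exact h

/-- no vertex has exactly one common out-neighbour -/
theorem PC.noB (h : PC X Z) {r s t : Ω} (hst : s ≠ t) (hX : ∀ q, X r q ↔ q = s ∨ q = t)
    (hs : Z r s) (ht : ¬ Z r t) : False := by
  have hXr := h.ex r s t hst hX
  have hts : ¬ Z t s := by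
    have := hXr s
    simp only [true_or, true_iff, hst, false_or] at this
    exact this.1 hs
  have hst' : Z s t := by
    have := hXr t
    simp only [hst.symm, false_or, true_or, not_true_eq_false, iff_false] at this
    by_contra hcon
    exact ht (this.2 hcon)
  obtain ⟨y, hsy, hZr⟩ := two_with (h.rz r) hs
  have hyt : y ≠ t := by
    rintro rfl
    exact ht ((hZr y).2 (Or.inr rfl))
  obtain ⟨x, htx, hZs⟩ := two_with (h.rz s) hst'
  have hxs : x ≠ s := by
    rintro rfl
    exact h.dz x ((hZs x).2 (Or.inr rfl))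
  obtain ⟨u, v, huv, hZt⟩ := h.rz t
  have hut : u ≠ t := by
    rintro rfl
    exact h.dz u ((hZt u).2 (Or.inl rfl))
  have hus : u ≠ s := by
    rintro rfl
    exact hts ((hZt u).2 (Or.inl rfl))
  have hxy : x ≠ y := by
    rintro rfl
    have h1 := hXr u
    rw [hZr, hZs, hZt] at h1
    simp only [hus, hut, false_or, true_or, not_true_eq_false, iff_false] at h1
    tauto
  have hZtx : Z t x := by
    have h1 := hXr x
    rw [hZr, hZs] at h1
    simp only [hxs, hxy, htx.symm, false_or, or_true, true_iff] at h1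
    by_contra hcon
    exact h1.2 hcon
  have hZrE := h.ez r s y hsy hZr
  have hXsy : X s y := by
    have h1 := hZrE y
    rw [hX] at h1
    simp only [hsy.symm, hyt, false_or, true_or, not_true_eq_false, iff_false] at h1
    by_contra hcon
    exact h1.2 hcon
  have hXys : ¬ X y s := by
    have h1 := hZrE s
    rw [hX] at h1
    simp only [hsy, true_or, false_or, true_iff] at h1
    exact h1
  have hXst : ¬ X s t := by
    intro hXst
    have hXs := two_eq (h.rx s) hXsy hXst hyt
    obtain ⟨u, v, huv, hXy⟩ := h.rx y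
    have huy : u ≠ y := by
      rintro rfl
      exact h.dx u ((hXy u).2 (Or.inl rfl))
    have hus : u ≠ s := by
      rintro rfl
      exact hXys ((hXy u).2 (Or.inl rfl))
    have h1 := hZrE u
    rw [hX, hXs, hXy] at h1
    simp only [hus, huy, false_or, true_or, not_true_eq_false, iff_false] at h1
    tauto
  have hXxt : X x t := by
    have h1 := h.ez s t x htx hZs t
    simp only [true_or, true_iff, htx, false_or] at h1
    by_contra hcon
    exact hXst (h1.2 hcon)
  exact h.dis x t hXxt hZtx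

theorem PC.noB' (h : PC X Z) {r s : Ω} (hs : X r s) (hs' : Z r s) : ∀ q, X r q ↔ Z r q := by
  obtain ⟨t, hst, hX⟩ := two_with (h.rx r) hs
  have ht : Z r t := by
    by_contra ht
    exact h.noB hst hX hs' ht
  have hZ := two_eq (h.rz r) hs' ht hst
  intro q
  rw [hX, hZ]

/-- the layered case -/
theorem PC.layer (h : PC X Z) {r s t : Ω} (hst : s ≠ t) (hX : ∀ q, X r q ↔ q = s ∨ q = t)
    (hZ : ∀ q, Z r q ↔ q = s ∨ q = t) :
    ∃ x y, x ≠ y ∧ (∀ q, X s q ↔ q = x ∨ q = y) ∧ (∀ q, X t q ↔ q = x ∨ q = y) ∧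
      (∀ q, Z s q ↔ q = x ∨ q = y) ∧ (∀ q, Z t q ↔ q = x ∨ q = y) := by
  have e1 := h.ex r s t hst hX
  have e2 := h.ez r s t hst hZ
  have hts : ¬ Z t s := by
    have := e1 s
    rw [hZ] at this
    simp only [true_or, true_iff, hst, false_or] at this
    exact this
  have hst' : ¬ Z s t := by
    have := e1 t
    rw [hZ] at this
    simp only [hst.symm, false_or, true_or, not_true_eq_false, iff_false, true_iff] at this
    exact this
  have hts2 : ¬ X t s := by
    have := e2 s
    rw [hX] at this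
    simp only [true_or, true_iff, hst, false_or] at this
    exact this
  have hst2 : ¬ X s t := by
    have := e2 t
    rw [hX] at this
    simp only [hst.symm, false_or, true_or, not_true_eq_false, iff_false, true_iff] at this
    exact this
  have hZst : ∀ q, Z s q ↔ Z t q := by
    intro q
    by_cases hqs : q = s
    · subst hqs
      have := h.dz q
      tauto
    by_cases hqt : q = t
    · subst hqt
      have := h.dz q
      tauto
    have := e1 q
    rw [hZ] at this
    simp only [hqs, hqt, false_or, false_iff] at this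
    tauto
  have hXst : ∀ q, X s q ↔ X t q := by
    intro q
    by_cases hqs : q = s
    · subst hqs
      have := h.dx q
      tauto
    by_cases hqt : q = t
    · subst hqt
      have := h.dx q
      tauto
    have := e2 q
    rw [hX] at this
    simp only [hqs, hqt, false_or, false_iff] at this
    tauto
  obtain ⟨x, y, hxy, hXs⟩ := h.rx s
  have hXt : ∀ q, X t q ↔ q = x ∨ q = y := fun q => by rw [← hXst, hXs]
  have hxs : x ≠ s := fun h0 => h.dx s ((hXs s).2 (Or.inl h0.symm))
  have hys : y ≠ s := fun h0 => h.dx s ((hXs s).2 (Or.inr h0.symm))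
  have hxt : x ≠ t := fun h0 => h.dx t ((hXt t).2 (Or.inl h0.symm))
  have hyt : y ≠ t := fun h0 => h.dx t ((hXt t).2 (Or.inr h0.symm))
  have hsub : ∀ q, Z s q → q = x ∨ q = y := by
    intro q hq
    by_contra hcon
    push Not at hcon
    have hq2 : Z t q := (hZst q).1 hq
    have hcol := two_eq (h.cz q) hq hq2 hst
    have h1 := h.ex s x y hxy hXs q
    have hZx : ¬ Z x q := fun h0 => by
      rcases (hcol x).1 h0 with h2 | h2
      · exact hxs h2
      · exact hxt h2
    have hZy : ¬ Z y q := fun h0 => by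
      rcases (hcol y).1 h0 with h2 | h2
      · exact hys h2
      · exact hyt h2
    have h2 := hcon.1
    have h3 := hcon.2
    tauto
  have hZs : ∀ q, Z s q ↔ q = x ∨ q = y := by
    obtain ⟨a, b, hab, hZs⟩ := h.rz s
    have ha := hsub a ((hZs a).2 (Or.inl rfl))
    have hb := hsub b ((hZs b).2 (Or.inr rfl))
    intro q
    rw [hZs]
    rcases ha with rfl | rfl <;> rcases hb with rfl | rfl
    · exact absurd rfl hab
    · exact Iff.rfl
    · exact Or.comm
    · exact absurd rfl hab
  exact ⟨x, y, hxy, hXs, hXt, hZs, fun q => by rw [← hZst, hZs]⟩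

/-- a pentagon -/
structure Pen (X Z : Ω → Ω → Prop) (r s t x y : Ω) : Prop where
  Xr : ∀ q, X r q ↔ q = s ∨ q = t
  Xs : ∀ q, X s q ↔ q = y ∨ q = r
  Xt : ∀ q, X t q ↔ q = x ∨ q = r
  Xx : ∀ q, X x q ↔ q = y ∨ q = t
  Xy : ∀ q, X y q ↔ q = x ∨ q = s
  Zr : ∀ q, Z r q ↔ q = x ∨ q = y
  Zs : ∀ q, Z s q ↔ q = t ∨ q = x
  Zt : ∀ q, Z t q ↔ q = s ∨ q = y
  Zx : ∀ q, Z x q ↔ q = r ∨ q = s
  Zy : ∀ q, Z y q ↔ q = r ∨ q = t
  st : s ≠ t
  xy : x ≠ y
  rs : r ≠ s
  rt : r ≠ t
  rx : r ≠ x
  ry : r ≠ y
  sx : s ≠ x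
  sy : s ≠ y
  tx : t ≠ x
  ty : t ≠ y

/-- symmetry -/
theorem Pen.symm {r s t x y : Ω} (h : Pen X Z r s t x y) : Pen X Z r t s y x where
  Xr q := by rw [h.Xr]; tauto
  Xs q := h.Xt q
  Xt q := h.Xs q
  Xx q := h.Xy q
  Xy q := h.Xx q
  Zr q := by rw [h.Zr]; tauto
  Zs q := by rw [h.Zt]
  Zt q := by rw [h.Zs]
  Zx q := h.Zy q
  Zy q := h.Zx q
  st := h.st.symm
  xy := h.xy.symm
  rs := h.rt
  rt := h.rs
  rx := h.ry
  ry := h.rx
  sx := h.ty
  sy := h.tx
  tx := h.sy
  ty := h.sx

/-- the pentagon case -/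
theorem PC.pent (h : PC X Z) {r s t : Ω} (hst : s ≠ t) (hX : ∀ q, X r q ↔ q = s ∨ q = t)
    (hs : ¬ Z r s) (ht : ¬ Z r t) : ∃ x y, Pen X Z r s t x y := by
  have e1 := h.ex r s t hst hX
  have hZts : Z t s := by
    have := e1 s
    simp only [true_or, true_iff, hst, false_or] at this
    by_contra hcon
    exact hs (this.2 hcon)
  have hZst : Z s t := by
    have := e1 t
    simp only [hst.symm, false_or, true_or, not_true_eq_false, iff_false] at this
    by_contra hcon
    exact ht (this.2 hcon)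
  have hrs : r ≠ s := fun h0 => h.dx r ((hX r).2 (Or.inl h0))
  have hrt : r ≠ t := fun h0 => h.dx r ((hX r).2 (Or.inr h0))
  -- the other out-neighbour of `s`
  obtain ⟨x, htx, hZs⟩ := two_with (h.rz s) hZst
  obtain ⟨y, hsy, hZt⟩ := two_with (h.rz t) hZts
  have hsx : s ≠ x := fun h0 => h.dz s ((hZs s).2 (Or.inr h0))
  have hty : t ≠ y := fun h0 => h.dz t ((hZt t).2 (Or.inr h0))
  have hZr' : ∀ q, Z r q ↔ ((q = x) ↔ ¬ (q = y)) := by
    intro q
    rw [e1 q, hZs, hZt]
    by_cases hqs : q = s
    · subst hqs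
      simp only [true_or, true_iff, hst, hsx, hsy, false_or, false_iff, not_false_eq_true]
    by_cases hqt : q = t
    · subst hqt
      simp only [true_or, hst.symm, htx, hty, false_or, false_iff, not_true_eq_false,
        iff_false, not_false_eq_true]
    simp only [hqs, hqt, false_or]
  have hxy : x ≠ y := by
    rintro rfl
    obtain ⟨u, v, huv, hu⟩ := h.rz r
    have h1 := (hu u).2 (Or.inl rfl)
    rw [hZr'] at h1
    tauto
  have hZr : ∀ q, Z r q ↔ q = x ∨ q = y := by
    intro q
    rw [hZr']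
    by_cases hqx : q = x
    · subst hqx
      simp only [hxy, true_or, not_false_eq_true]
    · simp only [hqx, false_or, false_iff, not_not]
  have hrx : r ≠ x := fun h0 => h.dz r ((hZr r).2 (Or.inl h0))
  have hry : r ≠ y := fun h0 => h.dz r ((hZr r).2 (Or.inr h0))
  -- the rows `x` and `y` of `X`
  have e2 := h.ez r x y hxy hZr
  have hXyx : X y x := by
    have := e2 x
    rw [hX] at this
    simp only [hsx.symm, htx.symm, true_or, true_iff, hxy, false_or, false_iff, not_not] at this
    exact this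
  have hXxy : X x y := by
    have := e2 y
    rw [hX] at this
    simp only [hsy.symm, hty.symm, true_or, hxy.symm, false_or, false_iff, not_true_eq_false,
      iff_false, not_not] at this
    exact this
  have hXxs : ¬ X x s := fun h0 => h.dis _ _ h0 ((hZs x).2 (Or.inr rfl))
  have hXyt : ¬ X y t := fun h0 => h.dis _ _ h0 ((hZt y).2 (Or.inr rfl))
  have hXys : X y s := by
    have := e2 s
    rw [hX] at this
    simp only [hsx, hsy, true_or, false_or, hXxs, false_iff, not_not, true_iff] at this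
    exact this
  have hXxt : X x t := by
    have := e2 t
    rw [hX] at this
    simp only [htx, hty, or_true, false_or, hXyt, not_false_eq_true, iff_true, true_iff] at this
    exact this
  have hXx := two_eq (h.rx x) hXxy hXxt hty.symm
  have hXy := two_eq (h.rx y) hXyx hXys hsx.symm
  -- the rows `s` and `t` of `X`
  have e3 := h.ez s t x htx hZs
  have hXsx : ¬ X s x := by
    intro h0
    have h1 := (h.noB' h0 ((hZs x).2 (Or.inr rfl)) t).2 hZst
    exact h.dis _ _ h1 hZts
  have hXty : ¬ X t y := by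
    intro h0
    have h1 := (h.noB' h0 ((hZt y).2 (Or.inr rfl)) s).2 hZts
    exact h.dis _ _ h1 hZst
  have hXst : ¬ X s t := fun h0 => h.dis _ _ h0 hZts
  have hXtx : X t x := by
    have := e3 x
    simp only [htx.symm, false_or, true_or, not_true_eq_false, iff_false, hXsx, false_iff,
      not_not] at this
    exact this
  have hXsy : X s y := by
    have := e3 y
    rw [hXx] at this
    simp only [hty.symm, hxy.symm, false_or, true_or, not_true_eq_false, iff_false, hXty,
      not_false_eq_true, iff_true] at this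
    exact this
  obtain ⟨p, hyp, hXs⟩ := two_with (h.rx s) hXsy
  have hXsp : X s p := (hXs p).2 (Or.inr rfl)
  have hpx : p ≠ x := fun h0 => hXsx (h0 ▸ hXsp)
  have hpt : p ≠ t := fun h0 => hXst (h0 ▸ hXsp)
  have hps : p ≠ s := fun h0 => h.dx s (by nth_rewrite 2 [← h0]; exact hXsp)
  have hXtp : X t p := by
    have := e3 p
    rw [hXx] at this
    simp only [hpt, hpx, hyp.symm, false_or, or_false, not_false_eq_true, iff_true] at this
    exact this.1 hXsp
  have hXt := two_eq (h.rx t) hXtx hXtp hpx.symm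
  -- the rows of `Z`
  have e4 := h.ex s y p hyp hXs
  have hZyp : Z y p := by
    have := e4 p
    rw [hZs] at this
    simp only [hpt, hpx, hyp.symm, false_or, true_or, not_true_eq_false, iff_false, false_iff,
      not_not] at this
    exact this
  have hZpy : Z p y := by
    have := e4 y
    rw [hZs] at this
    simp only [hty.symm, hxy.symm, hyp, false_or, true_or, true_iff, false_iff,
      not_not] at this
    exact this
  have e5 := h.ex x y t hty.symm hXx
  have hZyt : Z y t := by
    have h1 : ¬ Z x t := h.dis _ _ hXtx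
    have := e5 t
    simp only [hty, h1, false_or, true_or, not_true_eq_false, iff_false, false_iff,
      not_not] at this
    exact this
  have hZy := two_eq (h.rz y) hZyp hZyt hpt
  have hZpx : Z p x := by
    have := e4 x
    rw [hZs, hZy] at this
    simp only [hpx.symm, htx.symm, hxy, or_true, false_or, or_false, false_iff, true_iff,
      not_not] at this
    exact this
  have hZp := two_eq (h.rz p) hZpx hZpy hxy
  have hpr : p = r := by
    have h1 : Z s x := (hZs x).2 (Or.inr rfl)
    have h2 : Z r x := (hZr x).2 (Or.inl rfl)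
    have h3 := two_eq (h.cz x) h1 h2 hrs.symm
    rcases (h3 p).1 hZpx with h4 | h4
    · exact absurd h4 hps
    · exact h4
  subst hpr
  refine ⟨x, y, hX, hXs, hXt, hXx, hXy, hZr, hZs, hZt, ?_, hZy, hst, hxy, hrs, hrt, hrx, hry, hsx,
    hsy, htx, hty⟩
  intro q
  rw [e5 q, hZy, hZt]
  by_cases h1 : q = y
  · subst h1
    simp only [true_or, or_true, true_iff, hry.symm, hsy.symm, false_or, not_true_eq_false]
  by_cases h2 : q = t
  · subst h2
    simp only [or_true, true_or, hrt.symm, hst.symm, false_or, not_true_eq_false]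
    tauto
  simp only [h1, h2, false_or, or_false]
  by_cases h3 : q = p
  · subst h3
    simp only [true_iff, true_or, hrs, not_false_eq_true]
  · simp only [h3, false_or, false_iff, not_not]

end Pool.Agent.H76R
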