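import Pool.Agent.H76R.V

set_option autoImplicit false
set_option linter.unusedSectionVars false

/-! The theorem for all invertible matrices with short rows. -/

namespace Pool.Agent.H76R

open Matrix TH57.Thr TH6.LF Pool.Agent.Y75.Th
open scoped commutatorElement

variable {Γ : Type} [Group Γ]

/-- the trivial units and the units `1 - t - t⁻¹` with `t⁵ = 1` -/
def G5 (Γ : Type) [Group Γ] : Set (MonoidAlgebra ℤ Γ)ˣ :=
  {u | (∃ (g : Γ) (ε : ℤˣ), (u : MonoidAlgebra ℤ Γ) = MonoidAlgebra.single g (ε : ℤ)) ∨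
    ∃ t : Γ, t ^ 5 = 1 ∧ (u : MonoidAlgebra ℤ Γ) = pt t}

/-- the subgroup generated by the trivial units and the units `1 - t - t⁻¹` with `t⁵ = 1` -/
noncomputable def U5 (Γ : Type) [Group Γ] : Subgroup (MonoidAlgebra ℤ Γ)ˣ := Subgroup.closure (G5 Γ)

theorem TU_le_U5 : TU Γ ≤ U5 Γ := fun _ hu => Subgroup.subset_closure (Or.inl hu)

theorem pt_mem_U5 (t : Γ) (h5 : t ^ 5 = 1) (u : (MonoidAlgebra ℤ Γ)ˣ)
    (hu : (u : MonoidAlgebra ℤ Γ) = pt t) : u ∈ U5 Γ :=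
  Subgroup.subset_closure (Or.inr ⟨t, h5, hu⟩)

/-- the contragredient -/
noncomputable def ctr : (MonoidAlgebra ℤ Γ)ˣ →* (MonoidAlgebra ℤ Γ)ˣ where
  toFun u := ⟨bar ((u⁻¹ : (MonoidAlgebra ℤ Γ)ˣ) : MonoidAlgebra ℤ Γ),
    bar (u : MonoidAlgebra ℤ Γ), by rw [← bar_mul, Units.mul_inv, bar_one],
    by rw [← bar_mul, Units.inv_mul, bar_one]⟩
  map_one' := by
    apply Units.ext
    change bar (((1 : (MonoidAlgebra ℤ Γ)ˣ)⁻¹ : (MonoidAlgebra ℤ Γ)ˣ) : MonoidAlgebra ℤ Γ) = 1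
    rw [inv_one, Units.val_one, bar_one]
  map_mul' u v := by
    apply Units.ext
    change bar (((u * v)⁻¹ : (MonoidAlgebra ℤ Γ)ˣ) : MonoidAlgebra ℤ Γ)
      = bar ((u⁻¹ : (MonoidAlgebra ℤ Γ)ˣ) : MonoidAlgebra ℤ Γ)
        * bar ((v⁻¹ : (MonoidAlgebra ℤ Γ)ˣ) : MonoidAlgebra ℤ Γ)
    rw [_root_.mul_inv_rev, Units.val_mul, bar_mul]

theorem ctr_TU (u : (MonoidAlgebra ℤ Γ)ˣ) (hu : u ∈ TU Γ) : ctr u ∈ TU Γ := by
  obtain ⟨g, ε, h⟩ := hu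
  refine ⟨g, ε, ?_⟩
  change bar ((u⁻¹ : (MonoidAlgebra ℤ Γ)ˣ) : MonoidAlgebra ℤ Γ) = _
  have h1 : ((u⁻¹ : (MonoidAlgebra ℤ Γ)ˣ) : MonoidAlgebra ℤ Γ)
      = MonoidAlgebra.single g⁻¹ (ε : ℤ) := by
    have hε : (ε : ℤ) * (ε : ℤ) = 1 := by
      rcases Int.units_eq_one_or ε with rfl | rfl <;> norm_num
    have h2 : (u : MonoidAlgebra ℤ Γ) * MonoidAlgebra.single g⁻¹ (ε : ℤ) = 1 := by
      rw [h, MonoidAlgebra.single_mul_single, mul_inv_cancel, hε, MonoidAlgebra.one_def]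
    calc ((u⁻¹ : (MonoidAlgebra ℤ Γ)ˣ) : MonoidAlgebra ℤ Γ)
        = ((u⁻¹ : (MonoidAlgebra ℤ Γ)ˣ) : MonoidAlgebra ℤ Γ)
          * ((u : MonoidAlgebra ℤ Γ) * MonoidAlgebra.single g⁻¹ (ε : ℤ)) := by rw [h2, mul_one]
      _ = _ := by rw [← mul_assoc, Units.inv_mul, one_mul]
  rw [h1, bar_single, inv_inv]

theorem UC_TU : UC (TU Γ) where
  tu := le_refl _
  st u hu v hv := by
    have : v = ctr u := Units.ext hv
    rw [this]
    exact ctr_TU u hu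

theorem ctr_U5 (u : (MonoidAlgebra ℤ Γ)ˣ) (hu : u ∈ U5 Γ) : ctr u ∈ U5 Γ := by
  have h1 : U5 Γ ≤ (U5 Γ).comap ctr := by
    apply (Subgroup.closure_le _).2
    rintro w (hw | ⟨t, h5, hw⟩)
    · exact TU_le_U5 (ctr_TU w hw)
    · change ctr w ∈ U5 Γ
      have h2 : ctr w = w⁻¹ := by
        rw [eq_comm, inv_eq_iff_mul_eq_one]
        apply Units.ext
        change (w : MonoidAlgebra ℤ Γ) * bar ((w⁻¹ : (MonoidAlgebra ℤ Γ)ˣ) : MonoidAlgebra ℤ Γ) = 1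
        have h3 : (w : MonoidAlgebra ℤ Γ) = bar (w : MonoidAlgebra ℤ Γ) := by rw [hw, bar_pt]
        rw [h3, ← bar_mul, Units.inv_mul, bar_one]
      rw [h2]
      exact inv_mem (pt_mem_U5 t h5 w hw)
  exact h1 hu

theorem UC_U5 : UC (U5 Γ) where
  tu := TU_le_U5
  st u hu v hv := by
    have : v = ctr u := Units.ext hv
    rw [this]
    exact ctr_U5 u hu

section kappa

variable {κ : Type} [Fintype κ] [DecidableEq κ]

theorem Good_U5 (A B : Matrix κ κ (MonoidAlgebra ℤ Γ)) : Good (U5 Γ) A B :=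
  fun t ht w hw => pt_mem_U5 t ht.2.1 w hw

theorem N_D (A B : Matrix κ κ (MonoidAlgebra ℤ Γ)) (h : A * B = 1) (i : κ) :
    N (fun j => (A - adj B) i j) = N (fun j => A i j) + N (fun j => B j i) - 2 := by
  have h1 := N_sub A B h i
  rw [N_adj_row] at h1
  exact h1

/-- the pair of an invertible matrix with short rows -/
theorem S6_of_rows (A : (Matrix κ κ (MonoidAlgebra ℤ Γ))ˣ)
    (h : ∀ i, N (fun j => ((A : Matrix κ κ (MonoidAlgebra ℤ Γ))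
      - adj (↑A⁻¹ : Matrix κ κ (MonoidAlgebra ℤ Γ))) i j) ≤ 4) :
    S6 (A : Matrix κ κ (MonoidAlgebra ℤ Γ)) (↑A⁻¹ : Matrix κ κ (MonoidAlgebra ℤ Γ)) where
  ab := A.mul_inv
  ba := A.inv_mul
  rows i := by
    have h1 := h i
    rw [N_D _ _ A.mul_inv] at h1
    omega

/-- **rows** -/
theorem TT_rows {U : Subgroup (MonoidAlgebra ℤ Γ)ˣ} (hU : UC U)
    (A : (Matrix κ κ (MonoidAlgebra ℤ Γ))ˣ)
    (h : ∀ i, N (fun j => ((A : Matrix κ κ (MonoidAlgebra ℤ Γ))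
      - adj (↑A⁻¹ : Matrix κ κ (MonoidAlgebra ℤ Γ))) i j) ≤ 4)
    (hG : Good U (A : Matrix κ κ (MonoidAlgebra ℤ Γ)) (↑A⁻¹ : Matrix κ κ (MonoidAlgebra ℤ Γ))) :
    TT U A :=
  main U hU (Fintype.card κ) κ (le_refl _) _ _ (S6_of_rows A h) hG A rfl

/-- the contragredient of a matrix -/
noncomputable def cg (A : (Matrix κ κ (MonoidAlgebra ℤ Γ))ˣ) :
    (Matrix κ κ (MonoidAlgebra ℤ Γ))ˣ where
  val := adj (A : Matrix κ κ (MonoidAlgebra ℤ Γ))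
  inv := adj (↑A⁻¹ : Matrix κ κ (MonoidAlgebra ℤ Γ))
  val_inv := by rw [← adj_mul, A.inv_mul, adj_one]
  inv_val := by rw [← adj_mul, A.mul_inv, adj_one]

theorem TT_cg {U : Subgroup (MonoidAlgebra ℤ Γ)ˣ} (hU : UC U)
    (A : (Matrix κ κ (MonoidAlgebra ℤ Γ))ˣ) (h : TT U (cg A)) : TT U A := by
  have h1 : Tm U (A : Matrix κ κ (MonoidAlgebra ℤ Γ)) := by
    apply Tm_star hU (B := (↑A⁻¹ : Matrix κ κ (MonoidAlgebra ℤ Γ))) ⟨A.mul_inv, A.inv_mul⟩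
    intro w hw
    have : w = cg A := Units.ext hw
    rw [this]; exact h
  exact h1 A rfl

theorem cg_row (A : (Matrix κ κ (MonoidAlgebra ℤ Γ))ˣ) (i : κ) :
    N (fun j => ((cg A : Matrix κ κ (MonoidAlgebra ℤ Γ))
      - adj (↑(cg A)⁻¹ : Matrix κ κ (MonoidAlgebra ℤ Γ))) i j)
    = N (fun j => ((A : Matrix κ κ (MonoidAlgebra ℤ Γ))
      - adj (↑A⁻¹ : Matrix κ κ (MonoidAlgebra ℤ Γ))) j i) := by
  refine Finset.sum_congr rfl fun j _ => ?_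
  change nsq (bar ((A : Matrix κ κ (MonoidAlgebra ℤ Γ)) j i)
    - bar (bar ((↑A⁻¹ : Matrix κ κ (MonoidAlgebra ℤ Γ)) i j)))
    = nsq ((A : Matrix κ κ (MonoidAlgebra ℤ Γ)) j i
      - bar ((↑A⁻¹ : Matrix κ κ (MonoidAlgebra ℤ Γ)) i j))
  rw [← bar_sub, nsq_bar]

/-- **columns** -/
theorem TT_cols (A : (Matrix κ κ (MonoidAlgebra ℤ Γ))ˣ)
    (h : ∀ i, N (fun j => ((A : Matrix κ κ (MonoidAlgebra ℤ Γ))
      - adj (↑A⁻¹ : Matrix κ κ (MonoidAlgebra ℤ Γ))) j i) ≤ 4) : TT (U5 Γ) A := by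
  apply TT_cg UC_U5
  apply TT_rows UC_U5
  · intro i
    rw [cg_row]; exact h i
  · exact Good_U5 _ _

/-! ### The form of the frozen statement -/

theorem TT_form {U : Subgroup (MonoidAlgebra ℤ Γ)ˣ} (A : (Matrix κ κ (MonoidAlgebra ℤ Γ))ˣ)
    (h : TT U A) :
    ∃ (m : ℕ) (u : (MonoidAlgebra ℤ Γ)ˣ)
      (C : (Matrix (κ ⊕ Fin (m + 1)) (κ ⊕ Fin (m + 1)) (MonoidAlgebra ℤ Γ))ˣ),
      u ∈ U ∧
      C ∈ commutator (Matrix (κ ⊕ Fin (m + 1)) (κ ⊕ Fin (m + 1)) (MonoidAlgebra ℤ Γ))ˣ ∧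
      Matrix.fromBlocks (A : Matrix κ κ (MonoidAlgebra ℤ Γ)) 0 0
          (1 : Matrix (Fin (m + 1)) (Fin (m + 1)) (MonoidAlgebra ℤ Γ)) =
        Matrix.diagonal (fun i : κ ⊕ Fin (m + 1) =>
            if i = Sum.inr (0 : Fin (m + 1)) then (u : MonoidAlgebra ℤ Γ) else 1) *
          (C : Matrix (κ ⊕ Fin (m + 1)) (κ ⊕ Fin (m + 1)) (MonoidAlgebra ℤ Γ)) := by
  obtain ⟨μ, i1, i2, h1⟩ := h
  have h2 := (TT_more U A μ h1 (Fin 1)).1
  have hcard : Fintype.card (Fin (Fintype.card μ + 1)) = Fintype.card (μ ⊕ Fin 1) := by simp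
  let e : Fin (Fintype.card μ + 1) ≃ (μ ⊕ Fin 1) := Fintype.equivOfCardEq hcard
  have h3 := re_mem U (Equiv.sumCongr (Equiv.refl κ) e) _ h2
  obtain ⟨u, hu, C, hC, h4⟩ := HH_form U
    (Sum.inr (0 : Fin (Fintype.card μ + 1))) _ h3
  refine ⟨Fintype.card μ, u, C, hu, hC, ?_⟩
  have h5 := congrArg Units.val h4
  rw [Units.val_mul] at h5
  convert h5 using 1
  · ext (i | i) (j | j) <;> simp [stm, re, Matrix.one_apply]
  · congr 1
    change _ = dgm (Sum.inr (0 : Fin (Fintype.card μ + 1))) (u : MonoidAlgebra ℤ Γ)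
    rw [dgm_apply]
    congr 1
    funext i
    by_cases h : i = Sum.inr (0 : Fin (Fintype.card μ + 1))
    · subst h; simp
    · rw [if_neg h, Function.update_of_ne h]; rfl

theorem TT_of_form {U : Subgroup (MonoidAlgebra ℤ Γ)ˣ} (A : (Matrix κ κ (MonoidAlgebra ℤ Γ))ˣ)
    (m : ℕ) (u : (MonoidAlgebra ℤ Γ)ˣ)
    (C : (Matrix (κ ⊕ Fin (m + 1)) (κ ⊕ Fin (m + 1)) (MonoidAlgebra ℤ Γ))ˣ) (hu : u ∈ U)
    (hC : C ∈ commutator (Matrix (κ ⊕ Fin (m + 1)) (κ ⊕ Fin (m + 1)) (MonoidAlgebra ℤ Γ))ˣ)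
    (h : Matrix.fromBlocks (A : Matrix κ κ (MonoidAlgebra ℤ Γ)) 0 0
          (1 : Matrix (Fin (m + 1)) (Fin (m + 1)) (MonoidAlgebra ℤ Γ)) =
        Matrix.diagonal (fun i : κ ⊕ Fin (m + 1) =>
            if i = Sum.inr (0 : Fin (m + 1)) then (u : MonoidAlgebra ℤ Γ) else 1) *
          (C : Matrix (κ ⊕ Fin (m + 1)) (κ ⊕ Fin (m + 1)) (MonoidAlgebra ℤ Γ))) : TT U A := by
  refine ⟨Fin (m + 1), inferInstance, inferInstance, ?_⟩
  have h2 : Units.map (stm (Fin (m + 1))) A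
      = Units.map (dgm (Sum.inr (0 : Fin (m + 1)))) u * C := by
    apply Units.ext
    rw [Units.val_mul]
    change fromBlocks A.val 0 0 1 = dgm (Sum.inr (0 : Fin (m + 1))) (u : MonoidAlgebra ℤ Γ) * C.val
    rw [h, dgm_apply]
    congr 2
    funext i
    by_cases h : i = Sum.inr (0 : Fin (m + 1))
    · subst h; simp
    · rw [if_neg h, Function.update_of_ne h]; rfl
  rw [h2]
  exact mul_mem (dgm_mem_HH _ _ u hu) (commutator_le_HH _ hC)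

end kappa

/-! ### No element of order five -/

theorem U5_le_TU (h5 : ∀ t : Γ, t ^ 5 = 1 → t = 1) : U5 Γ ≤ TU Γ := by
  apply (Subgroup.closure_le _).2
  rintro w (hw | ⟨t, ht, hw⟩)
  · exact hw
  · refine ⟨1, -1, ?_⟩
    rw [hw, h5 t ht]
    unfold pt
    rw [inv_one]
    have : (((-1 : ℤˣ) : ℤ)) = -1 := by norm_num
    rw [this, MonoidAlgebra.single_neg]
    abel

end Pool.Agent.H76R
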