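import Pool.Graph.R_seed8.Y75.Th.Fin

set_option autoImplicit false
set_option linter.unusedSectionVars false

/-! Pairs of mutually inverse matrices, pentagon units, and the symmetries. -/

namespace Pool.Agent.H76R

open Matrix TH57.Thr TH6.LF Pool.Agent.Y75.Th

variable {Γ : Type} [Group Γ] {κ : Type} [Fintype κ] [DecidableEq κ]

/-- the element `1 - t - t⁻¹` -/
noncomputable def pt (t : Γ) : MonoidAlgebra ℤ Γ :=
  MonoidAlgebra.single 1 1 - MonoidAlgebra.single t 1 - MonoidAlgebra.single t⁻¹ 1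

theorem bar_pt (t : Γ) : bar (pt t) = pt t := by
  unfold pt
  rw [bar_sub, bar_sub, bar_single, bar_single, bar_single, inv_inv, inv_one]
  abel

theorem pt_inv (t : Γ) : pt t⁻¹ = pt t := by
  unfold pt
  rw [inv_inv]
  abel

theorem pt_mul (t : Γ) (ht : t ^ 5 = 1) : pt t * pt (t ^ 2) = 1 := by
  have h3 : t * (t ^ 2) = t ^ 3 := by group
  have h4 : t * (t ^ 2)⁻¹ = t⁻¹ := by group
  have h5 : t⁻¹ * t ^ 2 = t := by group
  have h6 : t⁻¹ * (t ^ 2)⁻¹ = t ^ 2 := by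
    have : t⁻¹ * (t ^ 2)⁻¹ = (t ^ 5)⁻¹ * t ^ 2 := by group
    rw [this, ht]; simp
  have h7 : (t ^ 2)⁻¹ = t ^ 3 := by
    have : (t ^ 2)⁻¹ = (t ^ 5)⁻¹ * t ^ 3 := by group
    rw [this, ht]; simp
  unfold pt
  simp only [sub_mul, mul_sub, MonoidAlgebra.single_mul_single, one_mul, mul_one]
  rw [h3, h4, h5, h6, h7, MonoidAlgebra.one_def]
  abel

theorem pt_conj (g t : Γ) (ε : ℤ) :
    MonoidAlgebra.single g ε * pt t = pt (g * t * g⁻¹) * MonoidAlgebra.single g ε := by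
  unfold pt
  simp only [sub_mul, mul_sub, MonoidAlgebra.single_mul_single, one_mul, mul_one]
  have h1 : g * t * g⁻¹ * g = g * t := by group
  have h2 : (g * t * g⁻¹)⁻¹ * g = g * t⁻¹ := by group
  rw [h1, h2]

/-- a pair of mutually inverse matrices -/
structure IP (A B : Matrix κ κ (MonoidAlgebra ℤ Γ)) : Prop where
  ab : A * B = 1
  ba : B * A = 1

theorem IP.inv {A B : Matrix κ κ (MonoidAlgebra ℤ Γ)} (h : IP A B) : IP B A := ⟨h.ba, h.ab⟩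

theorem IP.star {A B : Matrix κ κ (MonoidAlgebra ℤ Γ)} (h : IP A B) : IP (adj A) (adj B) :=
  ⟨by rw [← adj_mul, h.ba, adj_one], by rw [← adj_mul, h.ab, adj_one]⟩

/-- the unit of a pair -/
def IP.unit {A B : Matrix κ κ (MonoidAlgebra ℤ Γ)} (h : IP A B) :
    (Matrix κ κ (MonoidAlgebra ℤ Γ))ˣ := ⟨A, B, h.ab, h.ba⟩

theorem IP.eq_unit {A B : Matrix κ κ (MonoidAlgebra ℤ Γ)} (h : IP A B)
    (w : (Matrix κ κ (MonoidAlgebra ℤ Γ))ˣ) (hw : (w : Matrix κ κ (MonoidAlgebra ℤ Γ)) = A) :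
    w = h.unit := Units.ext hw

/-- a pair with small row sums -/
structure S6 (A B : Matrix κ κ (MonoidAlgebra ℤ Γ)) : Prop extends IP A B where
  rows : ∀ i, N (fun j => A i j) + N (fun j => B j i) ≤ 6

theorem N_adj_row (M : Matrix κ κ (MonoidAlgebra ℤ Γ)) (l : κ) :
    N (fun a => (adj M) l a) = N (fun a => M a l) :=
  Finset.sum_congr rfl fun j _ => nsq_bar (M j l)

theorem N_adj_col (M : Matrix κ κ (MonoidAlgebra ℤ Γ)) (l : κ) :
    N (fun a => (adj M) a l) = N (fun a => M l a) :=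
  Finset.sum_congr rfl fun j _ => nsq_bar (M l j)

theorem S6.ad {A B : Matrix κ κ (MonoidAlgebra ℤ Γ)} (h : S6 A B) : S6 (adj B) (adj A) where
  toIP := h.toIP.inv.star
  rows i := by rw [N_adj_row, N_adj_col]; have := h.rows i; omega

/-- a pentagon entry -/
def Pent (A B : Matrix κ κ (MonoidAlgebra ℤ Γ)) (t : Γ) : Prop :=
  t ≠ 1 ∧ t ^ 5 = 1 ∧ ∃ (i j : κ) (g : Γ) (ε : ℤ), ε ^ 2 = 1 ∧
    A i j = pt t * MonoidAlgebra.single g ε ∧ B j i = MonoidAlgebra.single g⁻¹ ε * pt (t ^ 2)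

/-- the pentagon units of a pair belong to `U` -/
def Good (U : Subgroup (MonoidAlgebra ℤ Γ)ˣ) (A B : Matrix κ κ (MonoidAlgebra ℤ Γ)) : Prop :=
  ∀ t, Pent A B t → ∀ w : (MonoidAlgebra ℤ Γ)ˣ, (w : MonoidAlgebra ℤ Γ) = pt t → w ∈ U

theorem conj_ne {t g : Γ} (h : t ≠ 1) : g * t * g⁻¹ ≠ 1 := by
  intro h1
  apply h
  have : t = g⁻¹ * (g * t * g⁻¹) * g := by group
  rw [this, h1]; group

theorem conj_pow5 {t g : Γ} (h : t ^ 5 = 1) : (g * t * g⁻¹) ^ 5 = 1 := by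
  rw [conj_pow, h]; group

theorem pow2_ne {t : Γ} (h : t ≠ 1) (h5 : t ^ 5 = 1) : t ^ 2 ≠ 1 := by
  intro h1
  apply h
  have : t = t ^ 5 * (t ^ 2)⁻¹ * (t ^ 2)⁻¹ := by group
  rw [this, h1, h5]; simp

theorem pow2_pow5 {t : Γ} (h5 : t ^ 5 = 1) : (t ^ 2) ^ 5 = 1 := by
  rw [← pow_mul, mul_comm, pow_mul, h5, one_pow]

theorem pt_sqsq {t : Γ} (h5 : t ^ 5 = 1) : pt ((t ^ 2) ^ 2) = pt t := by
  have : (t ^ 2) ^ 2 = t⁻¹ := by
    have : (t ^ 2) ^ 2 = t ^ 5 * t⁻¹ := by group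
    rw [this, h5, one_mul]
  rw [this, pt_inv]

/-- requirements on the group of units -/
structure UC (U : Subgroup (MonoidAlgebra ℤ Γ)ˣ) : Prop where
  tu : TU Γ ≤ U
  st : ∀ u ∈ U, ∀ v : (MonoidAlgebra ℤ Γ)ˣ,
    (v : MonoidAlgebra ℤ Γ) = bar ((u⁻¹ : (MonoidAlgebra ℤ Γ)ˣ) : MonoidAlgebra ℤ Γ) → v ∈ U

theorem pt_conj_mem {U : Subgroup (MonoidAlgebra ℤ Γ)ˣ} (hU : TU Γ ≤ U) (t g : Γ)
    (h : ∀ w : (MonoidAlgebra ℤ Γ)ˣ, (w : MonoidAlgebra ℤ Γ) = pt (g * t * g⁻¹) → w ∈ U)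
    (w : (MonoidAlgebra ℤ Γ)ˣ) (hw : (w : MonoidAlgebra ℤ Γ) = pt t) : w ∈ U := by
  have hg : sgu g 1 (by norm_num) ∈ U := hU (sgu_mem g 1 (by norm_num))
  have h1 : sgu g 1 (by norm_num) * w * (sgu g 1 (by norm_num))⁻¹ ∈ U := by
    apply h
    rw [Units.val_mul, Units.val_mul, hw]
    change MonoidAlgebra.single g 1 * pt t * MonoidAlgebra.single g⁻¹ 1 = _
    rw [pt_conj, mul_assoc, MonoidAlgebra.single_mul_single, mul_inv_cancel, mul_one,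
      ← MonoidAlgebra.one_def, mul_one]
  have h2 : w = (sgu g 1 (by norm_num))⁻¹ *
      (sgu g 1 (by norm_num) * w * (sgu g 1 (by norm_num))⁻¹) * sgu g 1 (by norm_num) := by group
  rw [h2]
  exact mul_mem (mul_mem (inv_mem hg) h1) hg

theorem pt_sq_mem {U : Subgroup (MonoidAlgebra ℤ Γ)ˣ} (t : Γ) (ht : t ^ 5 = 1)
    (h : ∀ w : (MonoidAlgebra ℤ Γ)ˣ, (w : MonoidAlgebra ℤ Γ) = pt (t ^ 2) → w ∈ U)
    (w : (MonoidAlgebra ℤ Γ)ˣ) (hw : (w : MonoidAlgebra ℤ Γ) = pt t) : w ∈ U := by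
  have h1 : w⁻¹ ∈ U := by
    apply h
    apply Units.inv_eq_of_mul_eq_one_right
    rw [hw, pt_mul t ht]
  simpa using inv_mem h1

theorem Good.inv {U : Subgroup (MonoidAlgebra ℤ Γ)ˣ} (hU : TU Γ ≤ U)
    {A B : Matrix κ κ (MonoidAlgebra ℤ Γ)} (h : Good U A B) : Good U B A := by
  rintro t ⟨h1, h5, i, j, g, ε, hε, hB, hA⟩ w hw
  rw [pt_conj] at hA
  have hB' : B i j = MonoidAlgebra.single g ε * pt ((g⁻¹ * t ^ 2 * g) ^ 2) := by
    rw [pt_conj, hB]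
    have : g * (g⁻¹ * t ^ 2 * g) ^ 2 * g⁻¹ = (t ^ 2) ^ 2 := by
      rw [pow_two (g⁻¹ * t ^ 2 * g)]; group
    rw [this, pt_sqsq h5]
  have hP : Pent A B (g⁻¹ * t ^ 2 * g) := by
    refine ⟨?_, ?_, j, i, g⁻¹, ε, hε, ?_, ?_⟩
    · have := conj_ne (g := g⁻¹) (pow2_ne h1 h5)
      rwa [inv_inv] at this
    · have := conj_pow5 (g := g⁻¹) (pow2_pow5 h5)
      rwa [inv_inv] at this
    · rw [hA, inv_inv]
    · rw [inv_inv]; exact hB'
  refine pt_sq_mem t h5 ?_ w hw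
  refine pt_conj_mem hU (t ^ 2) g⁻¹ ?_
  rw [inv_inv]
  exact h _ hP

theorem Good.star {U : Subgroup (MonoidAlgebra ℤ Γ)ˣ} (hU : TU Γ ≤ U)
    {A B : Matrix κ κ (MonoidAlgebra ℤ Γ)} (h : Good U A B) : Good U (adj A) (adj B) := by
  rintro t ⟨h1, h5, i, j, g, ε, hε, hA, hB⟩ w hw
  rw [adj_apply] at hA hB
  have hA' : A j i = MonoidAlgebra.single g⁻¹ ε * pt t := by
    rw [← bar_bar (A j i), hA, bar_mul, bar_single, bar_pt]
  have hB' : B i j = pt (t ^ 2) * MonoidAlgebra.single g ε := by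
    rw [← bar_bar (B i j), hB, bar_mul, bar_single, bar_pt, inv_inv]
  have hP : Pent A B (g⁻¹ * t * g) := by
    refine ⟨?_, ?_, j, i, g⁻¹, ε, hε, ?_, ?_⟩
    · have := conj_ne (g := g⁻¹) h1
      rwa [inv_inv] at this
    · have := conj_pow5 (g := g⁻¹) h5
      rwa [inv_inv] at this
    · rw [hA', pt_conj, inv_inv]
    · rw [inv_inv, pt_conj, hB']
      have : g * (g⁻¹ * t * g) ^ 2 * g⁻¹ = t ^ 2 := by
        rw [pow_two (g⁻¹ * t * g), pow_two t]; group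
      rw [this]
  refine pt_conj_mem hU t g⁻¹ ?_ w hw
  rw [inv_inv]
  exact h _ hP

/-! ### Symmetries of stable triviality -/

theorem HH_mono {U V : Subgroup (MonoidAlgebra ℤ Γ)ˣ} (h : U ≤ V) : HH U κ ≤ HH V κ := by
  intro x hx
  exact map_HH_le U V (MonoidHom.id _) (fun i u hu => dgm_mem_HH V i u (h hu)) x hx

theorem TT_mono {U V : Subgroup (MonoidAlgebra ℤ Γ)ˣ} (h : U ≤ V)
    (x : (Matrix κ κ (MonoidAlgebra ℤ Γ))ˣ) (hx : TT U x) : TT V x := by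
  obtain ⟨μ, i1, i2, h1⟩ := hx
  exact ⟨μ, i1, i2, HH_mono h h1⟩

theorem adU_mem' {U : Subgroup (MonoidAlgebra ℤ Γ)ˣ} (hU : UC U)
    (x : (Matrix κ κ (MonoidAlgebra ℤ Γ))ˣ) (hx : x ∈ HH U κ) :
    adU κ x ∈ HH U κ := by
  refine map_HH_le U U (adU κ) (fun i u hu => ?_) x hx
  let v : (MonoidAlgebra ℤ Γ)ˣ := ⟨bar ((u⁻¹ : (MonoidAlgebra ℤ Γ)ˣ) : MonoidAlgebra ℤ Γ),
    bar (u : MonoidAlgebra ℤ Γ), by rw [← bar_mul, Units.mul_inv, bar_one],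
    by rw [← bar_mul, Units.inv_mul, bar_one]⟩
  have hv : v ∈ U := hU.st u hu v rfl
  have h4 : adU κ (Units.map (dgm i) u) = Units.map (dgm i) v := by
    apply Units.ext
    rw [adU_val, ← map_inv]
    change adj (dgm i ((u⁻¹ : (MonoidAlgebra ℤ Γ)ˣ) : MonoidAlgebra ℤ Γ))
      = dgm i (bar ((u⁻¹ : (MonoidAlgebra ℤ Γ)ˣ) : MonoidAlgebra ℤ Γ))
    ext1 a b
    rw [adj_apply, dgm_apply, dgm_apply, Matrix.diagonal_apply, Matrix.diagonal_apply]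
    by_cases hab : a = b
    · subst hab
      rw [if_pos rfl, if_pos rfl]
      by_cases ha : a = i
      · subst ha; simp
      · simp [Function.update_of_ne ha]
    · rw [if_neg hab, if_neg (Ne.symm hab), bar_zero]
  rw [h4]
  exact dgm_mem_HH U i v hv

theorem TT_adU' {U : Subgroup (MonoidAlgebra ℤ Γ)ˣ} (hU : UC U)
    (x : (Matrix κ κ (MonoidAlgebra ℤ Γ))ˣ) (hx : TT U x) :
    TT U (adU κ x) := by
  obtain ⟨μ, i1, i2, h1⟩ := hx
  refine ⟨μ, i1, i2, ?_⟩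
  have h2 := adU_mem' hU _ h1
  convert h2 using 1
  apply Units.ext
  rw [adU_val, ← map_inv]
  change fromBlocks (adU κ x : Matrix κ κ (MonoidAlgebra ℤ Γ)) 0 0 1
    = adj (fromBlocks (↑x⁻¹ : Matrix κ κ (MonoidAlgebra ℤ Γ)) 0 0 1)
  rw [adj_fromBlocks, adj_zero, adj_zero, adj_one, adU_val]

theorem Tm_inv {U : Subgroup (MonoidAlgebra ℤ Γ)ˣ} {A B : Matrix κ κ (MonoidAlgebra ℤ Γ)}
    (h : IP A B) (hB : Tm U B) : Tm U A := by
  intro w hw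
  have h1 := h.eq_unit w hw
  have h2 : TT U (w⁻¹) := by
    apply hB
    rw [h1]; rfl
  simpa using TT_inv U _ h2

theorem Tm_star {U : Subgroup (MonoidAlgebra ℤ Γ)ˣ} (hU : UC U)
    {A B : Matrix κ κ (MonoidAlgebra ℤ Γ)} (h : IP A B) (hA : Tm U (adj A)) : Tm U A := by
  intro w hw
  have h1 := h.eq_unit w hw
  have h2 : TT U ((adU κ w)⁻¹) := by
    apply hA
    rw [← map_inv, adU_val, inv_inv, hw]
  have h3 := TT_adU' hU _ h2
  rw [map_inv] at h3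
  have h4 := TT_inv U _ h3
  rw [inv_inv] at h4
  convert h4 using 1
  apply Units.ext
  rw [adU_val, ← map_inv, adU_val, inv_inv, adj_adj]

end Pool.Agent.H76R
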