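import Pool.Agent.H76R.O

set_option autoImplicit false
set_option linter.unusedSectionVars false

/-! The layered case. -/

namespace Pool.Agent.H76R

open Matrix TH57.Thr TH6.LF Pool.Agent.Y75.Th

variable {Γ : Type} [Group Γ] {κ : Type} [Fintype κ] [DecidableEq κ]

theorem single_mul_entry (i j : κ) (a : MonoidAlgebra ℤ Γ) (M : Matrix κ κ (MonoidAlgebra ℤ Γ))
    (x y : κ) : (Matrix.single j i a * M) x y = if x = j then a * M i y else 0 := by
  rw [Matrix.mul_apply, Finset.sum_eq_single i]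
  · by_cases hx : x = j
    · subst hx; simp
    · rw [if_neg hx, Matrix.single_apply, if_neg (fun h => hx h.1.symm), zero_mul]
  · intro b _ hb
    rw [Matrix.single_apply, if_neg (fun h => hb h.2.symm), zero_mul]
  · intro hi
    exact absurd (Finset.mem_univ i) hi

theorem mul_single_entry (i j : κ) (a : MonoidAlgebra ℤ Γ) (M : Matrix κ κ (MonoidAlgebra ℤ Γ))
    (x y : κ) : (M * Matrix.single j i a) x y = if y = i then M x j * a else 0 := by
  rw [Matrix.mul_apply, Finset.sum_eq_single j]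
  · by_cases hx : y = i
    · subst hx; simp
    · rw [if_neg hx, Matrix.single_apply, if_neg (fun h => hx h.2.symm), mul_zero]
  · intro b _ hb
    rw [Matrix.single_apply, if_neg (fun h => hb h.1.symm), mul_zero]
  · intro hi
    exact absurd (Finset.mem_univ j) hi

/-- the conjugated matrix -/
noncomputable def cj (i j : κ) (a : MonoidAlgebra ℤ Γ) (M : Matrix κ κ (MonoidAlgebra ℤ Γ)) :
    Matrix κ κ (MonoidAlgebra ℤ Γ) :=
  (1 + Matrix.single j i a) * M * (1 - Matrix.single j i a)

theorem cj_entry (i j : κ) (a : MonoidAlgebra ℤ Γ) (M : Matrix κ κ (MonoidAlgebra ℤ Γ)) (x y : κ) :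
    cj i j a M x y = M x y + (if x = j then a * M i y else 0)
      - (if y = i then (M x j + if x = j then a * M i j else 0) * a else 0) := by
  unfold cj
  rw [mul_sub, mul_one, Matrix.sub_apply, mul_single_entry, add_mul, one_mul, Matrix.add_apply,
    Matrix.add_apply, single_mul_entry, single_mul_entry]

theorem cj_IP (i j : κ) (hij : j ≠ i) (a : MonoidAlgebra ℤ Γ)
    {A B : Matrix κ κ (MonoidAlgebra ℤ Γ)} (h : IP A B) : IP (cj i j a A) (cj i j a B) := by
  have e1 : (1 - Matrix.single j i a) * (1 + Matrix.single j i a)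
      = (1 : Matrix κ κ (MonoidAlgebra ℤ Γ)) := (tv j i hij a).inv_val
  have e2 : (1 + Matrix.single j i a) * (1 - Matrix.single j i a)
      = (1 : Matrix κ κ (MonoidAlgebra ℤ Γ)) := (tv j i hij a).val_inv
  have key : ∀ P Q : Matrix κ κ (MonoidAlgebra ℤ Γ), P * Q = 1 →
      cj i j a P * cj i j a Q = 1 := by
    intro P Q hPQ
    unfold cj
    calc (1 + Matrix.single j i a) * P * (1 - Matrix.single j i a)
        * ((1 + Matrix.single j i a) * Q * (1 - Matrix.single j i a))
        = (1 + Matrix.single j i a) * P * ((1 - Matrix.single j i a)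
          * (1 + Matrix.single j i a)) * Q * (1 - Matrix.single j i a) := by
          simp only [mul_assoc]
      _ = (1 + Matrix.single j i a) * (P * Q) * (1 - Matrix.single j i a) := by
          rw [e1, mul_one]; simp only [mul_assoc]
      _ = 1 := by rw [hPQ, mul_one, e2]
  exact ⟨key _ _ h.ab, key _ _ h.ba⟩

theorem cj_Tm (i j : κ) (hij : j ≠ i) (a : MonoidAlgebra ℤ Γ)
    {U : Subgroup (MonoidAlgebra ℤ Γ)ˣ} {A : Matrix κ κ (MonoidAlgebra ℤ Γ)}
    (h : Tm U (cj i j a A)) : Tm U A := by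
  intro w hw
  have h1 : TT U (tv j i hij a * w * (tv j i hij a)⁻¹) := by
    apply h
    rw [Units.val_mul, Units.val_mul, hw]
    rfl
  have h2 := TT_conj U _ (tv j i hij a)⁻¹ h1
  convert h2 using 1
  group

section all2

variable {X Z : Matrix κ κ (MonoidAlgebra ℤ Γ)} (h : All2 X Z)

include h

theorem All2.C_eq {p s t : κ × Γ} (hst : s ≠ t) (hX : ∀ q, bg X p q ≠ 0 ↔ q = s ∨ q = t)
    (hZ : ∀ q, bg Z p q ≠ 0 ↔ q = s ∨ q = t) (q : κ × Γ) :
    bg X p s * bg X s q + bg X p t * bg X t q = 0 := by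
  obtain ⟨x, y, hxy, hXs, hXt, hZs, hZt⟩ := h.PC.layer hst hX hZ
  have hxs : x ≠ s := fun h0 => h.PC.dx s ((hXs s).2 (Or.inl h0.symm))
  have hys : y ≠ s := fun h0 => h.PC.dx s ((hXs s).2 (Or.inr h0.symm))
  have hxt : x ≠ t := fun h0 => h.PC.dx t ((hXt t).2 (Or.inl h0.symm))
  have hyt : y ≠ t := fun h0 => h.PC.dx t ((hXt t).2 (Or.inr h0.symm))
  have z1 : bg Z t s = 0 := by
    by_contra h0
    rcases (hZt s).1 h0 with h1 | h1
    · exact hxs h1.symm
    · exact hys h1.symm
  have z2 : bg Z s t = 0 := by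
    by_contra h0
    rcases (hZs t).1 h0 with h1 | h1
    · exact hxt h1.symm
    · exact hyt h1.symm
  have hs := (hX s).2 (Or.inl rfl)
  have ht := (hX t).2 (Or.inr rfl)
  have e1 := h.eqX hst hs ht s
  have e2 := h.eqX hst hs ht t
  rw [h.dZ', z1, mul_zero, mul_zero, add_zero] at e1
  rw [h.dZ', z2, mul_zero, mul_zero, add_zero] at e2
  have e3 := h.eqZ hst ((hZ s).2 (Or.inl rfl)) ((hZ t).2 (Or.inr rfl)) q
  have e4 : bg X p q = bg Z p q := by
    by_cases h1 : q = s
    · rw [h1]; linarith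
    · by_cases h2 : q = t
      · rw [h2]; linarith
      · have h3 : ¬ (q = s ∨ q = t) := by tauto
        have h4 : bg X p q = 0 := by
          by_contra h0
          exact h3 ((hX q).1 h0)
        have h5 : bg Z p q = 0 := by
          by_contra h0
          exact h3 ((hZ q).1 h0)
        rw [h4, h5]
  have e5 : bg X p s = bg Z p s := by linarith
  have e6 : bg X p t = bg Z p t := by linarith
  rw [e5, e6, ← e3, e4, sub_self]

theorem All2.C_back {r s t : κ × Γ} (hst : s ≠ t) (hX : ∀ q, bg X r q ≠ 0 ↔ q = s ∨ q = t)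
    (hZ : ∀ q, bg Z r q ≠ 0 ↔ q = s ∨ q = t) {p : κ × Γ} (hp : bg X p s ≠ 0) :
    (∀ q, bg X p q ≠ 0 ↔ q = s ∨ q = t) ∧ (∀ q, bg Z p q ≠ 0 ↔ q = s ∨ q = t) := by
  obtain ⟨x, y, hxy, hXs, hXt, hZs, hZt⟩ := h.PC.layer hst hX hZ
  obtain ⟨t', hst', hXp⟩ := two_with (h.PC.rx p) hp
  by_cases hZp : bg Z p s ≠ 0
  · have h1 := h.PC.noB' hp hZp
    have hZp' : ∀ q, bg Z p q ≠ 0 ↔ q = s ∨ q = t' := fun q => by
      rw [← hXp]; exact (h1 q).symm
    obtain ⟨x', y', hxy', hXs', hXt', hZs', hZt'⟩ := h.PC.layer hst' hXp hZp'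
    have h2 := (hXs' x).1 ((hXs x).2 (Or.inl rfl))
    have h3 : bg Z t' x ≠ 0 := (hZt' x).2 h2
    have h4 := two_eq (h.PC.cz x) ((hZs x).2 (Or.inl rfl)) ((hZt x).2 (Or.inl rfl)) hst
    rcases (h4 t').1 h3 with h5 | h5
    · exact absurd h5.symm hst'
    · subst h5
      exact ⟨hXp, hZp'⟩
  · exfalso
    have hZt' : ¬ bg Z p t' ≠ 0 := by
      intro h0
      have h1 := h.PC.noB' ((hXp t').2 (Or.inr rfl)) h0
      exact hZp ((h1 s).1 hp)
    obtain ⟨x', y', hP⟩ := h.PC.pent hst' hXp hZp hZt'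
    have h1 := (hP.Xs y').2 (Or.inl rfl)
    have h2 : bg Z s y' ≠ 0 := (hZs y').2 ((hXs y').1 h1)
    rcases (hP.Zs y').1 h2 with h3 | h3
    · exact hP.ty h3.symm
    · exact hP.xy h3.symm

/-- the relation between the columns of a layer -/
theorem All2.C_col {r s t : κ × Γ} (hst : s ≠ t) (hX : ∀ q, bg X r q ≠ 0 ↔ q = s ∨ q = t)
    (hZ : ∀ q, bg Z r q ≠ 0 ↔ q = s ∨ q = t) :
    ∃ e : ℤ, e * e = 1 ∧ (∀ q, bg X t q = -(e * bg X s q)) ∧ (∀ p, bg X p t = e * bg X p s) := by
  have hs := h.sqX ((hX s).2 (Or.inl rfl))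
  have ht := h.sqX ((hX t).2 (Or.inr rfl))
  set ε := bg X r s with hε
  set δ := bg X r t with hδ
  have hee : (ε * δ) * (ε * δ) = 1 := by
    have : (ε * δ) * (ε * δ) = ε ^ 2 * δ ^ 2 := by ring
    rw [this, hs, ht]; norm_num
  have R1 : ∀ q, bg X t q = -(ε * δ * bg X s q) := by
    intro q
    have h1 := h.C_eq hst hX hZ q
    rw [← hε, ← hδ] at h1
    have h2 : δ * (ε * bg X s q + δ * bg X t q) = 0 := by rw [h1, mul_zero]
    have h3 : δ * (ε * bg X s q + δ * bg X t q) = ε * δ * bg X s q + δ ^ 2 * bg X t q := by ring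
    rw [h3, ht] at h2
    linarith
  refine ⟨ε * δ, hee, R1, ?_⟩
  obtain ⟨x, y, hxy, hXs, hXt, hZs, hZt⟩ := h.PC.layer hst hX hZ
  have hsx : bg X s x ≠ 0 := (hXs x).2 (Or.inl rfl)
  have key : ∀ p, (∀ q, bg X p q ≠ 0 ↔ q = s ∨ q = t) → (∀ q, bg Z p q ≠ 0 ↔ q = s ∨ q = t) →
      bg X p t = ε * δ * bg X p s := by
    intro p h1 h2
    have h3 := h.C_eq hst h1 h2 x
    rw [R1 x] at h3
    have h4 : (bg X p s - ε * δ * bg X p t) * bg X s x = 0 := by linarith
    rcases mul_eq_zero.1 h4 with h5 | h5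
    · have h6 : ε * δ * bg X p s = ε * δ * (ε * δ) * bg X p t := by
        have : bg X p s = ε * δ * bg X p t := by linarith
        rw [this]; ring
      rw [h6, hee, one_mul]
    · exact absurd h5 hsx
  intro p
  by_cases h1 : bg X p s = 0
  · by_cases h2 : bg X p t = 0
    · rw [h1, h2, mul_zero]
    · have hX' : ∀ q, bg X r q ≠ 0 ↔ q = t ∨ q = s := fun q => by rw [hX]; tauto
      have hZ' : ∀ q, bg Z r q ≠ 0 ↔ q = t ∨ q = s := fun q => by rw [hZ]; tauto
      have h3 := h.C_back hst.symm hX' hZ' h2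
      exact absurd h1 ((h3.1 s).2 (Or.inr rfl))
  · have h3 := h.C_back hst hX hZ h1
    exact key p h3.1 h3.2

end all2

theorem eq_zero_of_neg {z : MonoidAlgebra ℤ Γ} (h : z = -z) : z = 0 := by
  ext g
  have h1 := congrArg (fun w : MonoidAlgebra ℤ Γ => w.coeff g) h
  rw [MonoidAlgebra.coeff_neg, Finsupp.neg_apply] at h1
  have h2 : z.coeff g = 0 := by omega
  rw [h2]; rfl

/-- **The layered case.** -/
theorem All2.layer_step {X Z : Matrix κ κ (MonoidAlgebra ℤ Γ)} (h : All2 X Z) {r s : κ × Γ}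
    (hs : bg X r s ≠ 0) (hs' : bg Z r s ≠ 0)
    {U : Subgroup (MonoidAlgebra ℤ Γ)ˣ} {n : ℕ} (ih : IH U n)
    (hcard : Fintype.card κ ≤ n + 1) (hG : Good U (1 + X) (1 - Z)) : Tm U (1 + X) := by
  obtain ⟨t, hst, hX⟩ := two_with (h.PC.rx r) hs
  have hXZ := h.PC.noB' hs hs'
  have hZ : ∀ q, bg Z r q ≠ 0 ↔ q = s ∨ q = t := fun q => by rw [← hX]; exact (hXZ q).symm
  obtain ⟨e, hee, R1, R2⟩ := h.C_col hst hX hZ
  obtain ⟨i, g⟩ := s
  obtain ⟨j, g'⟩ := t
  set a : MonoidAlgebra ℤ Γ := MonoidAlgebra.single (g'⁻¹ * g) e with ha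
  have R1' : ∀ y, X j y = -(a * X i y) := by
    intro y
    ext m
    have h1 := R1 (y, g' * m)
    unfold bg at h1
    dsimp only at h1
    rw [inv_mul_cancel_left] at h1
    rw [MonoidAlgebra.coeff_neg, Finsupp.neg_apply, ha, coeff_smul_left, h1]
    have : (g'⁻¹ * g)⁻¹ * m = g⁻¹ * (g' * m) := by group
    rw [this]
  have R2' : ∀ y, X y i = X y j * a := by
    intro y
    ext m
    have h1 := R2 (y, g * m⁻¹)
    unfold bg at h1
    dsimp only at h1
    have e1 : (g * m⁻¹)⁻¹ * g = m := by group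
    have e2 : (g * m⁻¹)⁻¹ * g' = m * (g'⁻¹ * g)⁻¹ := by group
    rw [e1, e2] at h1
    rw [ha, coeff_smul_right, h1, mul_comm, ← mul_assoc, hee, one_mul]
  by_cases hij : j = i
  · subst hij
    have hprod : ∀ x y, X x j * X j y = 0 := by
      intro x y
      apply eq_zero_of_neg
      calc X x j * X j y = X x j * a * X j y := by rw [← R2' x]
        _ = X x j * (a * X j y) := mul_assoc _ _ _
        _ = X x j * (-(X j y)) := by rw [R1' y, neg_neg, ← R1' y]
        _ = -(X x j * X j y) := by rw [mul_neg]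
    have hjj : X j j = 0 := by
      by_contra h0
      obtain ⟨m, hm⟩ : ∃ m, (X j j).coeff m ≠ 0 := by
        by_contra hcon
        push Not at hcon
        apply h0
        ext g
        rw [hcon g]; rfl
      -- the vertex `q`
      have q0 : bg X (j, g) (j, g * m) ≠ 0 := by
        unfold bg
        dsimp only
        rw [inv_mul_cancel_left]; exact hm
      set ω := bg X (j, g) (j, g * m) with hω
      have v1 : bg X (j, g) (j, g * g'⁻¹ * (g * m)) = -(e * ω) := by
        rw [hω, ← R1 (j, g * m)]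
        unfold bg
        dsimp only
        congr 1
        group
      have v2 : bg X (j, g) (j, g * m * g⁻¹ * g') = e * ω := by
        have h1 := R2 (j, g * m⁻¹)
        have h2 : bg X (j, g * m⁻¹) (j, g) = ω := by
          rw [hω]
          unfold bg
          dsimp only
          congr 1
          group
        have h3 : bg X (j, g * m⁻¹) (j, g') = bg X (j, g) (j, g * m * g⁻¹ * g') := by
          unfold bg
          dsimp only
          congr 1
          group
        rw [h2, h3] at h1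
        exact h1
      have he0 : e ≠ 0 := by rintro rfl; norm_num at hee
      have n1 : bg X (j, g) (j, g * g'⁻¹ * (g * m)) ≠ 0 := by
        rw [v1, neg_ne_zero]; exact mul_ne_zero he0 q0
      have n2 : bg X (j, g) (j, g * m * g⁻¹ * g') ≠ 0 := by
        rw [v2]; exact mul_ne_zero he0 q0
      have hgg : g ≠ g' := fun h1 => hst (by rw [h1])
      have d1 : ((j, g * m) : κ × Γ) ≠ (j, g * g'⁻¹ * (g * m)) := by
        intro h1
        rw [Prod.mk.injEq] at h1
        apply hgg
        have h2 : 1 = g * g'⁻¹ := by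
          have := mul_right_cancel ((one_mul _).trans h1.2)
          exact this
        calc g = g * g'⁻¹ * g' := by group
          _ = g' := by rw [← h2, one_mul]
      obtain h2 := two_eq (h.PC.rx (j, g)) q0 n1 d1
      rcases (h2 _).1 n2 with h3 | h3
      · rw [Prod.mk.injEq] at h3
        apply hgg
        have h4 : g * m * (g⁻¹ * g') = g * m * 1 := by rw [mul_one, ← mul_assoc]; exact h3.2
        have h5 := mul_left_cancel h4
        calc g = g * 1 := (mul_one g).symm
          _ = g * (g⁻¹ * g') := by rw [h5]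
          _ = g' := by group
      · rw [h3, v1] at v2
        have : e * ω = 0 := by linarith
        rcases mul_eq_zero.1 this with h4 | h4
        · exact he0 h4
        · exact q0 h4
    refine step_rs ih hcard h.S6 hG j ?_ ?_
    · rw [Matrix.add_apply, Matrix.one_apply_eq, hjj, add_zero]
    · intro x y hx hy
      rw [Matrix.add_apply, Matrix.add_apply, Matrix.one_apply_ne hx,
        Matrix.one_apply_ne (Ne.symm hy), zero_add, zero_add]
      exact hprod x y
  · -- conjugation
    have hIP := cj_IP i j hij a h.S6.toIP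
    apply cj_Tm i j hij a
    set A' := cj i j a (1 + X) with hA'
    set B' := cj i j a (1 - Z) with hB'
    have H1 : ∀ x y, x ≠ j → y ≠ i → A' x y = (1 + X) x y := by
      intro x y hx hy
      rw [hA', cj_entry, if_neg hx, if_neg hy]; abel
    have H4 : ∀ x y, x ≠ j → y ≠ i → B' x y = (1 - Z) x y := by
      intro x y hx hy
      rw [hB', cj_entry, if_neg hx, if_neg hy]; abel
    have H2 : ∀ y, y ≠ i → A' j y = (1 : Matrix κ κ (MonoidAlgebra ℤ Γ)) j y := by
      intro y hy
      rw [hA', cj_entry, if_pos rfl, if_neg hy, Matrix.add_apply, Matrix.add_apply,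
        Matrix.one_apply_ne (Ne.symm hy), zero_add, R1' y]
      abel
    have H3 : ∀ x, x ≠ j → A' x i = (1 : Matrix κ κ (MonoidAlgebra ℤ Γ)) x i := by
      intro x hx
      rw [hA', cj_entry, if_neg hx, if_pos rfl, if_neg hx, add_zero, add_zero, Matrix.add_apply,
        Matrix.add_apply, Matrix.one_apply_ne hx, zero_add, R2' x]
      abel
    have H5 : A' j i = 0 := by
      rw [hA', cj_entry, if_pos rfl, if_pos rfl, if_pos rfl, Matrix.add_apply, Matrix.add_apply,
        Matrix.add_apply, Matrix.add_apply, Matrix.one_apply_ne hij, Matrix.one_apply_eq,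
        Matrix.one_apply_eq, Matrix.one_apply_ne (Ne.symm hij), R1' i, R1' j, R2' i]
      noncomm_ring
    have hii : A' i i = 1 := by rw [H3 i (Ne.symm hij), Matrix.one_apply_eq]
    have hcol : ∀ x, x ≠ i → A' x i = 0 := by
      intro x hx
      by_cases hxj : x = j
      · rw [hxj]; exact H5
      · rw [H3 x hxj, Matrix.one_apply_ne hx]
    have h0 : ∀ x y, x ≠ i → y ≠ i → A' x i * A' i y = 0 := by
      intro x y hx _
      rw [hcol x hx, zero_mul]
    have hpv : rsB A' i = pvA A' i := by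
      ext1 x y
      unfold rsB pvA
      rw [h0 x y x.2 y.2, sub_zero]
    have hIP1 : IP (rsB A' i) (rsB B' i) := by
      rw [hpv]; exact hIP.pv i hii
    set j' : {x : κ // x ≠ i} := ⟨j, hij⟩ with hj'
    have hjj : rsB A' i j' j' = 1 := by
      change A' j j = 1
      rw [H2 j hij, Matrix.one_apply_eq]
    have h0' : ∀ x y, x ≠ j' → y ≠ j' → rsB A' i x j' * rsB A' i j' y = 0 := by
      intro x y _ hy
      have : rsB A' i j' y = 0 := by
        change A' j y = 0
        rw [H2 y y.2, Matrix.one_apply_ne (fun h => hy (Subtype.ext h.symm))]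
      rw [this, mul_zero]
    have hpv' : rsB (rsB A' i) j' = pvA (rsB A' i) j' := by
      ext1 x y
      unfold pvA
      rw [h0' x y x.2 y.2, sub_zero]
      rfl
    have hIP2 : IP (rsB (rsB A' i) j') (rsB (rsB B' i) j') := by
      rw [hpv']; exact hIP1.pv j' hjj
    refine Tm_rs hIP i hii h0 (Tm_rs hIP1 j' hjj h0' ?_)
    have ne1 : ∀ x : {x : {x : κ // x ≠ i} // x ≠ j'}, (x : κ) ≠ j := fun x h1 =>
      x.2 (Subtype.ext h1)
    have c1 : Fintype.card {x : {x : κ // x ≠ i} // x ≠ j'} ≤ n := by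
      have := card_ne_le hcard i
      exact card_ne_le (by omega) j'
    have eA : ∀ x y, rsB (rsB A' i) j' x y = (1 + X) x y := fun x y => H1 _ _ (ne1 x) y.1.2
    have eB : ∀ x y, rsB (rsB B' i) j' x y = (1 - Z) x y := fun x y => H4 _ _ (ne1 x) y.1.2
    refine ih _ c1 _ _ ⟨hIP2, fun x => ?_⟩ ?_
    · have r1 := h.S6.rows x
      have r2 := N_res_le j' (fun y : {x : κ // x ≠ i} => (1 + X) x y)
      have r3 := N_res_le i (fun y => (1 + X) x y)
      have r4 := N_res_le j' (fun y : {x : κ // x ≠ i} => (1 - Z) y x)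
      have r5 := N_res_le i (fun y => (1 - Z) y x)
      simp only [eA, eB]
      omega
    · rintro τ ⟨p1, p5, x, y, c, ε, hε, hA, hB⟩
      rw [eA] at hA
      rw [eB] at hB
      exact hG τ ⟨p1, p5, x, y, c, ε, hε, hA, hB⟩

end Pool.Agent.H76R
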