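import Pool.Agent.H76R.K

set_option autoImplicit false
set_option linter.unusedSectionVars false

/-! Monomial normalisation and pivoting for pairs of inverse matrices. -/

namespace Pool.Agent.H76R

open Matrix TH57.Thr TH6.LF Pool.Agent.Y75.Th

variable {Γ : Type} [Group Γ] {κ : Type} [Fintype κ] [DecidableEq κ]

/-- monomial change of the columns -/
noncomputable def mA (σ : κ ≃ κ) (a : κ → Γ) (ε : κ → ℤ) (A : Matrix κ κ (MonoidAlgebra ℤ Γ)) :
    Matrix κ κ (MonoidAlgebra ℤ Γ) :=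
  fun i j => A i (σ j) * MonoidAlgebra.single (a j)⁻¹ (ε j)

/-- the corresponding change of the rows of the inverse -/
noncomputable def mB (σ : κ ≃ κ) (a : κ → Γ) (ε : κ → ℤ) (B : Matrix κ κ (MonoidAlgebra ℤ Γ)) :
    Matrix κ κ (MonoidAlgebra ℤ Γ) :=
  fun i j => MonoidAlgebra.single (a i) (ε i) * B (σ i) j

section mon

variable (σ : κ ≃ κ) (a : κ → Γ) (ε : κ → ℤ) (he : ∀ i, ε i * ε i = 1)
  {A B : Matrix κ κ (MonoidAlgebra ℤ Γ)}

include he

theorem sgl_cancel (i : κ) : (MonoidAlgebra.single (a i)⁻¹ (ε i) : MonoidAlgebra ℤ Γ) *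
    MonoidAlgebra.single (a i) (ε i) = 1 := by
  rw [MonoidAlgebra.single_mul_single, inv_mul_cancel, he, MonoidAlgebra.one_def]

theorem sgl_cancel' (i : κ) : (MonoidAlgebra.single (a i) (ε i) : MonoidAlgebra ℤ Γ) *
    MonoidAlgebra.single (a i)⁻¹ (ε i) = 1 := by
  rw [MonoidAlgebra.single_mul_single, mul_inv_cancel, he, MonoidAlgebra.one_def]

theorem mon_IP (h : IP A B) : IP (mA σ a ε A) (mB σ a ε B) where
  ab := by
    ext1 i k
    rw [Matrix.mul_apply]
    have h1 : ∀ j, mA σ a ε A i j * mB σ a ε B j k = A i (σ j) * B (σ j) k := by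
      intro j
      unfold mA mB
      rw [mul_assoc, ← mul_assoc (MonoidAlgebra.single (a j)⁻¹ (ε j)), sgl_cancel a ε he, one_mul]
    rw [Finset.sum_congr rfl fun j _ => h1 j, Equiv.sum_comp σ fun j => A i j * B j k,
      ← Matrix.mul_apply, h.ab]
  ba := by
    ext1 i k
    rw [Matrix.mul_apply]
    have h1 : ∀ j, mB σ a ε B i j * mA σ a ε A j k
        = MonoidAlgebra.single (a i) (ε i) * (B (σ i) j * A j (σ k)) *
          MonoidAlgebra.single (a k)⁻¹ (ε k) := by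
      intro j
      unfold mA mB
      simp only [mul_assoc]
    rw [Finset.sum_congr rfl fun j _ => h1 j, ← Finset.sum_mul, ← Finset.mul_sum,
      ← Matrix.mul_apply, h.ba]
    by_cases hik : i = k
    · subst hik
      rw [Matrix.one_apply_eq, Matrix.one_apply_eq, mul_one, sgl_cancel' a ε he]
    · rw [Matrix.one_apply_ne hik, Matrix.one_apply_ne (fun h => hik (σ.injective h)), mul_zero,
        zero_mul]

theorem he2 (i : κ) : ε i ^ 2 = 1 := by rw [sq]; exact he i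

theorem mon_S6 (h : S6 A B) : S6 (mA σ a ε A) (mB σ a ε B) where
  toIP := mon_IP σ a ε he h.toIP
  rows i := by
    have h1 : N (fun j => mA σ a ε A i j) = N (fun j => A i j) := by
      unfold N
      rw [← Equiv.sum_comp σ fun j => nsq (A i j)]
      exact Finset.sum_congr rfl fun j _ => nsq_mul_single _ _ (he2 ε he j) _
    have h2 : N (fun j => mB σ a ε B j i) = N (fun j => B j i) := by
      unfold N
      rw [← Equiv.sum_comp σ fun j => nsq (B j i)]
      exact Finset.sum_congr rfl fun j _ => nsq_single_mul _ _ (he2 ε he j) _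
    rw [h1, h2]
    exact h.rows i

theorem mon_Pent (t : Γ) (h : Pent (mA σ a ε A) (mB σ a ε B) t) : Pent A B t := by
  obtain ⟨h1, h5, i, j, g, η, hη, hA, hB⟩ := h
  refine ⟨h1, h5, i, σ j, g * a j, η * ε j, ?_, ?_, ?_⟩
  · rw [mul_pow, hη, he2 ε he, one_mul]
  · have h2 : A i (σ j) = mA σ a ε A i j * MonoidAlgebra.single (a j) (ε j) := by
      unfold mA
      rw [mul_assoc, sgl_cancel a ε he, mul_one]
    rw [h2, hA, mul_assoc, MonoidAlgebra.single_mul_single]
  · have h2 : B (σ j) i = MonoidAlgebra.single (a j)⁻¹ (ε j) * mB σ a ε B j i := by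
      unfold mB
      rw [← mul_assoc, sgl_cancel a ε he, one_mul]
    rw [h2, hB, ← mul_assoc, MonoidAlgebra.single_mul_single, _root_.mul_inv_rev, mul_comm (ε j)]

theorem mon_Good {U : Subgroup (MonoidAlgebra ℤ Γ)ˣ} (h : Good U A B) :
    Good U (mA σ a ε A) (mB σ a ε B) := fun t ht => h t (mon_Pent σ a ε he t ht)

theorem mon_Tm {U : Subgroup (MonoidAlgebra ℤ Γ)ˣ} (hU : UC U) (h : Tm U (mA σ a ε A)) :
    Tm U A := by
  intro w hw
  set P : (Matrix κ κ (MonoidAlgebra ℤ Γ))ˣ := dgs a ε he * pu σ with hP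
  have hPT : TT U P := TT_mono hU.tu _ (TT_mul _ _ _ (TT_of_mem _ _ (dgs_mem _ _ _)) (TT_pu σ))
  have h1 : TT U (w * P⁻¹) := by
    apply h
    ext1 i j
    change ((w : Matrix κ κ (MonoidAlgebra ℤ Γ))
      * ((1 : Matrix κ κ (MonoidAlgebra ℤ Γ)).submatrix id σ
        * Matrix.diagonal fun i => MonoidAlgebra.single (a i)⁻¹ (ε i))) i j = _
    rw [← Matrix.mul_assoc, Matrix.mul_diagonal, hw]
    unfold mA
    congr 1
    rw [← Matrix.submatrix_id_id A,
      ← Matrix.submatrix_mul _ _ id id σ Function.bijective_id, Matrix.mul_one,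
      Matrix.submatrix_apply]
    rfl
  have h2 : w = (w * P⁻¹) * P := by group
  rw [h2]
  exact TT_mul _ _ _ h1 hPT

end mon

/-! ### Pivoting -/

/-- the pivoted matrix -/
noncomputable def pvA (A : Matrix κ κ (MonoidAlgebra ℤ Γ)) (i : κ) :
    Matrix {x : κ // x ≠ i} {x : κ // x ≠ i} (MonoidAlgebra ℤ Γ) :=
  fun a b => A a b - A a i * A i b

/-- the restricted matrix -/
def rsB (B : Matrix κ κ (MonoidAlgebra ℤ Γ)) (i : κ) :
    Matrix {x : κ // x ≠ i} {x : κ // x ≠ i} (MonoidAlgebra ℤ Γ) :=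
  fun a b => B a b

theorem pvA_eq (A : Matrix κ κ (MonoidAlgebra ℤ Γ)) (i : κ) :
    pvA A i = 1 + pivX (A - 1) i := by
  ext1 a b
  have h1 : ((A - 1) (a : κ) i) = A a i := by
    rw [Matrix.sub_apply, Matrix.one_apply_ne a.2, sub_zero]
  have h2 : ((A - 1) i (b : κ)) = A i b := by
    rw [Matrix.sub_apply, Matrix.one_apply_ne (Ne.symm b.2), sub_zero]
  rw [Matrix.add_apply]
  unfold pvA pivX
  rw [h1, h2, Matrix.sub_apply]
  by_cases hab : a = b
  · subst hab
    rw [Matrix.one_apply_eq, Matrix.one_apply_eq]; abel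
  · rw [Matrix.one_apply_ne hab, Matrix.one_apply_ne (fun h => hab (Subtype.ext h))]; abel

theorem rsB_eq (B : Matrix κ κ (MonoidAlgebra ℤ Γ)) (i : κ) :
    rsB B i = 1 - resZ (1 - B) i := by
  ext1 a b
  rw [Matrix.sub_apply]
  unfold rsB resZ
  rw [Matrix.sub_apply]
  by_cases hab : a = b
  · subst hab
    rw [Matrix.one_apply_eq, Matrix.one_apply_eq]; abel
  · rw [Matrix.one_apply_ne hab, Matrix.one_apply_ne (fun h => hab (Subtype.ext h))]; abel

theorem IP.z1 {A B : Matrix κ κ (MonoidAlgebra ℤ Γ)} (h : IP A B) :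
    (A - 1) - (1 - B) = (A - 1) * (1 - B) := by
  rw [sub_mul, mul_sub, mul_sub, h.ab]
  simp only [mul_one, one_mul]
  try abel

theorem IP.z2 {A B : Matrix κ κ (MonoidAlgebra ℤ Γ)} (h : IP A B) :
    (A - 1) - (1 - B) = (1 - B) * (A - 1) := by
  rw [sub_mul, mul_sub, mul_sub, h.ba]
  simp only [mul_one, one_mul]
  try abel

theorem IP_of_z {X Z : Matrix κ κ (MonoidAlgebra ℤ Γ)} (z1 : X - Z = X * Z) (z2 : X - Z = Z * X) :
    IP (1 + X) (1 - Z) where
  ab := by
    rw [add_mul, one_mul, mul_sub, mul_one, ← z1]; abel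
  ba := by
    rw [sub_mul, one_mul, mul_add, mul_one, ← z2]; abel

theorem IP.pv {A B : Matrix κ κ (MonoidAlgebra ℤ Γ)} (h : IP A B) (i : κ) (hi : A i i = 1) :
    IP (pvA A i) (rsB B i) := by
  rw [pvA_eq, rsB_eq]
  have h0 : (A - 1) i i = 0 := by rw [Matrix.sub_apply, Matrix.one_apply_eq, hi, sub_self]
  exact IP_of_z (piv_z1 _ _ i h.z1 h0) (piv_z2 _ _ i h.z2 h0)

theorem Tm_pv {U : Subgroup (MonoidAlgebra ℤ Γ)ˣ} {A B : Matrix κ κ (MonoidAlgebra ℤ Γ)}
    (h : IP A B) (i : κ) (hi : A i i = 1) (h1 : Tm U (pvA A i)) : Tm U A := by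
  have h0 : (A - 1) i i = 0 := by rw [Matrix.sub_apply, Matrix.one_apply_eq, hi, sub_self]
  have h2 : A = 1 + (A - 1) := by abel
  rw [h2]
  rw [pvA_eq] at h1
  exact piv_Tm U _ _ i h.z1 h.z2 h0 h1

/-! ### Plain restriction -/

theorem N_rs_le (i : κ) (f : κ → MonoidAlgebra ℤ Γ) :
    N (fun x : {x : κ // x ≠ i} => f x) ≤ N f := N_res_le i f

/-- the situation in which pivoting is plain restriction -/
theorem S6.rs {A B : Matrix κ κ (MonoidAlgebra ℤ Γ)} (h : S6 A B) (i : κ) (hi : A i i = 1)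
    (h0 : ∀ a b, a ≠ i → b ≠ i → A a i * A i b = 0) : S6 (rsB A i) (rsB B i) := by
  have h1 : rsB A i = pvA A i := by
    ext1 a b
    unfold rsB pvA
    rw [h0 a b a.2 b.2, sub_zero]
  have h2 := h.toIP.pv i hi
  rw [← h1] at h2
  exact {
    toIP := h2
    rows := fun a => by
      have r1 := h.rows a
      have r2 := N_res_le i (fun j => A a j)
      have r3 := N_res_le i (fun j => B j a)
      change N (fun x : {x : κ // x ≠ i} => A a x) + N (fun x : {x : κ // x ≠ i} => B x a) ≤ 6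
      omega }

theorem Pent_rs {A B : Matrix κ κ (MonoidAlgebra ℤ Γ)} (i : κ) (t : Γ)
    (h : Pent (rsB A i) (rsB B i) t) : Pent A B t := by
  obtain ⟨h1, h5, a, b, g, η, hη, hA, hB⟩ := h
  exact ⟨h1, h5, a, b, g, η, hη, hA, hB⟩

theorem Good_rs {U : Subgroup (MonoidAlgebra ℤ Γ)ˣ} {A B : Matrix κ κ (MonoidAlgebra ℤ Γ)}
    (h : Good U A B) (i : κ) : Good U (rsB A i) (rsB B i) := fun t ht => h t (Pent_rs i t ht)

theorem Tm_rs {U : Subgroup (MonoidAlgebra ℤ Γ)ˣ} {A B : Matrix κ κ (MonoidAlgebra ℤ Γ)}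
    (h : IP A B) (i : κ) (hi : A i i = 1)
    (h0 : ∀ a b, a ≠ i → b ≠ i → A a i * A i b = 0) (h1 : Tm U (rsB A i)) : Tm U A := by
  apply Tm_pv h i hi
  have h2 : rsB A i = pvA A i := by
    ext1 a b
    unfold rsB pvA
    rw [h0 a b a.2 b.2, sub_zero]
  rw [← h2]
  exact h1

/-- the inductive statement -/
def IH (U : Subgroup (MonoidAlgebra ℤ Γ)ˣ) (n : ℕ) : Prop :=
  ∀ (μ : Type) [Fintype μ] [DecidableEq μ], Fintype.card μ ≤ n →
    ∀ A B : Matrix μ μ (MonoidAlgebra ℤ Γ), S6 A B → Good U A B → Tm U A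

theorem card_ne_le {n : ℕ} (hc : Fintype.card κ ≤ n + 1) (i : κ) :
    Fintype.card {x : κ // x ≠ i} ≤ n := by
  have h1 : Fintype.card {x : κ // x ≠ i} < Fintype.card κ :=
    Fintype.card_subtype_lt (p := fun x => x ≠ i) (x := i) (by simp)
  omega

/-- restriction step -/
theorem step_rs {U : Subgroup (MonoidAlgebra ℤ Γ)ˣ} {n : ℕ} (ih : IH U n)
    (hc : Fintype.card κ ≤ n + 1) {A B : Matrix κ κ (MonoidAlgebra ℤ Γ)} (h : S6 A B)
    (hG : Good U A B) (i : κ) (hi : A i i = 1)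
    (h0 : ∀ a b, a ≠ i → b ≠ i → A a i * A i b = 0) : Tm U A :=
  Tm_rs h.toIP i hi h0 (ih _ (card_ne_le hc i) _ _ (h.rs i hi h0) (Good_rs hG i))

/-- a row of norm one -/
theorem step_row {U : Subgroup (MonoidAlgebra ℤ Γ)ˣ} (hU : UC U) {n : ℕ} (ih : IH U n)
    (hc : Fintype.card κ ≤ n + 1) {A B : Matrix κ κ (MonoidAlgebra ℤ Γ)} (h : S6 A B)
    (hG : Good U A B) (i : κ) (hi : N (fun j => A i j) = 1) : Tm U A := by
  obtain ⟨k, c, e, he, hk, ho⟩ := N_one hi
  have hee : ∀ _ : κ, e * e = 1 := fun _ => by rw [← sq]; exact he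
  refine mon_Tm (Equiv.swap i k) (fun _ => c) (fun _ => e) hee hU ?_
  refine step_rs ih hc (mon_S6 _ _ _ hee h) (mon_Good _ _ _ hee hG) i ?_ ?_
  · unfold mA
    rw [Equiv.swap_apply_left, hk, MonoidAlgebra.single_mul_single, mul_inv_cancel, hee i,
      MonoidAlgebra.one_def]
  · intro a b ha hb
    unfold mA
    rw [ho (Equiv.swap i k b), zero_mul, mul_zero]
    intro hbk
    apply hb
    apply (Equiv.swap i k).injective
    rw [hbk, Equiv.swap_apply_left]

end Pool.Agent.H76R
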