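import Pool.Agent.H76R.T

set_option autoImplicit false
set_option linter.unusedSectionVars false

/-! The normal form. -/

namespace Pool.Agent.H76R

open Matrix TH57.Thr TH6.LF Pool.Agent.Y75.Th

variable {Γ : Type} [Group Γ] {κ : Type} [Fintype κ] [DecidableEq κ]

/-- the normal form -/
structure NF4 (X Z : Matrix κ κ (MonoidAlgebra ℤ Γ)) : Prop extends NE X Z where
  bX : ∀ i j g, (X i j).coeff g ^ 2 ≤ 1
  bZ : ∀ i j g, (Z i j).coeff g ^ 2 ≤ 1
  dj : ∀ i j g, (X i j).coeff g * (Z j i).coeff g⁻¹ = 0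
  rows : ∀ i, N (fun j => X i j) + N (fun j => Z j i) ≤ 4

theorem nsq_one_add (x : MonoidAlgebra ℤ Γ) (h : x.coeff 1 = 0) : nsq (1 + x) = 1 + nsq x := by
  have := nsq_one_sub (-x) (by rw [MonoidAlgebra.coeff_neg, Finsupp.neg_apply, h, neg_zero])
  rwa [sub_neg_eq_add, nsq_neg] at this

theorem N_one_add_row (X : Matrix κ κ (MonoidAlgebra ℤ Γ)) (i : κ) (h : (X i i).coeff 1 = 0) :
    N (fun j => (1 + X) i j) = 1 + N (fun j => X i j) := by
  rw [N_spl i (fun j => (1 + X) i j), N_spl i (fun j => X i j)]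
  have h1 : nsq ((1 + X) i i) = 1 + nsq (X i i) := by
    rw [Matrix.add_apply, Matrix.one_apply_eq, nsq_one_add _ h]
  have h2 : N (fun x : {x : κ // x ≠ i} => (1 + X) i x) = N (fun x : {x : κ // x ≠ i} => X i x) := by
    refine Finset.sum_congr rfl fun x _ => ?_
    have h3 : (1 + X) i x = X i x := by
      rw [Matrix.add_apply, Matrix.one_apply_ne (Ne.symm x.2), zero_add]
    exact congrArg nsq h3
  rw [h2, h1]; ring

theorem N_one_sub_row (X : Matrix κ κ (MonoidAlgebra ℤ Γ)) (i : κ) (h : (X i i).coeff 1 = 0) :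
    N (fun j => (1 - X) i j) = 1 + N (fun j => X i j) := by
  have h1 := N_one_add_row (-X) i (by
    rw [Matrix.neg_apply, MonoidAlgebra.coeff_neg, Finsupp.neg_apply, h, neg_zero])
  rw [← sub_eq_add_neg] at h1
  rw [h1]
  congr 1
  exact Finset.sum_congr rfl fun _ _ => nsq_neg _

theorem N_one_add_col (X : Matrix κ κ (MonoidAlgebra ℤ Γ)) (i : κ) (h : (X i i).coeff 1 = 0) :
    N (fun j => (1 + X) j i) = 1 + N (fun j => X j i) := by
  have h1 := N_one_add_row (adj X) i (by rw [adj_apply, coeff_bar, inv_one, h])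
  rw [N_adj_row] at h1
  rw [← h1, ← N_adj_row, adj_add, adj_one]

theorem N_one_sub_col (X : Matrix κ κ (MonoidAlgebra ℤ Γ)) (i : κ) (h : (X i i).coeff 1 = 0) :
    N (fun j => (1 - X) j i) = 1 + N (fun j => X j i) := by
  have h1 := N_one_sub_row (adj X) i (by rw [adj_apply, coeff_bar, inv_one, h])
  rw [N_adj_row] at h1
  rw [← h1, ← N_adj_row, adj_sub, adj_one]

theorem NF4.S6 {X Z : Matrix κ κ (MonoidAlgebra ℤ Γ)} (h : NF4 X Z) : S6 (1 + X) (1 - Z) where
  toIP := IP_of_z h.z1 h.z2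
  rows i := by
    rw [N_one_add_row _ _ (h.dX i), N_one_sub_col _ _ (h.dZ i)]
    have := h.rows i
    omega

theorem NF4.ad {X Z : Matrix κ κ (MonoidAlgebra ℤ Γ)} (h : NF4 X Z) :
    NF4 (-adj Z) (-adj X) where
  z1 := by
    rw [neg_mul_neg, ← adj_mul, neg_sub_neg, ← adj_sub, h.z1]
  z2 := by
    rw [neg_mul_neg, ← adj_mul, neg_sub_neg, ← adj_sub, h.z2]
  dX i := by
    rw [Matrix.neg_apply, MonoidAlgebra.coeff_neg, Finsupp.neg_apply, adj_apply, coeff_bar,
      inv_one, h.dZ i, neg_zero]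
  dZ i := by
    rw [Matrix.neg_apply, MonoidAlgebra.coeff_neg, Finsupp.neg_apply, adj_apply, coeff_bar,
      inv_one, h.dX i, neg_zero]
  bX i j g := by
    rw [Matrix.neg_apply, MonoidAlgebra.coeff_neg, Finsupp.neg_apply, neg_sq, adj_apply,
      coeff_bar]
    exact h.bZ _ _ _
  bZ i j g := by
    rw [Matrix.neg_apply, MonoidAlgebra.coeff_neg, Finsupp.neg_apply, neg_sq, adj_apply,
      coeff_bar]
    exact h.bX _ _ _
  dj i j g := by
    rw [Matrix.neg_apply, MonoidAlgebra.coeff_neg, Finsupp.neg_apply, Matrix.neg_apply,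
      MonoidAlgebra.coeff_neg, Finsupp.neg_apply, neg_mul_neg, adj_apply, adj_apply, coeff_bar,
      coeff_bar, inv_inv, mul_comm]
    exact h.dj i j g
  rows i := by
    have h1 := h.rows i
    have h2 : N (fun j => (-adj Z) i j) = N (fun j => Z j i) := by
      rw [← N_adj_row]
      exact Finset.sum_congr rfl fun _ _ => nsq_neg _
    have h3 : N (fun j => (-adj X) j i) = N (fun j => X i j) := by
      rw [← N_adj_col]
      exact Finset.sum_congr rfl fun _ _ => nsq_neg _
    rw [h2, h3]; omega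

/-- **Normalisation.** -/
theorem normalise {A B : Matrix κ κ (MonoidAlgebra ℤ Γ)} (h : S6 A B)
    (b1' : ∀ i j g, ((A i j).coeff g - (B j i).coeff g⁻¹) ^ 2 ≤ 1) :
    ∃ (σ : κ ≃ κ) (a : κ → Γ) (ε : κ → ℤ), (∀ i, ε i * ε i = 1) ∧
      NF4 (mA σ a ε A - 1) (1 - mB σ a ε B) := by
  classical
  set C : Matrix κ κ (MonoidAlgebra ℤ Γ) := adj B with hC
  have cC : ∀ i j g, (C i j).coeff g = (B j i).coeff g⁻¹ := by
    intro i j g; rw [hC, adj_apply, coeff_bar]
  have hAC : A * adj C = 1 := by rw [hC, adj_adj, h.ab]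
  have hCA : adj C * A = 1 := by rw [hC, adj_adj, h.ba]
  have b1 : ∀ i j g, ((A i j).coeff g - (C i j).coeff g) ^ 2 ≤ 1 := by
    intro i j g; rw [cC]; exact b1' i j g
  have b2 : ∀ i j g, 0 ≤ (A i j).coeff g * (C i j).coeff g := by
    intro i j g
    have h1 := b1 i j g
    nlinarith [sq_nonneg ((A i j).coeff g), sq_nonneg ((C i j).coeff g)]
  have hrow1 : ∀ i, ∃ j g, (A i j).coeff g * (C i j).coeff g = 1 ∧
      ∀ j' g', ¬ (j' = j ∧ g' = g) → (A i j').coeff g' * (C i j').coeff g' = 0 := by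
    intro i
    apply unique_pos (fun j => (A i j).coeff.support)
      (fun j g => (A i j).coeff g * (C i j).coeff g) (fun j g => b2 i j g)
    · intro j g hg
      rw [Finsupp.notMem_support_iff] at hg
      rw [hg, zero_mul]
    · have h1 : ((A * adj C) i i).coeff 1 = 1 := by
        rw [hAC, Matrix.one_apply_eq, MonoidAlgebra.one_def, MonoidAlgebra.coeff_single]; simp
      rw [Matrix.mul_apply, MonoidAlgebra.coeff_sum, Finsupp.finsetSum_apply] at h1
      rw [← h1]
      exact Finset.sum_congr rfl fun j _ =>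
        (coeff_mul_bar_one (A i j) (C i j) _ (Finset.Subset.refl _)).symm
  have hcol1 : ∀ j, ∃ i g, (A i j).coeff g * (C i j).coeff g = 1 ∧
      ∀ i' g', ¬ (i' = i ∧ g' = g) → (A i' j).coeff g' * (C i' j).coeff g' = 0 := by
    intro j
    apply unique_pos (fun i => (C i j).coeff.support)
      (fun i g => (A i j).coeff g * (C i j).coeff g) (fun i g => b2 i j g)
    · intro i g hg
      rw [Finsupp.notMem_support_iff] at hg
      rw [hg, mul_zero]
    · have h1 : ((adj C * A) j j).coeff 1 = 1 := by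
        rw [hCA, Matrix.one_apply_eq, MonoidAlgebra.one_def, MonoidAlgebra.coeff_single]; simp
      rw [Matrix.mul_apply, MonoidAlgebra.coeff_sum, Finsupp.finsetSum_apply] at h1
      rw [← h1]
      refine Finset.sum_congr rfl fun i _ => ?_
      rw [adj_apply, coeff_bar_mul_one (C i j) (A i j) _ (Finset.Subset.refl _)]
      exact Finset.sum_congr rfl fun g _ => mul_comm _ _
  choose τ hh hτ1 hτ2 using hrow1
  have hinj : Function.Injective τ := by
    intro i i' hii
    obtain ⟨i0, g0, h1, h2⟩ := hcol1 (τ i)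
    have h3 : i = i0 := by
      by_contra hne
      have := h2 i (hh i) (fun h => hne h.1)
      rw [hτ1 i] at this
      exact absurd this (by norm_num)
    have h4 : i' = i0 := by
      by_contra hne
      have := h2 i' (hh i') (fun h => hne h.1)
      rw [hii, hτ1 i'] at this
      exact absurd this (by norm_num)
    rw [h3, h4]
  obtain ⟨e, he⟩ : ∃ e : κ ≃ κ, ∀ i, e i = τ i :=
    ⟨Equiv.ofBijective τ (Finite.injective_iff_bijective.1 hinj), fun _ => rfl⟩
  obtain ⟨ε, hε⟩ : ∃ ε : κ → ℤ, ∀ i, ε i = (A i (τ i)).coeff (hh i) := ⟨_, fun _ => rfl⟩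
  have hcε : ∀ i, (C i (τ i)).coeff (hh i) = ε i := by
    intro i
    have h1 := hτ1 i
    rw [hε]
    rcases Int.mul_eq_one_iff_eq_one_or_neg_one.1 h1 with ⟨h2, h3⟩ | ⟨h2, h3⟩
    · rw [h2, h3]
    · rw [h2, h3]
  have hεε : ∀ i, ε i * ε i = 1 := by
    intro i
    have h1 := hτ1 i
    rw [hcε, ← hε] at h1
    exact h1
  have hε2 : ∀ i, ε i ^ 2 = 1 := fun i => by rw [sq]; exact hεε i
  refine ⟨e, hh, ε, hεε, ?_⟩
  have hS := mon_S6 e hh ε hεε h
  set X : Matrix κ κ (MonoidAlgebra ℤ Γ) := mA e hh ε A - 1 with hX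
  set Z : Matrix κ κ (MonoidAlgebra ℤ Γ) := 1 - mB e hh ε B with hZ
  -- coefficients
  have one_c : ∀ (i j : κ) (g : Γ), ((1 : Matrix κ κ (MonoidAlgebra ℤ Γ)) i j).coeff g
      = if i = j ∧ g = 1 then 1 else 0 := by
    intro i j g
    rw [Matrix.one_apply]
    by_cases hij : i = j
    · rw [if_pos hij, MonoidAlgebra.one_def, MonoidAlgebra.coeff_single, Finsupp.single_apply]
      by_cases hg : g = 1
      · rw [if_pos hg.symm, if_pos ⟨hij, hg⟩]
      · rw [if_neg (Ne.symm hg), if_neg (fun h => hg h.2)]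
    · rw [if_neg hij, if_neg (fun h => hij h.1)]; simp
  have cX : ∀ i j g, (X i j).coeff g
      = (A i (τ j)).coeff (g * hh j) * ε j - if i = j ∧ g = 1 then 1 else 0 := by
    intro i j g
    rw [hX, Matrix.sub_apply, coeff_sub', one_c]
    unfold mA
    rw [he, coeff_smul_right, inv_inv]
  have cZ : ∀ i j g, (Z j i).coeff g⁻¹
      = (if i = j ∧ g = 1 then 1 else 0) - (C i (τ j)).coeff (g * hh j) * ε j := by
    intro i j g
    rw [hZ, Matrix.sub_apply, coeff_sub', one_c, cC]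
    unfold mB
    rw [he, coeff_smul_left]
    have h1 : (hh j)⁻¹ * g⁻¹ = (g * hh j)⁻¹ := by group
    rw [h1, mul_comm (ε j)]
    congr 1
    by_cases h2 : i = j ∧ g = 1
    · rw [if_pos h2, if_pos ⟨h2.1.symm, by rw [h2.2]; simp⟩]
    · rw [if_neg h2, if_neg]
      rintro ⟨h3, h4⟩
      exact h2 ⟨h3.symm, by simpa using h4⟩
  have dX : ∀ i, (X i i).coeff 1 = 0 := by
    intro i
    rw [cX, one_mul, if_pos ⟨rfl, rfl⟩, ← hε, hεε]; norm_num
  have dZ : ∀ i, (Z i i).coeff 1 = 0 := by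
    intro i
    have := cZ i i 1
    rw [inv_one, one_mul, if_pos ⟨rfl, rfl⟩, hcε, hεε] at this
    rw [this]; norm_num
  have dj : ∀ i j g, (X i j).coeff g * (Z j i).coeff g⁻¹ = 0 := by
    intro i j g
    by_cases h : i = j ∧ g = 1
    · obtain ⟨rfl, rfl⟩ := h
      rw [dX, zero_mul]
    · rw [cX, cZ, if_neg h, sub_zero, zero_sub]
      have h1 := hτ2 i (τ j) (g * hh j) (by
        rintro ⟨h2, h3⟩
        have h4 := hinj h2
        apply h
        refine ⟨h4.symm, ?_⟩
        rw [h4] at h3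
        simpa using h3)
      have h2 : (A i (τ j)).coeff (g * hh j) * ε j * -((C i (τ j)).coeff (g * hh j) * ε j)
          = -(ε j * ε j) * ((A i (τ j)).coeff (g * hh j) * (C i (τ j)).coeff (g * hh j)) := by
        ring
      rw [h2, h1, mul_zero]
  have sq1 : ∀ i j g, (X i j).coeff g ^ 2 + (Z j i).coeff g⁻¹ ^ 2 ≤ 1 := by
    intro i j g
    have h1 := dj i j g
    have h2 := b1 i (τ j) (g * hh j)
    have h3 : (X i j).coeff g + (Z j i).coeff g⁻¹
        = ((A i (τ j)).coeff (g * hh j) - (C i (τ j)).coeff (g * hh j)) * ε j := by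
      rw [cX, cZ]; ring
    have h4 : ((X i j).coeff g + (Z j i).coeff g⁻¹) ^ 2 ≤ 1 := by
      rw [h3, mul_pow, hε2, mul_one]; exact h2
    nlinarith
  have hA1 : mA e hh ε A = 1 + X := by rw [hX]; abel
  have hB1 : mB e hh ε B = 1 - Z := by rw [hZ]; abel
  exact {
    z1 := by rw [hX, hZ]; exact hS.toIP.z1
    z2 := by rw [hX, hZ]; exact hS.toIP.z2
    dX := dX
    dZ := dZ
    bX := fun i j g => by
      have h1 := sq1 i j g
      have h2 := sq_nonneg ((Z j i).coeff g⁻¹)
      omega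
    bZ := fun i j g => by
      have h1 := sq1 j i g⁻¹
      rw [inv_inv] at h1
      have h2 := sq_nonneg ((X j i).coeff g⁻¹)
      omega
    dj := dj
    rows := fun i => by
      have h1 := hS.rows i
      rw [hA1, hB1, N_one_add_row _ _ (dX i), N_one_sub_col _ _ (dZ i)] at h1
      omega }

end Pool.Agent.H76R
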