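import Pool.Agent.H76R.Q
import Pool.Agent.H76R.C

set_option autoImplicit false
set_option linter.unusedSectionVars false

/-! The scalar matrices on `κ × Γ`. -/

namespace Pool.Agent.H76R

open Matrix TH57.Thr TH6.LF Pool.Agent.Y75.Th

variable {Γ : Type} [Group Γ] {κ : Type} [Fintype κ] [DecidableEq κ]

/-- the scalar matrix -/
def bg (M : Matrix κ κ (MonoidAlgebra ℤ Γ)) (p q : κ × Γ) : ℤ := (M p.1 q.1).coeff (p.2⁻¹ * q.2)

/-- translation -/
def sh (c : Γ) (p : κ × Γ) : κ × Γ := (p.1, c * p.2)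

theorem bg_sh (M : Matrix κ κ (MonoidAlgebra ℤ Γ)) (c : Γ) (p q : κ × Γ) :
    bg M (sh c p) (sh c q) = bg M p q := by
  unfold bg sh
  have : (c * p.2)⁻¹ * (c * q.2) = p.2⁻¹ * q.2 := by group
  dsimp only
  rw [this]

theorem sh_inj {c : Γ} {p q : κ × Γ} (h : sh c p = sh c q) : p = q := by
  unfold sh at h
  rw [Prod.mk.injEq] at h
  exact Prod.ext h.1 (mul_left_cancel h.2)

theorem sh_ne {c : Γ} (hc : c ≠ 1) (p : κ × Γ) : sh c p ≠ p := by
  intro h
  apply hc
  have h1 : c * p.2 = p.2 := congrArg Prod.snd h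
  simpa using h1

theorem bg_adj (M : Matrix κ κ (MonoidAlgebra ℤ Γ)) (p q : κ × Γ) : bg (adj M) p q = bg M q p := by
  unfold bg
  rw [adj_apply, coeff_bar]
  congr 1
  group

theorem bg_sub (M K : Matrix κ κ (MonoidAlgebra ℤ Γ)) (p q : κ × Γ) :
    bg (M - K) p q = bg M p q - bg K p q := by
  unfold bg
  rw [Matrix.sub_apply, coeff_sub']

/-- a row of norm two -/
theorem row_two (f : κ → MonoidAlgebra ℤ Γ) (hf : N f = 2) (hb : ∀ j g, (f j).coeff g ^ 2 ≤ 1) :
    ∃ (j1 : κ) (g1 : Γ) (j2 : κ) (g2 : Γ) (ε δ : ℤ), (j1, g1) ≠ (j2, g2) ∧ ε ^ 2 = 1 ∧ δ ^ 2 = 1 ∧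
      ∀ a, f a = (if a = j1 then MonoidAlgebra.single g1 ε else 0)
        + (if a = j2 then MonoidAlgebra.single g2 δ else 0) := by
  classical
  obtain ⟨j1, hj1⟩ : ∃ k, f k ≠ 0 := by
    by_contra hcon
    push Not at hcon
    have : N f = 0 := Finset.sum_eq_zero fun j _ => by rw [hcon j, nsq_zero]
    omega
  obtain ⟨g1, hg1⟩ : ∃ c, (f j1).coeff c ≠ 0 := by
    by_contra hcon
    push Not at hcon
    apply hj1
    ext g
    rw [hcon g]; rfl
  have he : (f j1).coeff g1 ^ 2 = 1 := by
    have h2 := hb j1 g1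
    have h3 : 0 < (f j1).coeff g1 ^ 2 := by positivity
    omega
  obtain ⟨j2, g2, δ, hδ, h⟩ := two_pos f j1 g1 _ he rfl (by omega)
  set ε := (f j1).coeff g1 with hε
  have hne : (j1, g1) = (j2, g2) → δ = 0 := by
    intro h0
    rw [Prod.mk.injEq] at h0
    obtain ⟨h1, h2⟩ := h0
    subst h1; subst h2
    have h1 := congrArg (fun z : MonoidAlgebra ℤ Γ => z.coeff g1) (h j1)
    rw [if_pos rfl, if_pos rfl, coeff_add', MonoidAlgebra.coeff_single, MonoidAlgebra.coeff_single,
      Finsupp.single_eq_same, Finsupp.single_eq_same] at h1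
    omega
  have hδ0 : δ ≠ 0 := by
    intro h0
    have h1 : N f = 1 := by
      have h2 : ∀ a, nsq (f a) = if a = j1 then 1 else 0 := by
        intro a
        rw [h a, h0]
        by_cases ha : a = j1
        · rw [if_pos ha, if_pos ha, MonoidAlgebra.single_zero, ite_self, add_zero, nsq_single, he]
        · rw [if_neg ha, if_neg ha, MonoidAlgebra.single_zero, ite_self, add_zero, nsq_zero]
      unfold N
      rw [Finset.sum_congr rfl fun a _ => h2 a]
      simp
    omega
  refine ⟨j1, g1, j2, g2, ε, δ, fun h0 => hδ0 (hne h0), he, ?_, h⟩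
  have h3 : 0 < δ ^ 2 := by positivity
  omega

/-- the rows of the scalar matrix -/
theorem bg_row (M : Matrix κ κ (MonoidAlgebra ℤ Γ)) (p : κ × Γ) (hN : N (fun a => M p.1 a) = 2)
    (hb : ∀ i j g, (M i j).coeff g ^ 2 ≤ 1) :
    ∃ (s t : κ × Γ), s ≠ t ∧ (∀ q, bg M p q ≠ 0 ↔ q = s ∨ q = t) ∧
      ∀ (K : Matrix κ κ (MonoidAlgebra ℤ Γ)) q,
        bg (M * K) p q = bg M p s * bg K s q + bg M p t * bg K t q := by
  classical
  obtain ⟨j1, g1, j2, g2, ε, δ, hne, hε, hδ, h⟩ := row_two (fun a => M p.1 a) hN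
    (fun j g => hb _ _ _)
  have hε0 : ε ≠ 0 := by rintro rfl; norm_num at hε
  have hδ0 : δ ≠ 0 := by rintro rfl; norm_num at hδ
  have hv : ∀ q : κ × Γ, bg M p q = (if q = (j1, p.2 * g1) then ε else 0)
      + (if q = (j2, p.2 * g2) then δ else 0) := by
    intro q
    have h1 : ∀ (j : κ) (g : Γ) (e : ℤ),
        ((if q.1 = j then MonoidAlgebra.single g e else 0 : MonoidAlgebra ℤ Γ)).coeff (p.2⁻¹ * q.2)
        = if q = (j, p.2 * g) then e else 0 := by
      intro j g e
      by_cases hj : q.1 = j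
      · rw [if_pos hj, MonoidAlgebra.coeff_single, Finsupp.single_apply]
        by_cases hg : g = p.2⁻¹ * q.2
        · rw [if_pos hg, if_pos]
          exact Prod.ext hj (by rw [hg]; simp)
        · rw [if_neg hg, if_neg]
          intro h2
          apply hg
          rw [h2]; simp
      · rw [if_neg hj, if_neg]
        · rfl
        · intro h2
          exact hj (by rw [h2])
    unfold bg
    have h2 := h q.1
    rw [h2, coeff_add', h1, h1]
  have hst : ((j1, p.2 * g1) : κ × Γ) ≠ (j2, p.2 * g2) := by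
    intro h0
    apply hne
    rw [Prod.mk.injEq] at h0
    exact Prod.ext h0.1 (mul_left_cancel h0.2)
  have v1 : bg M p (j1, p.2 * g1) = ε := by rw [hv, if_pos rfl, if_neg hst, add_zero]
  have v2 : bg M p (j2, p.2 * g2) = δ := by rw [hv, if_pos rfl, if_neg hst.symm, zero_add]
  refine ⟨(j1, p.2 * g1), (j2, p.2 * g2), hst, fun q => ?_, fun K q => ?_⟩
  · constructor
    · intro h1
      by_contra hcon
      push Not at hcon
      rw [hv, if_neg hcon.1, if_neg hcon.2] at h1
      exact h1 rfl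
    · rintro (rfl | rfl)
      · rw [v1]; exact hε0
      · rw [v2]; exact hδ0
  · rw [v1, v2]
    unfold bg
    rw [Matrix.mul_apply]
    have h1 : ∑ a, M p.1 a * K a q.1 = MonoidAlgebra.single g1 ε * K j1 q.1
        + MonoidAlgebra.single g2 δ * K j2 q.1 := by
      have : ∀ a, M p.1 a * K a q.1 = (if a = j1 then MonoidAlgebra.single g1 ε * K j1 q.1 else 0)
          + (if a = j2 then MonoidAlgebra.single g2 δ * K j2 q.1 else 0) := by
        intro a
        have h8 := h a
        rw [h8, add_mul]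
        congr 1
        · by_cases ha : a = j1
          · rw [if_pos ha, if_pos ha, ha]
          · rw [if_neg ha, if_neg ha, zero_mul]
        · by_cases ha : a = j2
          · rw [if_pos ha, if_pos ha, ha]
          · rw [if_neg ha, if_neg ha, zero_mul]
      rw [Finset.sum_congr rfl fun a _ => this a, Finset.sum_add_distrib]
      simp
    rw [h1, coeff_add', coeff_smul_left, coeff_smul_left]
    have e1 : g1⁻¹ * (p.2⁻¹ * q.2) = (p.2 * g1)⁻¹ * q.2 := by group
    have e2 : g2⁻¹ * (p.2⁻¹ * q.2) = (p.2 * g2)⁻¹ * q.2 := by group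
    rw [e1, e2]

/-- the rows of the scalar matrix, with given support -/
theorem bg_row' (M : Matrix κ κ (MonoidAlgebra ℤ Γ)) (p : κ × Γ) (hN : N (fun a => M p.1 a) = 2)
    (hb : ∀ i j g, (M i j).coeff g ^ 2 ≤ 1) {s t : κ × Γ} (hst : s ≠ t) (hs : bg M p s ≠ 0)
    (ht : bg M p t ≠ 0) (K : Matrix κ κ (MonoidAlgebra ℤ Γ)) (q : κ × Γ) :
    bg (M * K) p q = bg M p s * bg K s q + bg M p t * bg K t q := by
  obtain ⟨s', t', hst', h1, h2⟩ := bg_row M p hN hb
  rw [h2]
  rcases (h1 s).1 hs with rfl | rfl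
  · rcases (h1 t).1 ht with rfl | rfl
    · exact absurd rfl hst
    · rfl
  · rcases (h1 t).1 ht with rfl | rfl
    · rw [add_comm]
    · exact absurd rfl hst

theorem xor_lemma (a b z ε δ : ℤ) (ha : a ^ 2 ≤ 1) (hb : b ^ 2 ≤ 1) (hz : z ^ 2 ≤ 1)
    (hε : ε ^ 2 = 1) (hδ : δ ^ 2 = 1) (h : z = ε * a + δ * b) :
    z ≠ 0 ↔ (a ≠ 0 ↔ ¬ b ≠ 0) := by
  have small : ∀ x : ℤ, x ^ 2 ≤ 1 → x = -1 ∨ x = 0 ∨ x = 1 := by
    intro x hx
    have h1 : x ≤ 1 := by nlinarith
    have h2 : -1 ≤ x := by nlinarith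
    omega
  have h1 := small a ha
  have h2 := small b hb
  have h3 := small ε (by omega)
  have h4 := small δ (by omega)
  rcases h3 with rfl | rfl | rfl
  · rcases h4 with rfl | rfl | rfl
    · rcases h1 with rfl | rfl | rfl <;> rcases h2 with rfl | rfl | rfl <;>
        subst h <;> first | (norm_num; done) | (exfalso; norm_num at hz; done)
    · norm_num at hδ
    · rcases h1 with rfl | rfl | rfl <;> rcases h2 with rfl | rfl | rfl <;>
        subst h <;> first | (norm_num; done) | (exfalso; norm_num at hz; done)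
  · norm_num at hε
  · rcases h4 with rfl | rfl | rfl
    · rcases h1 with rfl | rfl | rfl <;> rcases h2 with rfl | rfl | rfl <;>
        subst h <;> first | (norm_num; done) | (exfalso; norm_num at hz; done)
    · norm_num at hδ
    · rcases h1 with rfl | rfl | rfl <;> rcases h2 with rfl | rfl | rfl <;>
        subst h <;> first | (norm_num; done) | (exfalso; norm_num at hz; done)

section all2

variable {X Z : Matrix κ κ (MonoidAlgebra ℤ Γ)} (h : All2 X Z)

include h

theorem All2.eqX {p s t : κ × Γ} (hst : s ≠ t) (hs : bg X p s ≠ 0) (ht : bg X p t ≠ 0)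
    (q : κ × Γ) : bg X p q - bg Z p q = bg X p s * bg Z s q + bg X p t * bg Z t q := by
  rw [← bg_row' X p (h.xr _) h.bX hst hs ht, ← bg_sub, h.z1]

theorem All2.eqZ {p s t : κ × Γ} (hst : s ≠ t) (hs : bg Z p s ≠ 0) (ht : bg Z p t ≠ 0)
    (q : κ × Γ) : bg X p q - bg Z p q = bg Z p s * bg X s q + bg Z p t * bg X t q := by
  rw [← bg_row' Z p (h.zr _) h.bZ hst hs ht, ← bg_sub, h.z2]

theorem All2.dX' (p : κ × Γ) : bg X p p = 0 := by
  unfold bg
  rw [inv_mul_cancel]
  exact h.dX _

theorem All2.dZ' (p : κ × Γ) : bg Z p p = 0 := by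
  unfold bg
  rw [inv_mul_cancel]
  exact h.dZ _

theorem All2.sqX {p q : κ × Γ} (hx : bg X p q ≠ 0) : bg X p q ^ 2 = 1 := by
  have h2 : bg X p q ^ 2 ≤ 1 := h.bX _ _ _
  have h3 : 0 < bg X p q ^ 2 := by positivity
  omega

theorem All2.sqZ {p q : κ × Γ} (hx : bg Z p q ≠ 0) : bg Z p q ^ 2 = 1 := by
  have h2 : bg Z p q ^ 2 ≤ 1 := h.bZ _ _ _
  have h3 : 0 < bg Z p q ^ 2 := by positivity
  omega

/-- the combinatorial structure of the remaining case -/
theorem All2.PC : PC (fun p q => bg X p q ≠ 0) (fun p q => bg Z p q ≠ 0) where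
  rx p := by
    obtain ⟨s, t, hst, h1, _⟩ := bg_row X p (h.xr _) h.bX
    exact ⟨s, t, hst, h1⟩
  rz p := by
    obtain ⟨s, t, hst, h1, _⟩ := bg_row Z p (h.zr _) h.bZ
    exact ⟨s, t, hst, h1⟩
  cz q := by
    obtain ⟨s, t, hst, h1, _⟩ := bg_row (adj Z) q (h.star.zr _) h.star.bZ
    refine ⟨s, t, hst, fun p => ?_⟩
    rw [← h1, bg_adj]
  ex p s t hst hX q := by
    classical
    have hs := (hX s).2 (Or.inl rfl)
    have ht := (hX t).2 (Or.inr rfl)
    have e := h.eqX hst hs ht q
    have hv : bg X p q = (if q = s then bg X p s else 0) + (if q = t then bg X p t else 0) := by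
      by_cases h1 : q = s
      · rw [if_pos h1, h1, if_neg hst, add_zero]
      · by_cases h2 : q = t
        · rw [if_neg h1, if_pos h2, h2, zero_add]
        · rw [if_neg h1, if_neg h2, add_zero]
          by_contra hcon
          rcases (hX q).1 hcon with h3 | h3
          · exact h1 h3
          · exact h2 h3
    have h1 : ∀ u : κ × Γ, ((if q = u then 1 else 0) - bg Z u q) ^ 2 ≤ 1 := by
      intro u
      by_cases hq : q = u
      · rw [hq, if_pos rfl, h.dZ']; norm_num
      · rw [if_neg hq, zero_sub, neg_sq]; exact h.bZ _ _ _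
    have h2 : ∀ u : κ × Γ, ((if q = u then 1 else 0) - bg Z u q) ≠ 0 ↔ (q = u ∨ bg Z u q ≠ 0) := by
      intro u
      by_cases hq : q = u
      · rw [hq, if_pos rfl, h.dZ']; simp
      · rw [if_neg hq, zero_sub, neg_ne_zero]; simp [hq]
    have h3 := xor_lemma ((if q = s then 1 else 0) - bg Z s q) ((if q = t then 1 else 0) - bg Z t q)
      (bg Z p q) (bg X p s) (bg X p t) (h1 s) (h1 t) (h.bZ _ _ _) (h.sqX hs) (h.sqX ht) (by
        rw [hv] at e
        have a1 : bg X p s * ((if q = s then 1 else 0) - bg Z s q)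
            = (if q = s then bg X p s else 0) - bg X p s * bg Z s q := by
          rw [mul_sub, mul_ite, mul_one, mul_zero]
        have a2 : bg X p t * ((if q = t then 1 else 0) - bg Z t q)
            = (if q = t then bg X p t else 0) - bg X p t * bg Z t q := by
          rw [mul_sub, mul_ite, mul_one, mul_zero]
        rw [a1, a2]
        linarith)
    rw [h2 s, h2 t] at h3
    exact h3
  ez p s t hst hX q := by
    classical
    have hs := (hX s).2 (Or.inl rfl)
    have ht := (hX t).2 (Or.inr rfl)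
    have e := h.eqZ hst hs ht q
    have hv : bg Z p q = (if q = s then bg Z p s else 0) + (if q = t then bg Z p t else 0) := by
      by_cases h1 : q = s
      · rw [if_pos h1, h1, if_neg hst, add_zero]
      · by_cases h2 : q = t
        · rw [if_neg h1, if_pos h2, h2, zero_add]
        · rw [if_neg h1, if_neg h2, add_zero]
          by_contra hcon
          rcases (hX q).1 hcon with h3 | h3
          · exact h1 h3
          · exact h2 h3
    have h1 : ∀ u : κ × Γ, ((if q = u then 1 else 0) + bg X u q) ^ 2 ≤ 1 := by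
      intro u
      by_cases hq : q = u
      · rw [hq, if_pos rfl, h.dX']; norm_num
      · rw [if_neg hq, zero_add]; exact h.bX _ _ _
    have h2 : ∀ u : κ × Γ, ((if q = u then 1 else 0) + bg X u q) ≠ 0 ↔ (q = u ∨ bg X u q ≠ 0) := by
      intro u
      by_cases hq : q = u
      · rw [hq, if_pos rfl, h.dX']; simp
      · rw [if_neg hq, zero_add]; simp [hq]
    have h3 := xor_lemma ((if q = s then 1 else 0) + bg X s q) ((if q = t then 1 else 0) + bg X t q)
      (bg X p q) (bg Z p s) (bg Z p t) (h1 s) (h1 t) (h.bX _ _ _) (h.sqZ hs) (h.sqZ ht) (by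
        rw [hv] at e
        have a1 : bg Z p s * ((if q = s then 1 else 0) + bg X s q)
            = (if q = s then bg Z p s else 0) + bg Z p s * bg X s q := by
          rw [mul_add, mul_ite, mul_one, mul_zero]
        have a2 : bg Z p t * ((if q = t then 1 else 0) + bg X t q)
            = (if q = t then bg Z p t else 0) + bg Z p t * bg X t q := by
          rw [mul_add, mul_ite, mul_one, mul_zero]
        rw [a1, a2]
        linarith)
    rw [h2 s, h2 t] at h3
    exact h3
  dx p := by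
    rw [h.dX']; simp
  dz p := by
    rw [h.dZ']; simp
  dis p q hX hZ := by
    have h1 := h.dj p.1 q.1 (p.2⁻¹ * q.2)
    have h2 : (p.2⁻¹ * q.2)⁻¹ = q.2⁻¹ * p.2 := by group
    rw [h2] at h1
    rcases mul_eq_zero.1 h1 with h3 | h3
    · exact hX h3
    · exact hZ h3

end all2

end Pool.Agent.H76R
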