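import Pool.Agent.H76R.Nm

set_option autoImplicit false
set_option linter.unusedSectionVars false

/-! Pivoting on a row with exactly one coefficient. -/

namespace Pool.Agent.H76R

open Matrix TH57.Thr TH6.LF Pool.Agent.Y75.Th

variable {Γ : Type} [Group Γ] {κ : Type} [Fintype κ] [DecidableEq κ]

/-- a row with exactly one coefficient -/
structure R1 (X Z : Matrix κ κ (MonoidAlgebra ℤ Γ)) (i k : κ) (c : Γ) (e : ℤ) : Prop where
  ne : k ≠ i
  he : e ^ 2 = 1
  hk : X i k = MonoidAlgebra.single c e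
  ho : ∀ j, j ≠ k → X i j = 0
  hZ : ∀ j, Z i j = X i j - MonoidAlgebra.single c e * Z k j
  hN : N (fun a => Z i a) = 1 + N (fun a => Z k a)

theorem R1.of {X Z : Matrix κ κ (MonoidAlgebra ℤ Γ)} (h : NE X Z) (i : κ)
    (h1 : N (fun a => X i a) = 1) : ∃ k c e, R1 X Z i k c e := by
  obtain ⟨k, c, e, he, hk, ho⟩ := N_one h1
  have hZ : ∀ j, Z i j = X i j - MonoidAlgebra.single c e * Z k j := by
    intro j
    have h2 := h.e1 i j
    rw [Finset.sum_eq_single k (fun b _ hb => by rw [ho b hb, zero_mul])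
      (fun hk => absurd (Finset.mem_univ k) hk), hk] at h2
    rw [← h2]; abel
  have hN : N (fun a => Z i a) = 1 + N (fun a => Z k a) := by
    have h3 : ∀ j, nsq (Z i j) = (if j = k then 1 else 0) + nsq (Z k j) := by
      intro j
      by_cases hj : j = k
      · subst hj
        rw [if_pos rfl, hZ, hk]
        have : MonoidAlgebra.single c e - MonoidAlgebra.single c e * Z j j
            = MonoidAlgebra.single c e * (1 - Z j j) := by rw [mul_sub, mul_one]
        rw [this, nsq_single_mul c e he, nsq_one_sub _ (h.dZ j)]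
      · rw [if_neg hj, hZ, ho j hj, zero_sub, nsq_neg, nsq_single_mul c e he, zero_add]
    unfold N
    rw [Finset.sum_congr rfl fun j _ => h3 j, Finset.sum_add_distrib]
    simp
  refine ⟨k, c, e, ?_, he, hk, ho, hZ, hN⟩
  rintro rfl
  omega

theorem two_pos (f : κ → MonoidAlgebra ℤ Γ) (i : κ) (c : Γ) (e : ℤ) (he : e ^ 2 = 1)
    (hf : (f i).coeff c = e) (hN : N f ≤ 2) : ∃ (j : κ) (d : Γ) (ζ : ℤ), ζ ^ 2 ≤ 1 ∧
      ∀ a, f a = (if a = i then MonoidAlgebra.single c e else 0)
        + (if a = j then MonoidAlgebra.single d ζ else 0) := by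
  set g : κ → MonoidAlgebra ℤ Γ := fun a => f a - if a = i then MonoidAlgebra.single c e else 0
    with hg
  have h1 : N g = N f - 1 := by
    rw [N_spl i g, N_spl i f]
    have h2 : nsq (g i) = nsq (f i) - 1 := by
      have h3 : g i = f i - MonoidAlgebra.single c e := by rw [hg]; simp
      rw [h3, nsq_sub, nsq_single, he, bar_single, coeff_smul_right, inv_inv, one_mul, hf, ← sq, he]
      ring
    have h3 : N (fun x : {x : κ // x ≠ i} => g x) = N (fun x : {x : κ // x ≠ i} => f x) := by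
      refine Finset.sum_congr rfl fun x _ => ?_
      have : g x = f x := by rw [hg]; simp [x.2]
      exact congrArg nsq this
    rw [h2, h3]; ring
  have h2 := N_nonneg g
  have hfg : ∀ a, f a = (if a = i then MonoidAlgebra.single c e else 0) + g a := by
    intro a; rw [hg]; simp
  have h3 : N g = 0 ∨ N g = 1 := by omega
  rcases h3 with h3 | h3
  · refine ⟨i, 1, 0, by norm_num, fun a => ?_⟩
    rw [hfg a, N_eq_zero h3 a]
    simp
  · obtain ⟨j, d, ζ, hζ, hj, ho⟩ := N_one h3
    refine ⟨j, d, ζ, by omega, fun a => ?_⟩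
    rw [hfg a]
    congr 1
    by_cases ha : a = j
    · rw [if_pos ha, ha, hj]
    · rw [if_neg ha, ho a ha]

theorem NF4.sqX {X Z : Matrix κ κ (MonoidAlgebra ℤ Γ)} (h : NF4 X Z) {i j : κ} {g : Γ}
    (hx : (X i j).coeff g ≠ 0) : (X i j).coeff g ^ 2 = 1 := by
  have h2 := h.bX i j g
  have h3 : 0 < (X i j).coeff g ^ 2 := by positivity
  omega

theorem R1.Zik {X Z : Matrix κ κ (MonoidAlgebra ℤ Γ)} (h : NF4 X Z) {i k : κ} {c : Γ} {e : ℤ}
    (hc : R1 X Z i k c e) : (Z i k).coeff c = e := by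
  rw [hc.hZ, hc.hk, coeff_sub', coeff_smul_left, inv_mul_cancel, h.dZ, MonoidAlgebra.coeff_single,
    Finsupp.single_eq_same]
  ring

/-- disjointness -/
theorem R1.lA {X Z : Matrix κ κ (MonoidAlgebra ℤ Γ)} (h : NF4 X Z) {i k : κ} {c : Γ} {e : ℤ}
    (hc : R1 X Z i k c e) (a : κ) (t : Γ) (hx : (X a i).coeff (t * c⁻¹) ≠ 0) :
    (Z k a).coeff t⁻¹ = 0 ∧ ¬ (a = k ∧ t = 1) := by
  classical
  have he := hc.he
  have he0 : e ≠ 0 := by rintro rfl; norm_num at he
  have hk := hc.hk
  have h2 := h.dj a i (t * c⁻¹)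
  have h3 : (Z i a).coeff (t * c⁻¹)⁻¹ = 0 := by
    rcases mul_eq_zero.1 h2 with h4 | h4
    · exact absurd h4 hx
    · exact h4
  rw [hc.hZ a, coeff_sub', coeff_smul_left] at h3
  have h5 : c⁻¹ * (t * c⁻¹)⁻¹ = t⁻¹ := by group
  rw [h5] at h3
  by_cases hb : a = k
  · subst hb
    by_cases ht : t = 1
    · subst ht
      rw [hk, MonoidAlgebra.coeff_single] at h3
      simp [h.dZ] at h3
      exact absurd h3 he0
    · refine ⟨?_, fun h => ht h.2⟩
      rw [hk, MonoidAlgebra.coeff_single, Finsupp.single_apply, if_neg, zero_sub, neg_eq_zero]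
        at h3
      · rcases mul_eq_zero.1 h3 with h4 | h4
        · exact absurd h4 he0
        · exact h4
      · intro h6
        apply ht
        have h7 : (t * c⁻¹)⁻¹ = c * t⁻¹ := by group
        rw [h7] at h6
        have h8 : t⁻¹ = 1 := by
          have := congrArg (c⁻¹ * ·) h6
          simpa using this.symm
        simpa using h8
  · refine ⟨?_, fun h => hb h.1⟩
    rw [hc.ho a hb] at h3
    have h4 : e * (Z k a).coeff t⁻¹ = 0 := by simpa using h3
    rcases mul_eq_zero.1 h4 with h4 | h4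
    · exact absurd h4 he0
    · exact h4

/-- no clash of signs -/
theorem R1.lB {X Z : Matrix κ κ (MonoidAlgebra ℤ Γ)} (h : NF4 X Z)
    (ps : ∀ i, 1 ≤ N (fun a => X i a)) {i k : κ} {c : Γ} {e : ℤ}
    (hc : R1 X Z i k c e)
    (hmin : ∀ i', N (fun a => X i' a) = 1 → N (fun a => Z i a) ≤ N (fun a => Z i' a))
    (a : κ) (t : Γ) (ha : a ≠ i) (hx : (X a i).coeff (t * c⁻¹) ≠ 0)
    (hy : (X a k).coeff t ≠ 0) : (X a k).coeff t = (X a i).coeff (t * c⁻¹) * e := by
  classical
  have he := hc.he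
  have hx2 := h.sqX hx
  have hy2 := h.sqX hy
  set x := (X a i).coeff (t * c⁻¹) with hxd
  set y := (X a k).coeff t with hyd
  have h4 : (y - x * e) * (y + x * e) = 0 := by
    have : (y - x * e) * (y + x * e) = y ^ 2 - e ^ 2 * x ^ 2 := by ring
    rw [this, hy2, he, hx2]; norm_num
  rcases mul_eq_zero.1 h4 with h5 | h5
  · linarith
  exfalso
  have hs : (x * e) ^ 2 = 1 := by rw [mul_pow, he, hx2]; norm_num
  have hyx : y = -(x * e) := by linarith
  -- first claim
  have cl1 : 3 ≤ N (fun a => Z a k) := by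
    by_contra hcon
    obtain ⟨j, d, ζ, hζ, hf⟩ := two_pos (fun a => Z a k) i c e he (hc.Zik h) (by omega)
    have h6 := h.e1 a k
    have h7 : ∑ b, X a b * Z b k = X a i * MonoidAlgebra.single c e
        + X a j * MonoidAlgebra.single d ζ := by
      have : ∀ b, X a b * Z b k = (if b = i then X a i * MonoidAlgebra.single c e else 0)
          + (if b = j then X a j * MonoidAlgebra.single d ζ else 0) := by
        intro b
        have h8 := hf b
        rw [h8, mul_add]
        congr 1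
        · by_cases hb : b = i
          · rw [if_pos hb, if_pos hb, hb]
          · rw [if_neg hb, if_neg hb, mul_zero]
        · by_cases hb : b = j
          · rw [if_pos hb, if_pos hb, hb]
          · rw [if_neg hb, if_neg hb, mul_zero]
      rw [Finset.sum_congr rfl fun a _ => this a, Finset.sum_add_distrib]
      simp
    rw [h7] at h6
    have h8 := congrArg (fun z : MonoidAlgebra ℤ Γ => z.coeff t) h6
    rw [coeff_sub', coeff_add', coeff_smul_right, coeff_smul_right, ← hxd, ← hyd] at h8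
    set θ := (X a j).coeff (t * d⁻¹) * ζ with hθ
    have h9 := h.bZ a k t
    have h10 : (Z a k).coeff t = -2 * (x * e) - θ := by linarith
    have h11 : θ ^ 2 ≤ 1 := by
      rw [hθ, mul_pow]
      have := h.bX a j (t * d⁻¹)
      nlinarith [sq_nonneg ζ, sq_nonneg ((X a j).coeff (t * d⁻¹))]
    have h12 : θ ≠ 0 := by
      intro h0
      rw [h10, h0] at h9
      nlinarith
    have h13 : (Z a k).coeff t ≠ 0 := by
      intro h0
      rw [h0] at h10
      have : θ = -2 * (x * e) := by linarith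
      rw [this] at h11
      nlinarith
    have h14 := hf a
    rw [if_neg ha, zero_add] at h14
    rw [h14] at h13
    by_cases hbj : a = j
    · rw [if_pos hbj, MonoidAlgebra.coeff_single, Finsupp.single_apply] at h13
      split_ifs at h13 with hdt
      · apply h12
        rw [hθ, ← hbj, hdt, mul_inv_cancel, h.dX, zero_mul]
      · exact h13 rfl
    · rw [if_neg hbj] at h13
      exact h13 rfl
  have c1 := h.rows k
  have c2 := ps k
  have c3 : N (fun a => X k a) = 1 := by omega
  have c4 := hmin k c3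
  have c5 := hc.hN
  omega

/-- the new column -/
theorem R1.col {X Z : Matrix κ κ (MonoidAlgebra ℤ Γ)} {i k : κ} {c : Γ} {e : ℤ}
    (hc : R1 X Z i k c e) (a : {x : κ // x ≠ i}) :
    pivX X i a ⟨k, hc.ne⟩ = X a k - X a i * MonoidAlgebra.single c e := by
  rw [pivX, hc.hk]

theorem R1.other {X Z : Matrix κ κ (MonoidAlgebra ℤ Γ)} {i k : κ} {c : Γ} {e : ℤ}
    (hc : R1 X Z i k c e) (a b : {x : κ // x ≠ i}) (hb : (b : κ) ≠ k) :
    pivX X i a b = X a b := by
  rw [pivX, hc.ho b hb, mul_zero, sub_zero]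

/-- the rows of the pivoted matrix -/
theorem R1.rowN {X Z : Matrix κ κ (MonoidAlgebra ℤ Γ)} (h : NF4 X Z)
    (ps : ∀ i, 1 ≤ N (fun a => X i a)) {i k : κ} {c : Γ} {e : ℤ}
    (hc : R1 X Z i k c e)
    (hmin : ∀ i', N (fun a => X i' a) = 1 → N (fun a => Z i a) ≤ N (fun a => Z i' a))
    (a : {x : κ // x ≠ i}) :
    N (fun b => pivX X i a b) ≤ N (fun b => X a b) := by
  have he := hc.he
  have hpos : 0 ≤ (X a k * bar (X a i * MonoidAlgebra.single c e)).coeff 1 := by
    rw [coeff_mul_bar_one _ _ _ (Finset.Subset.refl _)]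
    refine Finset.sum_nonneg fun g hg => ?_
    rw [Finsupp.mem_support_iff] at hg
    rw [coeff_smul_right]
    by_cases hx : (X a i).coeff (g * c⁻¹) = 0
    · rw [hx]; simp
    · rw [hc.lB h ps hmin a g a.2 hx hg]
      exact mul_self_nonneg _
  have lN : nsq (pivX X i a ⟨k, hc.ne⟩) ≤ nsq (X a k) + nsq (X a i) := by
    rw [hc.col, nsq_sub, nsq_mul_single c e he]
    omega
  have r2 := N_spl i (fun b => X a b)
  have r3 := N_spl (⟨k, hc.ne⟩ : {x : κ // x ≠ i}) (fun b => pivX X i a b)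
  have r4 := N_spl (⟨k, hc.ne⟩ : {x : κ // x ≠ i}) (fun b : {x : κ // x ≠ i} => X a b)
  have r5 : N (fun b : {x : {x : κ // x ≠ i} // x ≠ ⟨k, hc.ne⟩} => pivX X i a b)
      = N (fun b : {x : {x : κ // x ≠ i} // x ≠ ⟨k, hc.ne⟩} => X a (b : {x : κ // x ≠ i})) := by
    refine Finset.sum_congr rfl fun b _ => ?_
    exact congrArg nsq (hc.other a b (fun h1 => b.2 (Subtype.ext h1)))
  dsimp only at r4
  omega

/-- the pivoted pair is in normal form -/
theorem R1.step {X Z : Matrix κ κ (MonoidAlgebra ℤ Γ)} (h : NF4 X Z)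
    (ps : ∀ i, 1 ≤ N (fun a => X i a)) {i k : κ} {c : Γ} {e : ℤ}
    (hc : R1 X Z i k c e)
    (hmin : ∀ i', N (fun a => X i' a) = 1 → N (fun a => Z i a) ≤ N (fun a => Z i' a)) :
    NF4 (pivX X i) (resZ Z i) := by
  classical
  have he := hc.he
  have hii : X i i = 0 := hc.ho i (Ne.symm hc.ne)
  have hWkc : ∀ (a : {x : κ // x ≠ i}) t, (pivX X i a ⟨k, hc.ne⟩).coeff t
      = (X a k).coeff t - (X a i).coeff (t * c⁻¹) * e := by
    intro b t
    rw [hc.col, coeff_sub', coeff_smul_right]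
  have caseK : ∀ a : {x : κ // x ≠ i}, (a : κ) = k → a = ⟨k, hc.ne⟩ := fun a ha =>
    Subtype.ext ha
  exact {
    z1 := piv_z1 X Z i h.z1 hii
    z2 := piv_z2 X Z i h.z2 hii
    dX := fun a => by
      by_cases ha : (a : κ) = k
      · rw [caseK a ha, hWkc, h.dX]
        have : (X k i).coeff (1 * c⁻¹) = 0 := by
          by_contra hcon
          exact (hc.lA h k 1 hcon).2 ⟨rfl, rfl⟩
        dsimp only
        rw [this]; simp
      · rw [hc.other a a ha]; exact h.dX _
    dZ := fun a => h.dZ _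
    bX := fun a b g => by
      by_cases hb : (b : κ) = k
      · rw [caseK b hb, hWkc]
        by_cases hx : (X a i).coeff (g * c⁻¹) = 0
        · rw [hx, zero_mul, sub_zero]; exact h.bX _ _ _
        · by_cases hy : (X a k).coeff g = 0
          · rw [hy, zero_sub, neg_sq, mul_pow, he, mul_one]; exact h.bX _ _ _
          · rw [hc.lB h ps hmin a g a.2 hx hy, sub_self]; norm_num
      · rw [hc.other a b hb]; exact h.bX _ _ _
    bZ := fun a b g => h.bZ _ _ _
    dj := fun a b g => by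
      by_cases hb : (b : κ) = k
      · rw [caseK b hb, hWkc]
        change _ * (Z k a).coeff g⁻¹ = 0
        by_cases hx : (X a i).coeff (g * c⁻¹) = 0
        · rw [hx, zero_mul, sub_zero]; exact h.dj _ _ _
        · rw [(hc.lA h a g hx).1, mul_zero]
      · rw [hc.other a b hb]; exact h.dj _ _ _
    rows := fun a => by
      have r1 := N_res_le i (fun j => Z j a)
      have r2 := hc.rowN h ps hmin a
      have r3 := h.rows a
      change N (fun b => pivX X i a b) + N (fun x : {x : κ // x ≠ i} => Z x a) ≤ 4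
      omega }

/-- a pentagon entry in the normal form is on the diagonal -/
theorem NF4.pent_diag {X Z : Matrix κ κ (MonoidAlgebra ℤ Γ)} (h : NF4 X Z) {t : Γ} {i j : κ} {g : Γ}
    {ε : ℤ} (h1 : t ≠ 1) (h5 : t ^ 5 = 1) (hε : ε ^ 2 = 1)
    (hA : (1 + X) i j = pt t * MonoidAlgebra.single g ε)
    (hB : (1 - Z) j i = MonoidAlgebra.single g⁻¹ ε * pt (t ^ 2)) :
    i = j ∧ nsq (X i i) = 2 ∧ nsq (Z i i) = 2 := by
  classical
  have hp1 : ∀ s : Γ, s ≠ 1 → (pt s).coeff 1 = 1 := by
    intro s hs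
    have hs' : s⁻¹ ≠ 1 := by simpa using hs
    unfold pt
    rw [coeff_sub', coeff_sub', MonoidAlgebra.coeff_single, MonoidAlgebra.coeff_single,
      MonoidAlgebra.coeff_single, Finsupp.single_apply, Finsupp.single_apply, Finsupp.single_apply,
      if_pos rfl, if_neg hs, if_neg hs']
    norm_num
  have cA : ((1 + X) i j).coeff g = ε := by
    rw [hA, coeff_smul_right, mul_inv_cancel, hp1 t h1, one_mul]
  have cB : ((1 - Z) j i).coeff g⁻¹ = ε := by
    rw [hB, coeff_smul_left, inv_inv, mul_inv_cancel, hp1 _ (pow2_ne h1 h5), mul_one]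
  have hε0 : ε ≠ 0 := by rintro rfl; norm_num at hε
  have hij : i = j := by
    by_contra hij
    rw [Matrix.add_apply, Matrix.one_apply_ne hij, zero_add] at cA
    rw [Matrix.sub_apply, Matrix.one_apply_ne (Ne.symm hij), zero_sub, MonoidAlgebra.coeff_neg,
      Finsupp.neg_apply] at cB
    have h6 := h.dj i j g
    rw [cA] at h6
    rcases mul_eq_zero.1 h6 with h7 | h7
    · exact hε0 h7
    · rw [h7] at cB
      apply hε0
      rw [← cB]; norm_num
  subst hij
  have hn := Pent.nsq h1 h5 hε hA hB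
  rw [Matrix.add_apply, Matrix.one_apply_eq, nsq_one_add _ (h.dX i), Matrix.sub_apply,
    Matrix.one_apply_eq, nsq_one_sub _ (h.dZ i)] at hn
  exact ⟨rfl, by omega, by omega⟩

/-- the inductive step for a row of norm one -/
theorem R1.good {X Z : Matrix κ κ (MonoidAlgebra ℤ Γ)} (h : NF4 X Z)
    (ps : ∀ i, 1 ≤ N (fun a => X i a)) {i k : κ} {c : Γ} {e : ℤ}
    (hc : R1 X Z i k c e)
    (hmin : ∀ i', N (fun a => X i' a) = 1 → N (fun a => Z i a) ≤ N (fun a => Z i' a))
    {U : Subgroup (MonoidAlgebra ℤ Γ)ˣ} {n : ℕ} (ih : IH U n)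
    (hcard : Fintype.card κ ≤ n + 1) (hG : Good U (1 + X) (1 - Z)) : Tm U (1 + X) := by
  have hNF := hc.step h ps hmin
  have hii : X i i = 0 := hc.ho i (Ne.symm hc.ne)
  refine piv_Tm U X Z i h.z1 h.z2 hii (ih _ (card_ne_le hcard i) _ _ hNF.S6 ?_)
  rintro t ⟨h1, h5, a, b, g, ε, hε, hA, hB⟩
  apply hG t
  obtain ⟨hab, n1, n2⟩ := hNF.pent_diag h1 h5 hε hA hB
  subst hab
  have ha : (a : κ) ≠ k := by
    intro ha
    have r1 := hc.rowN h ps hmin a
    have r2 := nsq_le_N (fun x : {x : κ // x ≠ i} => pivX X i a x) a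
    have r3 : nsq (Z a a) ≤ N (fun x : {x : κ // x ≠ i} => Z x a) :=
      nsq_le_N (fun x : {x : κ // x ≠ i} => Z x a) a
    have r4 := N_spl i (fun x => Z x a)
    have r5 : 1 ≤ nsq (Z i a) := by
      have := coeff_sq_le (Z i a) c
      rw [ha, hc.Zik h, hc.he] at this
      rw [ha]; exact this
    have r6 := h.rows a
    have r7 : nsq (resZ Z i a a) = nsq (Z a a) := rfl
    omega
  have hpa : pivX X i a a = X a a := hc.other a a ha
  refine ⟨h1, h5, a, a, g, ε, hε, ?_, ?_⟩
  · rw [← hA, Matrix.add_apply, Matrix.add_apply, Matrix.one_apply_eq, Matrix.one_apply_eq, hpa]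
  · rw [← hB, Matrix.sub_apply, Matrix.sub_apply, Matrix.one_apply_eq, Matrix.one_apply_eq]
    rfl

end Pool.Agent.H76R
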