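import Pool.Agent.H76R.P

set_option autoImplicit false
set_option linter.unusedSectionVars false

/-! All cases in which some row or column has norm at most one. -/

namespace Pool.Agent.H76R

open Matrix TH57.Thr TH6.LF Pool.Agent.Y75.Th

variable {Γ : Type} [Group Γ] {κ : Type} [Fintype κ] [DecidableEq κ]

theorem sum_N_rows (M : Matrix κ κ (MonoidAlgebra ℤ Γ)) :
    ∑ i, N (fun a => M a i) = ∑ i, N (fun a => M i a) := by
  unfold N
  exact Finset.sum_comm

/-- the remaining case -/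
structure All2 (X Z : Matrix κ κ (MonoidAlgebra ℤ Γ)) : Prop extends NF4 X Z where
  xc : ∀ i, N (fun a => X a i) = 2
  xr : ∀ i, N (fun a => X i a) = 2
  zc : ∀ i, N (fun a => Z a i) = 2
  zr : ∀ i, N (fun a => Z i a) = 2

theorem All2.star {X Z : Matrix κ κ (MonoidAlgebra ℤ Γ)} (h : All2 X Z) :
    All2 (adj X) (adj Z) where
  z1 := by rw [← adj_mul, ← adj_sub, h.z2]
  z2 := by rw [← adj_mul, ← adj_sub, h.z1]
  dX i := by rw [adj_apply, coeff_bar, inv_one]; exact h.dX i
  dZ i := by rw [adj_apply, coeff_bar, inv_one]; exact h.dZ i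
  bX i j g := by rw [adj_apply, coeff_bar]; exact h.bX _ _ _
  bZ i j g := by rw [adj_apply, coeff_bar]; exact h.bZ _ _ _
  dj i j g := by rw [adj_apply, coeff_bar, adj_apply, coeff_bar]; exact h.dj _ _ _
  rows i := by rw [N_adj_row, N_adj_col, h.xc, h.zr]; norm_num
  xc i := by rw [N_adj_col]; exact h.xr i
  xr i := by rw [N_adj_row]; exact h.xc i
  zc i := by rw [N_adj_col]; exact h.zr i
  zr i := by rw [N_adj_row]; exact h.zc i

theorem all_eq_two {f : κ → ℤ} (h1 : ∀ i, 2 ≤ f i) (h2 : ∑ i, f i = ∑ _i : κ, (2 : ℤ)) (i : κ) :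
    f i = 2 := by
  have h3 : ∑ i, (f i - 2) = 0 := by rw [Finset.sum_sub_distrib, h2, sub_self]
  have h4 := (Finset.sum_eq_zero_iff_of_nonneg (fun i _ => by have := h1 i; omega)).1 h3 i
    (Finset.mem_univ i)
  omega

/-- a row of norm one in the normal form -/
theorem NF4.row1 {X Z : Matrix κ κ (MonoidAlgebra ℤ Γ)} (h : NF4 X Z)
    (ps : ∀ i, 1 ≤ N (fun a => X i a)) (h1 : ∃ i, N (fun a => X i a) = 1)
    {U : Subgroup (MonoidAlgebra ℤ Γ)ˣ} {n : ℕ} (ih : IH U n)
    (hcard : Fintype.card κ ≤ n + 1) (hG : Good U (1 + X) (1 - Z)) : Tm U (1 + X) := by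
  classical
  obtain ⟨i0, hi0⟩ := h1
  obtain ⟨i, hi, hmin⟩ := Finset.exists_min_image
    (Finset.univ.filter fun i => N (fun a => X i a) = 1) (fun i => N (fun a => Z i a))
    ⟨i0, by simp [hi0]⟩
  rw [Finset.mem_filter] at hi
  obtain ⟨k, c, e, hc⟩ := R1.of h.toNE i hi.2
  exact hc.good h ps (fun i' hi' => hmin i' (by simp [hi'])) ih hcard hG

theorem NF4.reduce {X Z : Matrix κ κ (MonoidAlgebra ℤ Γ)} (h : NF4 X Z)
    {U : Subgroup (MonoidAlgebra ℤ Γ)ˣ} (hU : UC U) {n : ℕ} (ih : IH U n)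
    (hcard : Fintype.card κ ≤ n + 1) (hG : Good U (1 + X) (1 - Z))
    (h2 : All2 X Z → Tm U (1 + X)) : Tm U (1 + X) := by
  by_cases h0 : ∃ i, (∀ a, X a i = 0) ∨ (∀ b, X i b = 0)
  · obtain ⟨i, hi⟩ := h0
    have hii : X i i = 0 := by rcases hi with hi | hi <;> exact hi i
    refine step_rs ih hcard h.S6 hG i ?_ ?_
    · rw [Matrix.add_apply, Matrix.one_apply_eq, hii, add_zero]
    · intro a b ha hb
      rw [Matrix.add_apply, Matrix.add_apply, Matrix.one_apply_ne ha,
        Matrix.one_apply_ne (Ne.symm hb), zero_add, zero_add]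
      rcases hi with hi | hi
      · rw [hi, zero_mul]
      · rw [hi, mul_zero]
  push Not at h0
  have pr : ∀ i, 1 ≤ N (fun a => X a i) := by
    intro i
    obtain ⟨a, ha⟩ := (h0 i).1
    exact le_trans (one_le_nsq ha) (nsq_le_N (fun a => X a i) a)
  have ps : ∀ i, 1 ≤ N (fun a => X i a) := by
    intro i
    obtain ⟨a, ha⟩ := (h0 i).2
    exact le_trans (one_le_nsq ha) (nsq_le_N (fun a => X i a) a)
  have pp : ∀ i, 1 ≤ N (fun a => Z a i) := by
    intro i
    by_contra hcon
    have h1 := N_nonneg (fun a => Z a i)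
    have h2 : N (fun a => Z a i) = 0 := by omega
    obtain ⟨a, ha⟩ := (h0 i).1
    apply ha
    have h3 := h.e1 a i
    rw [Finset.sum_eq_zero fun x _ => by rw [N_eq_zero h2 x, mul_zero], N_eq_zero h2 a,
      sub_zero] at h3
    exact h3
  have pq : ∀ i, 1 ≤ N (fun a => Z i a) := by
    intro i
    by_contra hcon
    have h1 := N_nonneg (fun a => Z i a)
    have h2 : N (fun a => Z i a) = 0 := by omega
    obtain ⟨a, ha⟩ := (h0 i).2
    apply ha
    have h3 := h.e2 i a
    rw [Finset.sum_eq_zero fun x _ => by rw [N_eq_zero h2 x, zero_mul], N_eq_zero h2 a,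
      sub_zero] at h3
    exact h3
  by_cases c1 : ∃ i, N (fun a => X i a) = 1
  · exact h.row1 ps c1 ih hcard hG
  by_cases c2 : ∃ i, N (fun a => Z a i) = 1
  · have e1 : (1 : Matrix κ κ (MonoidAlgebra ℤ Γ)) + -adj Z = adj (1 - Z) := by
      rw [adj_sub, adj_one]; abel
    have e2 : (1 : Matrix κ κ (MonoidAlgebra ℤ Γ)) - -adj X = adj (1 + X) := by
      rw [adj_add, adj_one]; abel
    apply Tm_inv h.S6.toIP
    apply Tm_star hU h.S6.toIP.inv
    rw [← e1]
    refine h.ad.row1 (fun l => ?_) ?_ ih hcard ?_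
    · rw [N_na_row]; exact pp l
    · obtain ⟨i, hi⟩ := c2
      exact ⟨i, by rw [N_na_row]; exact hi⟩
    · rw [e1, e2]
      exact (hG.inv hU.tu).star hU.tu
  push Not at c1 c2
  have xr : ∀ i, N (fun a => X i a) = 2 := fun i => by
    have a1 := ps i; have a2 := pp i; have a3 := c1 i; have a4 := c2 i; have a5 := h.rows i
    omega
  have zc : ∀ i, N (fun a => Z a i) = 2 := fun i => by
    have a1 := ps i; have a2 := pp i; have a3 := c1 i; have a4 := c2 i; have a5 := h.rows i
    omega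
  have xc2 : ∀ i, 2 ≤ N (fun a => X a i) := by
    intro i
    by_contra hcon
    have a1 := pr i
    obtain ⟨k, c, e, _, _, _, _, _, h7⟩ := h.toNE.col_one i (by omega)
    have a2 := zc i
    have a3 := zc k
    omega
  have zr2 : ∀ i, 2 ≤ N (fun a => Z i a) := by
    intro i
    by_contra hcon
    have a1 := pq i
    obtain ⟨k, c, e, _, _, _, _, _, h7⟩ := h.toNE.ad.col_one i (by rw [N_na_col]; omega)
    rw [N_na_col, N_na_col] at h7
    have a2 := xr i
    have a3 := xr k
    omega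
  apply h2
  exact {
    toNF4 := h
    xr := xr
    zc := zc
    xc := all_eq_two xc2 (by
      rw [sum_N_rows]
      exact Finset.sum_congr rfl fun i _ => xr i)
    zr := all_eq_two zr2 (by
      rw [← sum_N_rows]
      exact Finset.sum_congr rfl fun i _ => zc i) }

end Pool.Agent.H76R
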