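import Pool.Agent.H76R.M

set_option autoImplicit false
set_option linter.unusedSectionVars false

/-! Elimination of the coefficients `± 2` of `A - (A*)⁻¹`. -/

namespace Pool.Agent.H76R

open Matrix TH57.Thr TH6.LF Pool.Agent.Y75.Th

variable {Γ : Type} [Group Γ] {κ : Type} [Fintype κ] [DecidableEq κ]

theorem nsq_eq_tr (x : MonoidAlgebra ℤ Γ) : nsq x = (x * bar x).coeff 1 := by
  rw [coeff_mul_bar_one x x _ (Finset.Subset.refl _), nsq_eq x _ (Finset.Subset.refl _)]
  exact Finset.sum_congr rfl fun g _ => sq _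

theorem tr_sum {ι : Type} (s : Finset ι) (f : ι → MonoidAlgebra ℤ Γ) :
    (∑ i ∈ s, f i).coeff 1 = ∑ i ∈ s, (f i).coeff 1 := by
  rw [MonoidAlgebra.coeff_sum, Finsupp.finsetSum_apply]

theorem N_eq_tr (f : κ → MonoidAlgebra ℤ Γ) : N f = (∑ j, f j * bar (f j)).coeff 1 := by
  rw [tr_sum]
  exact Finset.sum_congr rfl fun j _ => nsq_eq_tr _

theorem nsq_sub (x y : MonoidAlgebra ℤ Γ) :
    nsq (x - y) = nsq x + nsq y - 2 * (x * bar y).coeff 1 := by
  rw [sub_eq_add_neg, nsq_add, nsq_neg, bar_neg, mul_neg, MonoidAlgebra.coeff_neg,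
    Finsupp.neg_apply]
  ring

theorem N_comb (f g : κ → MonoidAlgebra ℤ Γ) (l : MonoidAlgebra ℤ Γ) :
    N (fun j => f j - l * g j) = N f + (l * (∑ j, g j * bar (g j)) * bar l).coeff 1
      - 2 * ((∑ j, f j * bar (g j)) * bar l).coeff 1 := by
  unfold N
  rw [Finset.sum_congr rfl fun j _ => nsq_sub (f j) (l * g j), Finset.sum_sub_distrib,
    Finset.sum_add_distrib, ← Finset.mul_sum]
  have h1 : ∑ j, nsq (l * g j) = (l * (∑ j, g j * bar (g j)) * bar l).coeff 1 := by
    rw [Finset.mul_sum, Finset.sum_mul, tr_sum]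
    refine Finset.sum_congr rfl fun j _ => ?_
    rw [nsq_eq_tr, bar_mul]
    simp only [mul_assoc]
  have h2 : ∑ j, (f j * bar (l * g j)).coeff 1 = ((∑ j, f j * bar (g j)) * bar l).coeff 1 := by
    rw [Finset.sum_mul, tr_sum]
    refine Finset.sum_congr rfl fun j _ => ?_
    rw [bar_mul, mul_assoc]
  rw [h1, h2]

theorem Drow {A B : Matrix κ κ (MonoidAlgebra ℤ Γ)} (h : S6 A B) (i : κ) :
    N (fun j => A i j - bar (B j i)) ≤ 4 ∧
    N (fun j => A i j - bar (B j i)) = N (fun j => A i j) + N (fun j => B j i) - 2 := by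
  have h1 := N_sub A B h.ab i
  rw [N_adj_row] at h1
  have h2 : N (fun j => A i j - bar (B j i)) = N (fun j => A i j - adj B i j) := rfl
  have h3 := h.rows i
  rw [h2, h1]
  constructor
  · omega
  · rfl

theorem eq_two {x : MonoidAlgebra ℤ Γ} (h : nsq x ≤ 4) (h1 : x.coeff 1 = 2) :
    x = 2 := by
  classical
  have h2 : (2 : MonoidAlgebra ℤ Γ) = MonoidAlgebra.single 1 2 := by
    have : (2 : MonoidAlgebra ℤ Γ) = 1 + 1 := by norm_num
    rw [this, MonoidAlgebra.one_def, ← MonoidAlgebra.single_add]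
    norm_num
  rw [h2]
  ext g
  rw [MonoidAlgebra.coeff_single, Finsupp.single_apply]
  split_ifs with hg
  · rw [← hg, h1]
  · have h3 := two_coeff_sq_le x 1 g hg
    rw [h1] at h3
    have h4 := sq_nonneg (x.coeff g)
    have h5 : x.coeff g ^ 2 = 0 := by omega
    simpa using h5

/-- the consequences of a coefficient two -/
structure TwoAt (A B : Matrix κ κ (MonoidAlgebra ℤ Γ)) (i : κ) : Prop extends S6 A B where
  ii : A i i = bar (B i i) + 2
  ij : ∀ j, j ≠ i → A i j = bar (B j i)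
  full : N (fun j => A i j) + N (fun j => B j i) = 6

theorem TwoAt.mk' {A B : Matrix κ κ (MonoidAlgebra ℤ Γ)} (h : S6 A B) (i : κ)
    (h2 : (A i i).coeff 1 - (B i i).coeff 1 = 2) : TwoAt A B i := by
  have r1 := (Drow h i).1
  have r2 := (Drow h i).2
  have e1 : (A i i - bar (B i i)).coeff 1 = 2 := by
    rw [coeff_sub', coeff_bar, inv_one]; exact h2
  have e2 := coeff_sq_le (A i i - bar (B i i)) 1
  rw [e1] at e2
  have e3 : nsq (A i i - bar (B i i)) ≤ N (fun j => A i j - bar (B j i)) :=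
    nsq_le_N (fun j => A i j - bar (B j i)) i
  have e4 := eq_two (by omega) e1
  refine { toS6 := h, ii := ?_, ij := ?_, full := ?_ }
  · rw [← e4]; abel
  · intro j hj
    have e5 : nsq (A i j - bar (B j i)) + nsq (A i i - bar (B i i))
        ≤ N (fun j => A i j - bar (B j i)) :=
      two_nsq_le_N (fun j => A i j - bar (B j i)) j i hj
    have e6 := nsq_nonneg (A i j - bar (B j i))
    exact sub_eq_zero.1 (nsq_eq_zero (by omega))
  · omega

theorem bar_two : bar (2 : MonoidAlgebra ℤ Γ) = 2 := by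
  have : (2 : MonoidAlgebra ℤ Γ) = 1 + 1 := by norm_num
  rw [this, bar_add, bar_one]

theorem TwoAt.L1 {A B : Matrix κ κ (MonoidAlgebra ℤ Γ)} {i : κ} (h : TwoAt A B i) (x : κ) :
    ∑ j, A x j * bar (A i j) = (1 : Matrix κ κ (MonoidAlgebra ℤ Γ)) x i + A x i * 2 := by
  have h1 : ∀ j, A x j * bar (A i j) = A x j * B j i + if j = i then A x i * 2 else 0 := by
    intro j
    by_cases hj : j = i
    · subst hj
      rw [if_pos rfl, h.ii, bar_add, bar_bar, bar_two, mul_add]
    · rw [if_neg hj, h.ij j hj, bar_bar, add_zero]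
  rw [Finset.sum_congr rfl fun j _ => h1 j, Finset.sum_add_distrib, ← Matrix.mul_apply, h.ab]
  simp

theorem TwoAt.rowN {A B : Matrix κ κ (MonoidAlgebra ℤ Γ)} {i : κ} (h : TwoAt A B i)
    (h1 : A i i = 1) (x : {x : κ // x ≠ i}) :
    N (fun y => pvA A i x y) + N (fun y => rsB B i y x)
      = N (fun y => A x y) + N (fun y => B y x) - nsq (A x i) - nsq (B i x) := by
  have e1 := N_comb (fun y => A x y) (fun y => A i y) (A x i)
  have e2 := h.L1 i
  have e3 := h.L1 x
  rw [h1, Matrix.one_apply_eq, one_mul] at e2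
  rw [Matrix.one_apply_ne x.2, zero_add] at e3
  simp only [e2, e3] at e1
  have e4 : (A x i * (1 + 2) * bar (A x i)).coeff 1 = 3 * nsq (A x i) := by
    rw [nsq_eq_tr]
    have : A x i * (1 + 2) * bar (A x i) = A x i * bar (A x i) + A x i * bar (A x i)
        + A x i * bar (A x i) := by noncomm_ring
    rw [this, coeff_add', coeff_add']; ring
  have e5 : (A x i * 2 * bar (A x i)).coeff 1 = 2 * nsq (A x i) := by
    rw [nsq_eq_tr]
    have : A x i * 2 * bar (A x i) = A x i * bar (A x i) + A x i * bar (A x i) := by noncomm_ring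
    rw [this, coeff_add']; ring
  rw [e4, e5] at e1
  have e6 := N_spl i (fun y => A x y - A x i * A i y)
  rw [h1, mul_one, sub_self, nsq_zero, zero_add] at e6
  have e7 := N_spl i (fun y => B y x)
  change N (fun y : {x : κ // x ≠ i} => A x y - A x i * A i y)
    + N (fun y : {x : κ // x ≠ i} => B y x) = _
  rw [e6] at e1
  omega

theorem TwoAt.pvS6 {A B : Matrix κ κ (MonoidAlgebra ℤ Γ)} {i : κ} (h : TwoAt A B i)
    (h1 : A i i = 1) : S6 (pvA A i) (rsB B i) where
  toIP := h.toIP.pv i h1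
  rows x := by
    rw [h.rowN h1 x]
    have := h.rows x
    have := nsq_nonneg (A x i)
    have := nsq_nonneg (B i x)
    omega

theorem nsq_pt {t : Γ} (h1 : t ≠ 1) (h5 : t ^ 5 = 1) : nsq (pt t) = 3 := by
  classical
  have h2 : t ≠ t⁻¹ := by
    intro h
    apply h1
    have h3 : t ^ 2 = 1 := by
      rw [pow_two]; nth_rewrite 2 [h]; rw [mul_inv_cancel]
    have : t = t ^ 5 * (t ^ 2)⁻¹ * (t ^ 2)⁻¹ := by group
    rw [this, h3, h5]; simp
  have h3 : t⁻¹ ≠ 1 := by simpa using h1
  have hc : ∀ g, (pt t).coeff g = (if 1 = g then 1 else 0) - (if t = g then 1 else 0)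
      - (if t⁻¹ = g then 1 else 0) := by
    intro g
    unfold pt
    rw [coeff_sub', coeff_sub', MonoidAlgebra.coeff_single, MonoidAlgebra.coeff_single,
      MonoidAlgebra.coeff_single, Finsupp.single_apply, Finsupp.single_apply, Finsupp.single_apply]
  rw [nsq_eq (pt t) {1, t, t⁻¹}]
  · rw [Finset.sum_insert (by simp [Ne.symm h1, Ne.symm h3]), Finset.sum_pair h2, hc, hc, hc]
    rw [if_pos rfl, if_neg h1, if_neg h3, if_neg (Ne.symm h1), if_pos rfl, if_neg (Ne.symm h2),
      if_neg (Ne.symm h3), if_neg h2, if_pos rfl]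
    norm_num
  · intro g hg
    rw [Finsupp.mem_support_iff, hc] at hg
    by_contra hcon
    apply hg
    simp only [Finset.mem_insert, Finset.mem_singleton, not_or] at hcon
    rw [if_neg (Ne.symm hcon.1), if_neg (Ne.symm hcon.2.1), if_neg (Ne.symm hcon.2.2)]
    norm_num

theorem Pent.nsq {A B : Matrix κ κ (MonoidAlgebra ℤ Γ)} {t : Γ} {i j : κ} {g : Γ} {ε : ℤ}
    (h1 : t ≠ 1) (h5 : t ^ 5 = 1) (hε : ε ^ 2 = 1)
    (hA : A i j = pt t * MonoidAlgebra.single g ε)
    (hB : B j i = MonoidAlgebra.single g⁻¹ ε * pt (t ^ 2)) :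
    nsq (A i j) = 3 ∧ nsq (B j i) = 3 := by
  rw [hA, hB, nsq_mul_single _ _ hε, nsq_single_mul _ _ hε, nsq_pt h1 h5,
    nsq_pt (pow2_ne h1 h5) (pow2_pow5 h5)]
  exact ⟨rfl, rfl⟩

theorem TwoAt.pvPent {A B : Matrix κ κ (MonoidAlgebra ℤ Γ)} {i : κ} (h : TwoAt A B i)
    (h1 : A i i = 1) (t : Γ) (hp : Pent (pvA A i) (rsB B i) t) : Pent A B t := by
  obtain ⟨p1, p5, x, y, g, ε, hε, hA, hB⟩ := hp
  have n1 := Pent.nsq p1 p5 hε hA hB
  have n2 := h.rowN h1 x
  have n3 := nsq_le_N (fun y => pvA A i x y) y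
  have n4 := nsq_le_N (fun y => rsB B i y x) y
  have n5 := h.rows x
  have n6 := nsq_nonneg (A x i)
  have n8 := nsq_nonneg (B i x)
  have n7 : A x i = 0 := nsq_eq_zero (by
    have := n1.1
    have := n1.2
    omega)
  refine ⟨p1, p5, x, y, g, ε, hε, ?_, hB⟩
  rw [← hA]
  unfold pvA
  rw [n7, zero_mul, sub_zero]

theorem bar_self_of_two {x y : MonoidAlgebra ℤ Γ} (h : x * 2 = y * 2) : x = y := by
  ext g
  have h1 : (x * 2).coeff g = (y * 2).coeff g := by rw [h]
  have h2 : ∀ z : MonoidAlgebra ℤ Γ, (z * 2).coeff g = 2 * z.coeff g := by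
    intro z
    have : z * 2 = z + z := by noncomm_ring
    rw [this, coeff_add']; ring
  rw [h2, h2] at h1
  omega

/-- the step when there is a coefficient two on the diagonal -/
theorem TwoAt.step {A B : Matrix κ κ (MonoidAlgebra ℤ Γ)} {i : κ} (h : TwoAt A B i)
    {U : Subgroup (MonoidAlgebra ℤ Γ)ˣ} (hU : UC U) {n : ℕ} (ih : IH U n)
    (hc : Fintype.card κ ≤ n + 1) (hG : Good U A B) : Tm U A := by
  classical
  have e2 := h.L1 i
  rw [Matrix.one_apply_eq] at e2
  have n1 : N (fun j => A i j) = 1 + 2 * (A i i).coeff 1 := by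
    rw [N_eq_tr, e2]
    have : A i i * 2 = A i i + A i i := by noncomm_ring
    rw [this, coeff_add', coeff_add', MonoidAlgebra.one_def, MonoidAlgebra.coeff_single,
      Finsupp.single_eq_same]
    ring
  have n2 := coeff_sq_le (A i i) 1
  have n3 : nsq (A i i) ≤ N (fun j => A i j) := nsq_le_N (fun j => A i j) i
  set a := (A i i).coeff 1 with ha
  have ha3 : a = 0 ∨ a = 1 ∨ a = 2 := by
    have h4 : a ^ 2 ≤ 1 + 2 * a := by omega
    have h5 : 0 ≤ a := by nlinarith
    have h6 : a ≤ 2 := by nlinarith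
    omega
  rcases ha3 with ha3 | ha3 | ha3
  · exact step_row hU ih hc h.toS6 hG i (by rw [n1, ha3]; norm_num)
  swap
  · have n4 := h.full
    have n5 : N (fun j => B j i) = 1 := by omega
    apply Tm_inv h.toIP
    apply Tm_star hU h.toIP.inv
    refine step_row hU ih hc h.toS6.ad ((hG.inv hU.tu).star hU.tu) i ?_
    rw [N_adj_row]
    exact n5
  by_cases h1 : A i i = 1
  · exact Tm_pv h.toIP i h1 (ih _ (card_ne_le hc i) _ _ (h.pvS6 h1)
      fun t ht => hG t (h.pvPent h1 t ht))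
  -- the special case
  set P := A i i - 1 with hP
  have hAP : A i i = 1 + P := by rw [hP]; abel
  have hP0 : P ≠ 0 := fun h0 => h1 (by rw [hAP, h0, add_zero])
  have hP1 : P.coeff 1 = 0 := by
    rw [hP, coeff_sub', ← ha, ha3, MonoidAlgebra.one_def, MonoidAlgebra.coeff_single,
      Finsupp.single_eq_same]; norm_num
  have hbA : bar (A i i) = A i i := by
    have e3 : bar (∑ j, A i j * bar (A i j)) = ∑ j, A i j * bar (A i j) := by
      rw [bar_sum]
      exact Finset.sum_congr rfl fun j _ => by rw [bar_mul, bar_bar]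
    rw [e2, bar_add, bar_one, bar_mul, bar_two] at e3
    have e4 : bar (A i i) * 2 = A i i * 2 := by
      have e5 : 2 * bar (A i i) = A i i * 2 := add_left_cancel e3
      rw [← e5]; noncomm_ring
    exact bar_self_of_two e4
  have hbP : bar P = P := by rw [hP, bar_sub, bar_one, hbA]
  have hnA : nsq (A i i) = 1 + nsq P := by
    rw [hAP, nsq_add, hbP, one_mul, hP1, MonoidAlgebra.one_def, nsq_single]; ring
  have n4 := N_spl i (fun j => A i j)
  have n5 := N_nonneg (fun x : {x : κ // x ≠ i} => A i x)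
  have n6 := one_le_nsq hP0
  set Q := ∑ j : {x : κ // x ≠ i}, A i j * bar (A i j) with hQ
  have hPQ : P * P + Q = 2 := by
    have e3 := e2
    rw [sum_spl i, ← hQ, hbA, hAP] at e3
    have e4 : (1 + P) * (1 + P) + Q = 1 + P + P + (P * P + Q) := by noncomm_ring
    have e5 : 1 + (1 + P) * 2 = 1 + P + P + 2 := by
      have : (2 : MonoidAlgebra ℤ Γ) = 1 + 1 := by norm_num
      rw [this]; noncomm_ring
    rw [e4, e5] at e3
    exact add_left_cancel e3
  have hr : N (fun x : {x : κ // x ≠ i} => A i x) = 0 ∨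
      N (fun x : {x : κ // x ≠ i} => A i x) = 1 := by
    omega
  rcases hr with hr | hr
  · exfalso
    have hQ0 : Q = 0 := by
      rw [hQ]
      refine Finset.sum_eq_zero fun j _ => ?_
      rw [N_eq_zero hr j, zero_mul]
    rw [hQ0, add_zero] at hPQ
    have h2 := congrArg (MonoidAlgebra.lift ℤ ℤ Γ (1 : Γ →* ℤ)) hPQ
    rw [map_mul, map_ofNat] at h2
    set z := MonoidAlgebra.lift ℤ ℤ Γ (1 : Γ →* ℤ) P
    have h3 : z ≤ 1 := by nlinarith
    have h4 : -1 ≤ z := by nlinarith
    have h5 : z = -1 ∨ z = 0 ∨ z = 1 := by omega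
    rcases h5 with h5 | h5 | h5 <;> rw [h5] at h2 <;> norm_num at h2
  · have n7 : nsq P = 1 := by
      omega
    obtain ⟨t, e, he, hPt⟩ := eq_single_of_nsq_one n7
    obtain ⟨⟨j, hj⟩, s, b, hb, hjs, hjo⟩ := N_one hr
    have htt : t * t = 1 := by
      have h2 := hbP
      rw [hPt, bar_single] at h2
      have h3 : (MonoidAlgebra.single t⁻¹ e : MonoidAlgebra ℤ Γ).coeff t⁻¹
          = (MonoidAlgebra.single t e : MonoidAlgebra ℤ Γ).coeff t⁻¹ := by rw [h2]
      rw [MonoidAlgebra.coeff_single, MonoidAlgebra.coeff_single, Finsupp.single_eq_same,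
        Finsupp.single_apply] at h3
      split_ifs at h3 with h4
      · nth_rewrite 1 [h4]; rw [inv_mul_cancel]
      · rw [h3] at he; norm_num at he
    have hPP : P * P = 1 := by
      rw [hPt, MonoidAlgebra.single_mul_single, htt, ← sq, he, MonoidAlgebra.one_def]
    have hbb : ∀ _ : κ, b * b = 1 := fun _ => by rw [← sq]; exact hb
    have hxj : ∀ x, x ≠ i → A x j * bar (A i j) = A x i * (1 - P) := by
      intro x hx
      have e3 := h.L1 x
      rw [Matrix.one_apply_ne hx, zero_add, sum_spl i, Finset.sum_eq_single (⟨j, hj⟩ : {x // x ≠ i}),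
        hbA] at e3
      · have e4 : A x j * bar (A i j) = A x i * 2 - A x i * A i i := by
          rw [← e3]; abel
        rw [e4, hAP]; noncomm_ring
      · intro y _ hy
        rw [hjo y hy, bar_zero, mul_zero]
      · intro hy
        exact absurd (Finset.mem_univ _) hy
    refine mon_Tm (Equiv.swap i j) (fun _ => s) (fun _ => b) hbb hU ?_
    refine step_rs ih hc (mon_S6 _ _ _ hbb h.toS6) (mon_Good _ _ _ hbb hG) i ?_ ?_
    · unfold mA
      rw [Equiv.swap_apply_left, hjs, MonoidAlgebra.single_mul_single, mul_inv_cancel, hbb i,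
        MonoidAlgebra.one_def]
    · intro x y hx hy
      unfold mA
      rw [Equiv.swap_apply_left]
      have e5 : A x j * MonoidAlgebra.single s⁻¹ b = A x i * (1 - P) := by
        rw [← hxj x hx, hjs, bar_single]
      rw [e5]
      by_cases hyj : y = j
      · subst hyj
        rw [Equiv.swap_apply_right, hAP]
        have e6 : A x i * (1 - P) * ((1 + P) * MonoidAlgebra.single s⁻¹ b)
            = A x i * (1 - P * P) * MonoidAlgebra.single s⁻¹ b := by noncomm_ring
        rw [e6, hPP, sub_self, mul_zero, zero_mul]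
      · rw [Equiv.swap_apply_of_ne_of_ne hy hyj]
        have : A i y = 0 := hjo ⟨y, hy⟩ (fun h => hyj (congrArg Subtype.val h))
        rw [this, zero_mul, mul_zero]

/-- the step when there is a coefficient of modulus at least two -/
theorem step_two {A B : Matrix κ κ (MonoidAlgebra ℤ Γ)} (h : S6 A B)
    {U : Subgroup (MonoidAlgebra ℤ Γ)ˣ} (hU : UC U) {n : ℕ} (ih : IH U n)
    (hc : Fintype.card κ ≤ n + 1) (hG : Good U A B) (i j : κ) (g : Γ)
    (h2 : ¬ ((A i j).coeff g - (B j i).coeff g⁻¹) ^ 2 ≤ 1) : Tm U A := by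
  have h3 := (Drow h i).1
  have h4 : nsq (A i j - bar (B j i)) ≤ N (fun j => A i j - bar (B j i)) :=
    nsq_le_N (fun j => A i j - bar (B j i)) j
  have h5 := coeff_sq_le (A i j - bar (B j i)) g
  rw [coeff_sub', coeff_bar] at h5
  set d := (A i j).coeff g - (B j i).coeff g⁻¹ with hd
  have h6 : d ^ 2 ≤ 4 := by omega
  have h7 : d = 2 ∨ d = -2 := by
    have h8 : d ≤ 2 := by nlinarith
    have h9 : -2 ≤ d := by nlinarith
    have h10 : d = -2 ∨ d = -1 ∨ d = 0 ∨ d = 1 ∨ d = 2 := by omega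
    rcases h10 with h10 | h10 | h10 | h10 | h10 <;> rw [h10] at h2 <;> norm_num at h2 <;> omega
  obtain ⟨e, he, hde⟩ : ∃ e : ℤ, e * e = 1 ∧ e * d = 2 := by
    rcases h7 with h7 | h7
    · exact ⟨1, by norm_num, by rw [h7]; norm_num⟩
    · exact ⟨-1, by norm_num, by rw [h7]; norm_num⟩
  have hee : ∀ _ : κ, e * e = 1 := fun _ => he
  refine mon_Tm (Equiv.swap i j) (fun _ => g) (fun _ => e) hee hU ?_
  refine (TwoAt.mk' (mon_S6 _ _ _ hee h) i ?_).step hU ih hc (mon_Good _ _ _ hee hG)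
  unfold mA mB
  rw [Equiv.swap_apply_left, coeff_smul_right, coeff_smul_left, inv_inv, one_mul, mul_one,
    mul_comm _ e, ← mul_sub]
  exact hde

end Pool.Agent.H76R
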