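import Pool.Agent.H76R.L

set_option autoImplicit false
set_option linter.unusedSectionVars false

/-! The pentagons. -/

namespace Pool.Agent.H76R

open Matrix TH57.Thr TH6.LF Pool.Agent.Y75.Th

variable {Γ : Type} [Group Γ] {κ : Type} [Fintype κ] [DecidableEq κ]

theorem N_two_single (j1 j2 : κ) (g1 g2 : Γ) (e1 e2 : ℤ) (hne : (j1, g1) ≠ (j2, g2))
    (h1 : e1 ^ 2 ≤ 1) (h2 : e2 ^ 2 ≤ 1) :
    N (fun b : κ => (if b = j1 then MonoidAlgebra.single g1 e1 else 0)
      + (if b = j2 then (MonoidAlgebra.single g2 e2 : MonoidAlgebra ℤ Γ) else 0)) ≤ 2 := by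
  classical
  have key : ∀ b : κ, nsq ((if b = j1 then MonoidAlgebra.single g1 e1 else 0)
      + (if b = j2 then (MonoidAlgebra.single g2 e2 : MonoidAlgebra ℤ Γ) else 0))
      ≤ (if b = j1 then 1 else 0) + (if b = j2 then 1 else 0) := by
    intro b
    by_cases hb1 : b = j1
    · by_cases hb2 : b = j2
      · rw [if_pos hb1, if_pos hb2, if_pos hb1, if_pos hb2, nsq_add, nsq_single, nsq_single,
          bar_single, MonoidAlgebra.single_mul_single, MonoidAlgebra.coeff_single,
          Finsupp.single_apply, if_neg]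
        · omega
        · intro h3
          apply hne
          rw [← hb1, ← hb2, mul_inv_eq_one.1 h3]
      · rw [if_pos hb1, if_neg hb2, if_pos hb1, if_neg hb2, add_zero, nsq_single]
        omega
    · by_cases hb2 : b = j2
      · rw [if_neg hb1, if_pos hb2, if_neg hb1, if_pos hb2, zero_add, nsq_single]
        omega
      · rw [if_neg hb1, if_neg hb2, if_neg hb1, if_neg hb2, zero_add, nsq_zero]
        norm_num
  unfold N
  refine le_trans (Finset.sum_le_sum fun b _ => key b) ?_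
  rw [Finset.sum_add_distrib]
  simp

section all2

variable {X Z : Matrix κ κ (MonoidAlgebra ℤ Γ)} (h : All2 X Z)

include h

theorem All2.nA (a : κ) : N (fun b => (1 + X) a b) = 3 := by
  rw [N_one_add_row _ _ (h.dX a), h.xr]; norm_num

theorem All2.nB (a : κ) : N (fun b => (1 - Z) b a) = 3 := by
  rw [N_one_sub_col _ _ (h.dZ a), h.zc]; norm_num

theorem All2.zero_of {p q s t : κ × Γ} (hX : ∀ q, bg X p q ≠ 0 ↔ q = s ∨ q = t) (h1 : q ≠ s)
    (h2 : q ≠ t) : bg X p q = 0 := by
  by_contra h0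
  rcases (hX q).1 h0 with h3 | h3
  · exact h1 h3
  · exact h2 h3

theorem All2.zero_of' {p q s t : κ × Γ} (hX : ∀ q, bg Z p q ≠ 0 ↔ q = s ∨ q = t) (h1 : q ≠ s)
    (h2 : q ≠ t) : bg Z p q = 0 := by
  by_contra h0
  rcases (hX q).1 h0 with h3 | h3
  · exact h1 h3
  · exact h2 h3

/-- the symmetry of a pentagon -/
theorem All2.pen_sym {r s t x y : κ × Γ}
    (hP : Pen (fun p q => bg X p q ≠ 0) (fun p q => bg Z p q ≠ 0) r s t x y) :
    bg X s r = bg X r s := by
  have z1 : bg Z x r ≠ 0 := (hP.Zx r).2 (Or.inl rfl)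
  have z2 : bg Z x s ≠ 0 := (hP.Zx s).2 (Or.inr rfl)
  have e1 := h.eqZ hP.rs z1 z2 r
  have e2 := h.eqZ hP.rs z1 z2 s
  have n1 : bg X x r = 0 := h.zero_of hP.Xx hP.ry hP.rt
  have n2 : bg X x s = 0 := h.zero_of hP.Xx hP.sy hP.st
  rw [n1, h.dX', mul_zero, zero_sub, zero_add] at e1
  rw [n2, h.dX', mul_zero, zero_sub, add_zero] at e2
  have s1 := h.sqZ z1
  have s2 := h.sqZ z2
  have f1 : bg X s r = -(bg Z x r * bg Z x s) := by
    have : bg Z x s * (bg Z x s * bg X s r) = bg Z x s ^ 2 * bg X s r := by ring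
    rw [← e1, s2, one_mul] at this
    linarith
  have f2 : bg X r s = -(bg Z x r * bg Z x s) := by
    have : bg Z x r * (bg Z x r * bg X r s) = bg Z x r ^ 2 * bg X r s := by ring
    rw [← e2, s1, one_mul] at this
    linarith
  rw [f1, f2]

/-- the rows of the pivoted matrix -/
theorem All2.prow (hP : ∀ r s, bg X r s ≠ 0 → ¬ bg Z r s ≠ 0) {i : κ}
    (a : {x : κ // x ≠ i}) (ha : X a i ≠ 0) : N (fun b => pvA (1 + X) i a b) ≤ 2 := by
  classical
  obtain ⟨g, hg⟩ : ∃ g, (X a i).coeff g ≠ 0 := by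
    by_contra hcon
    push Not at hcon
    apply ha
    ext g
    rw [hcon g]; rfl
  set r : κ × Γ := ((a : κ), 1) with hr
  set s : κ × Γ := (i, g) with hs
  have bgr : ∀ q : κ × Γ, bg X r q = (X a q.1).coeff q.2 := by
    intro q
    unfold bg
    rw [hr]
    dsimp only
    rw [inv_one, one_mul]
  have hrs : bg X r s ≠ 0 := by rw [bgr]; exact hg
  obtain ⟨t, hst, hX⟩ := two_with (h.PC.rx r) hrs
  obtain ⟨x, y, hPen⟩ := h.PC.pent hst hX (hP _ _ hrs) (hP _ _ ((hX t).2 (Or.inr rfl)))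
  have hti : t.1 ≠ i := by
    intro hti
    set γ : Γ := t.2 * g⁻¹ with hγ
    have hγs : sh γ s = t := by
      unfold sh
      refine Prod.ext hti.symm ?_
      change t.2 * g⁻¹ * g = t.2
      group
    have hγ1 : γ ≠ 1 := by
      intro h1
      apply hst
      rw [← hγs, h1]
      unfold sh
      simp
    have tr : ∀ p q, bg X p q ≠ 0 → bg X (sh γ p) (sh γ q) ≠ 0 := fun p q h1 => by
      rw [bg_sh]; exact h1
    have k1 := tr s y ((hPen.Xs y).2 (Or.inl rfl))
    have k2 := tr s r ((hPen.Xs r).2 (Or.inr rfl))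
    rw [hγs] at k1 k2
    have k3 := (hPen.Xt _).1 k1
    have k4 := (hPen.Xt _).1 k2
    have k5 : sh γ r = x := by
      rcases k4 with k4 | k4
      · exact k4
      · exact absurd k4 (sh_ne hγ1 _)
    have k6 : sh γ y = r := by
      rcases k3 with k3 | k3
      · exfalso
        rw [← k5] at k3
        exact hPen.ry (sh_inj k3).symm
      · exact k3
    have k7 := tr r t ((hPen.Xr t).2 (Or.inr rfl))
    rw [k5] at k7
    have k8 : sh γ t = y := by
      rcases (hPen.Xx _).1 k7 with k8 | k8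
      · exact k8
      · exact absurd k8 (sh_ne hγ1 _)
    have k9 : r.1 = i := by
      have : r = sh γ (sh γ t) := by rw [k8, k6]
      rw [this]
      exact hti
    exact a.2 k9
  set ε := bg X r s with hε
  have hsr : bg X s r = ε := h.pen_sym hPen
  have hε2 : ε * ε = 1 := by rw [← sq]; exact h.sqX hrs
  have hXai : X a i = MonoidAlgebra.single g ε := by
    ext m
    rw [MonoidAlgebra.coeff_single, Finsupp.single_apply]
    by_cases hgm : g = m
    · rw [if_pos hgm, ← hgm, hε, bgr]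
    · rw [if_neg hgm]
      have h1 : bg X r (i, m) = 0 := h.zero_of hX
        (fun h2 => hgm (by rw [hs, Prod.mk.injEq] at h2; exact h2.2.symm))
        (fun h2 => hti (by rw [← h2]))
      rw [bgr] at h1
      exact h1
  set F : κ → MonoidAlgebra ℤ Γ := fun b =>
    (if b = t.1 then MonoidAlgebra.single t.2 (bg X r t) else 0)
      + (if b = y.1 then MonoidAlgebra.single y.2 (-(ε * bg X s y)) else 0) with hF
  have hcoef : ∀ (u : κ × Γ) (e : ℤ) (b : κ) (m : Γ),
      ((if b = u.1 then MonoidAlgebra.single u.2 e else 0 : MonoidAlgebra ℤ Γ)).coeff m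
        = if (b, m) = u then e else 0 := by
    intro u e b m
    by_cases hb : b = u.1
    · rw [if_pos hb, MonoidAlgebra.coeff_single, Finsupp.single_apply]
      by_cases hm : u.2 = m
      · rw [if_pos hm, if_pos (Prod.ext hb hm.symm)]
      · rw [if_neg hm, if_neg (fun h1 => hm (by rw [← h1]))]
    · rw [if_neg hb, if_neg (fun h1 => hb (by rw [← h1]))]
      rfl
  have hpv : ∀ b : {x : κ // x ≠ i}, pvA (1 + X) i a b = F b := by
    intro b
    ext m
    have e1 : (1 + X) (a : κ) i = MonoidAlgebra.single g ε := by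
      rw [Matrix.add_apply, Matrix.one_apply_ne a.2, zero_add, hXai]
    have e2 : (1 + X) i (b : κ) = X i b := by
      rw [Matrix.add_apply, Matrix.one_apply_ne (Ne.symm b.2), zero_add]
    have e3 : ((1 : Matrix κ κ (MonoidAlgebra ℤ Γ)) (a : κ) (b : κ)).coeff m
        = if ((b : κ), m) = r then 1 else 0 := by
      by_cases hab : (a : κ) = b
      · rw [← hab, Matrix.one_apply_eq, MonoidAlgebra.one_def, MonoidAlgebra.coeff_single,
          Finsupp.single_apply]
        by_cases hm : 1 = m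
        · rw [if_pos hm, if_pos (by rw [hr, hm])]
        · rw [if_neg hm, if_neg (fun h1 => hm (by rw [hr, Prod.mk.injEq] at h1; exact h1.2.symm))]
      · rw [Matrix.one_apply_ne hab, if_neg (fun h1 => hab (by
          rw [hr, Prod.mk.injEq] at h1; exact h1.1.symm))]
        rfl
    have e4 : (X i b).coeff (g⁻¹ * m) = bg X s (b, m) := rfl
    unfold pvA
    rw [e1, e2, coeff_sub', Matrix.add_apply, coeff_add', e3, coeff_smul_left, e4, hF]
    dsimp only
    rw [coeff_add', hcoef t, hcoef y, ← bgr (b, m)]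
    set q : κ × Γ := ((b : κ), m) with hq
    have hqs : q ≠ s := fun h1 => b.2 (by rw [hq, hs, Prod.mk.injEq] at h1; exact h1.1)
    by_cases hqr : q = r
    · rw [if_pos hqr, hqr, h.dX', hsr, if_neg hPen.rt, if_neg hPen.ry, hε2]; norm_num
    · rw [if_neg hqr]
      by_cases hqt : q = t
      · rw [hqt, if_pos rfl, if_neg hPen.ty,
          h.zero_of hPen.Xs hPen.ty hPen.rt.symm]
        ring
      · rw [h.zero_of hX hqs hqt, if_neg hqt]
        by_cases hqy : q = y
        · rw [hqy, if_pos rfl]; ring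
        · rw [if_neg hqy, h.zero_of hPen.Xs hqy hqr]; ring
  have hN : N (fun b => pvA (1 + X) i a b) = N (fun b : {x : κ // x ≠ i} => F b) :=
    Finset.sum_congr rfl fun b _ => congrArg nsq (hpv b)
  rw [hN]
  refine le_trans (N_res_le i F) ?_
  rw [hF]
  refine N_two_single _ _ _ _ _ _ (fun h1 => hPen.ty ?_) ?_ ?_
  · rw [Prod.mk.injEq] at h1
    exact Prod.ext h1.1 h1.2
  · exact h.bX _ _ _
  · rw [neg_sq, mul_pow]
    have h1 := h.sqX hrs
    have h2 : bg X s y ^ 2 ≤ 1 := h.bX _ _ _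
    rw [← hε] at h1
    rw [h1, one_mul]; exact h2

theorem All2.prow3 (hP : ∀ r s, bg X r s ≠ 0 → ¬ bg Z r s ≠ 0) {i : κ}
    (a : {x : κ // x ≠ i}) : N (fun b => pvA (1 + X) i a b) ≤ 3 := by
  by_cases ha : X a i = 0
  · have h1 : ∀ b : {x : κ // x ≠ i}, pvA (1 + X) i a b = (1 + X) a b := by
      intro b
      unfold pvA
      have e1 : (1 + X) (a : κ) i = 0 := by
        rw [Matrix.add_apply, Matrix.one_apply_ne a.2, zero_add, ha]
      rw [e1, zero_mul, sub_zero]
    have h2 := N_res_le i (fun b => (1 + X) a b)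
    rw [h.nA] at h2
    have h3 : N (fun b => pvA (1 + X) i a b) = N (fun b : {x : κ // x ≠ i} => (1 + X) a b) :=
      Finset.sum_congr rfl fun b _ => congrArg nsq (h1 b)
    rw [h3]; exact h2
  · exact le_trans (h.prow hP a ha) (by norm_num)

/-- the pentagon pivot -/
theorem All2.pent_step (hP : ∀ r s, bg X r s ≠ 0 → ¬ bg Z r s ≠ 0) {i : κ} (hi : X i i = 0)
    {U : Subgroup (MonoidAlgebra ℤ Γ)ˣ} {n : ℕ} (ih : IH U n)
    (hcard : Fintype.card κ ≤ n + 1) (hG : Good U (1 + X) (1 - Z)) : Tm U (1 + X) := by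
  have hii : (1 + X) i i = 1 := by rw [Matrix.add_apply, Matrix.one_apply_eq, hi, add_zero]
  refine Tm_pv h.S6.toIP i hii (ih _ (card_ne_le hcard i) _ (rsB (1 - Z) i)
    ⟨h.S6.toIP.pv i hii, fun a => ?_⟩ ?_)
  · have r1 := h.prow3 hP a
    have r2 := N_res_le i (fun b => (1 - Z) b a)
    rw [h.nB] at r2
    change N (fun b => pvA (1 + X) i a b) + N (fun b : {x : κ // x ≠ i} => (1 - Z) b a) ≤ 6
    omega
  · rintro t ⟨p1, p5, a, b, g, ε, hε, hA, hB⟩
    have n1 := Pent.nsq p1 p5 hε hA hB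
    have n2 := nsq_le_N (fun b => pvA (1 + X) i a b) b
    have n3 : X a i = 0 := by
      by_contra h0
      have := h.prow hP a h0
      have := n1.1
      omega
    refine hG t ⟨p1, p5, a, b, g, ε, hε, ?_, hB⟩
    rw [← hA]
    unfold pvA
    have e1 : (1 + X) (a : κ) i = 0 := by
      rw [Matrix.add_apply, Matrix.one_apply_ne a.2, zero_add, n3]
    rw [e1, zero_mul, sub_zero]

/-- the pentagon unit -/
theorem All2.unit_row (hP : ∀ r s, bg X r s ≠ 0 → ¬ bg Z r s ≠ 0) {i : κ} (hi : X i i ≠ 0) :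
    ∃ τ : Γ, τ ≠ 1 ∧ τ ^ 5 = 1 ∧ (1 + X) i i = pt τ ∧ ∀ a, a ≠ i → X i a = 0 := by
  classical
  obtain ⟨τ, hτ⟩ : ∃ g, (X i i).coeff g ≠ 0 := by
    by_contra hcon
    push Not at hcon
    apply hi
    ext g
    rw [hcon g]; rfl
  set r : κ × Γ := (i, 1) with hr
  set s : κ × Γ := (i, τ) with hs
  have bgr : ∀ q : κ × Γ, bg X r q = (X i q.1).coeff q.2 := by
    intro q
    unfold bg
    rw [hr]
    dsimp only
    rw [inv_one, one_mul]
  have hrs : bg X r s ≠ 0 := by rw [bgr]; exact hτ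
  obtain ⟨t, hst, hX⟩ := two_with (h.PC.rx r) hrs
  have hrt : bg X r t ≠ 0 := (hX t).2 (Or.inr rfl)
  obtain ⟨x, y, hPen⟩ := h.PC.pent hst hX (hP _ _ hrs) (hP _ _ hrt)
  have hτ1 : τ ≠ 1 := by
    intro h1
    apply hPen.rs
    rw [hr, hs, h1]
  have hτr : sh τ r = s := by unfold sh; rw [hr, hs]; simp
  have tr : ∀ p q, bg X p q ≠ 0 → bg X (sh τ p) (sh τ q) ≠ 0 := fun p q h1 => by
    rw [bg_sh]; exact h1
  have tz : ∀ p q, bg Z p q ≠ 0 → bg Z (sh τ p) (sh τ q) ≠ 0 := fun p q h1 => by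
    rw [bg_sh]; exact h1
  have k1 := tr r s hrs
  have k2 := tr r t hrt
  have k3 := tz r x ((hPen.Zr x).2 (Or.inl rfl))
  have k4 := tz r y ((hPen.Zr y).2 (Or.inr rfl))
  rw [hτr] at k1 k2 k3 k4
  have hx : sh τ x = t := by
    rcases (hPen.Zs _).1 k3 with k | k
    · exact k
    · exact absurd k (sh_ne hτ1 _)
  have hy : sh τ y = x := by
    rcases (hPen.Zs _).1 k4 with k | k
    · exfalso
      rw [← hx] at k
      exact hPen.xy (sh_inj k).symm
    · exact k
  have hsy : sh τ s = y := by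
    rcases (hPen.Xs _).1 k1 with k | k
    · exact k
    · exfalso
      have k5 : sh τ t = y := by
        rcases (hPen.Xs _).1 k2 with k5 | k5
        · exact k5
        · exfalso
          rw [← k] at k5
          exact hPen.st (sh_inj k5).symm
      -- `τ² = 1`
      have k6 : τ * τ = 1 := by
        have := congrArg Prod.snd k
        exact this
      have k7 : sh τ y = t := by
        rw [← k5]
        unfold sh
        refine Prod.ext rfl ?_
        change τ * (τ * t.2) = t.2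
        rw [← mul_assoc, k6, one_mul]
      rw [hy] at k7
      exact hPen.tx k7.symm
  have htr : sh τ t = r := by
    rcases (hPen.Xs _).1 k2 with k | k
    · exfalso
      rw [← hsy] at k
      exact hPen.st (sh_inj k).symm
    · exact k
  have ht2 : t.2 = τ⁻¹ := by
    have : τ * t.2 = 1 := congrArg Prod.snd htr
    exact eq_inv_of_mul_eq_one_right this
  have ht1 : t.1 = i := congrArg Prod.fst htr
  have hτ5 : τ ^ 5 = 1 := by
    have e1 : y.2 = τ * τ := (congrArg Prod.snd hsy).symm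
    have e2 : x.2 = τ * y.2 := (congrArg Prod.snd hy).symm
    have e3 : t.2 = τ * x.2 := (congrArg Prod.snd hx).symm
    have e4 : τ * t.2 = 1 := congrArg Prod.snd htr
    rw [e3, e2, e1] at e4
    calc τ ^ 5 = τ * (τ * (τ * (τ * τ))) := by simp only [pow_succ, pow_zero, one_mul, mul_assoc]
      _ = 1 := e4
  -- signs
  have s1 := h.sqX hrs
  have s2 := h.sqX hrt
  set ε := bg X r s with hε
  set δ := bg X r t with hδ
  have z1 : bg Z s t = bg Z r x := by
    have := bg_sh Z τ r x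
    rw [hτr, hx] at this
    exact this
  have z2 : bg Z s x = bg Z r y := by
    have := bg_sh Z τ r y
    rw [hτr, hy] at this
    exact this
  have z3 : bg Z t s = bg Z r y := by
    have a1 := bg_sh Z τ x r
    have a2 := bg_sh Z τ y t
    have a3 := bg_sh Z τ s x
    rw [hx, hτr] at a1
    rw [hy, htr] at a2
    rw [hsy, hx] at a3
    rw [a1, a2, a3, z2]
  have z4 : bg Z t y = bg Z r x := by
    have a1 := bg_sh Z τ x s
    have a2 := bg_sh Z τ y r
    have a3 := bg_sh Z τ s t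
    rw [hx, hsy] at a1
    rw [hy, hτr] at a2
    rw [hsy, htr] at a3
    rw [a1, a2, a3, z1]
  have e1 := h.eqX hst hrs hrt t
  have e2 := h.eqX hst hrs hrt s
  have e3 := h.eqX hst hrs hrt x
  have e4 := h.eqX hst hrs hrt y
  have o1 : bg Z r t = 0 := h.zero_of' hPen.Zr hPen.tx hPen.ty
  have o2 : bg Z r s = 0 := h.zero_of' hPen.Zr hPen.sx hPen.sy
  have o3 : bg X r x = 0 := h.zero_of hX hPen.sx.symm hPen.tx.symm
  have o4 : bg X r y = 0 := h.zero_of hX hPen.sy.symm hPen.ty.symm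
  have o5 : bg Z t x = 0 := h.zero_of' hPen.Zt hPen.sx.symm hPen.xy
  have o6 : bg Z s y = 0 := h.zero_of' hPen.Zs hPen.ty.symm hPen.xy.symm
  rw [o1, z1, h.dZ', ← hε, ← hδ] at e1
  rw [o2, z3, h.dZ', ← hε, ← hδ] at e2
  rw [o3, z2, o5, ← hε, ← hδ] at e3
  rw [o4, o6, z4, ← hε, ← hδ] at e4
  have small : ∀ z : ℤ, z ^ 2 = 1 → z = 1 ∨ z = -1 := fun z hz => by
    have : (z - 1) * (z + 1) = 0 := by linarith [show (z - 1) * (z + 1) = z ^ 2 - 1 by ring]
    rcases mul_eq_zero.1 this with h1 | h1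
    · left; linarith
    · right; linarith
  have hεδ : ε = -1 ∧ δ = -1 := by
    rcases small _ s1 with h1 | h1 <;> rcases small _ s2 with h2 | h2 <;> rw [h1, h2] at e1 e2 e3 e4 <;>
      refine ⟨?_, ?_⟩ <;> linarith
  refine ⟨τ, hτ1, hτ5, ?_, ?_⟩
  · ext m
    rw [Matrix.add_apply, Matrix.one_apply_eq, coeff_add']
    unfold pt
    rw [coeff_sub', coeff_sub', ← MonoidAlgebra.one_def, sub_sub, sub_eq_add_neg]
    congr 1
    have e5 : (X i i).coeff m = bg X r (i, m) := by rw [bgr]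
    rw [e5, MonoidAlgebra.coeff_single, MonoidAlgebra.coeff_single, Finsupp.single_apply,
      Finsupp.single_apply]
    have hττ : τ ≠ τ⁻¹ := by
      intro h1
      apply hst
      rw [hs]
      exact Prod.ext ht1.symm (by rw [ht2]; exact h1)
    by_cases hm1 : τ = m
    · rw [if_pos hm1, if_neg (fun h1 => hττ (hm1.trans h1.symm)), ← hm1]
      change bg X r s = _
      rw [← hε, hεδ.1]; norm_num
    · by_cases hm2 : τ⁻¹ = m
      · rw [if_neg hm1, if_pos hm2]
        have : ((i, m) : κ × Γ) = t := Prod.ext ht1.symm (by rw [ht2]; exact hm2.symm)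
        rw [this, ← hδ, hεδ.2]; norm_num
      · rw [if_neg hm1, if_neg hm2]
        rw [h.zero_of hX (q := (i, m))]
        · norm_num
        · intro h1
          rw [hs, Prod.mk.injEq] at h1
          exact hm1 h1.2.symm
        · intro h1
          apply hm2
          rw [← ht2, ← h1]
  · intro a ha
    ext m
    have h1 : bg X r (a, m) = 0 := h.zero_of hX
      (fun h2 => ha (by rw [hs, Prod.mk.injEq] at h2; exact h2.1))
      (fun h2 => ha (by rw [← ht1, ← h2]))
    rw [bgr] at h1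
    dsimp only at h1
    rw [h1]; rfl

/-- splitting off a pentagon unit -/
theorem All2.unit_step (hP : ∀ r s, bg X r s ≠ 0 → ¬ bg Z r s ≠ 0) {i : κ} (hi : X i i ≠ 0)
    {U : Subgroup (MonoidAlgebra ℤ Γ)ˣ} {n : ℕ} (ih : IH U n)
    (hcard : Fintype.card κ ≤ n + 1) (hG : Good U (1 + X) (1 - Z)) : Tm U (1 + X) := by
  obtain ⟨τ, hτ1, hτ5, hii, hrow⟩ := h.unit_row hP hi
  set A := 1 + X with hA
  set B := 1 - Z with hB
  have hIP : IP A B := h.S6.toIP
  have hS : S6 A B := h.S6
  have hArow : ∀ a, a ≠ i → A i a = 0 := by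
    intro a ha
    rw [hA, Matrix.add_apply, Matrix.one_apply_ne (Ne.symm ha), zero_add, hrow a ha]
  have hnX : nsq (X i i) = 2 := by
    have h1 := N_spl i (fun a => X i a)
    rw [h.xr] at h1
    have h2 : N (fun x : {x : κ // x ≠ i} => X i x) = 0 :=
      Finset.sum_eq_zero fun x _ => by
        change nsq (X i x) = 0
        rw [hrow x x.2, nsq_zero]
    omega
  have hAcol : ∀ a, a ≠ i → A a i = 0 := by
    intro a ha
    have h1 : nsq (X a i) + nsq (X i i) ≤ N (fun a => X a i) :=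
      two_nsq_le_N (fun a => X a i) a i ha
    rw [h.xc, hnX] at h1
    have h2 := nsq_nonneg (X a i)
    rw [hA, Matrix.add_apply, Matrix.one_apply_ne ha, zero_add]
    exact nsq_eq_zero (by omega)
  have hpp : pt (τ ^ 2) * pt τ = 1 := by
    have := pt_mul (τ ^ 2) (pow2_pow5 hτ5)
    rwa [pt_sqsq hτ5] at this
  have hBii : B i i = pt (τ ^ 2) := by
    have h1 : (A * B) i i = 1 := by rw [hIP.ab, Matrix.one_apply_eq]
    rw [Matrix.mul_apply, Finset.sum_eq_single i (fun b _ hb => by rw [hArow b hb, zero_mul])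
      (fun h => absurd (Finset.mem_univ i) h), hii] at h1
    calc B i i = (pt (τ ^ 2) * pt τ) * B i i := by rw [hpp, one_mul]
      _ = pt (τ ^ 2) * (pt τ * B i i) := by rw [mul_assoc]
      _ = pt (τ ^ 2) := by rw [h1, mul_one]
  let w : (MonoidAlgebra ℤ Γ)ˣ := ⟨pt τ, pt (τ ^ 2), pt_mul τ hτ5, hpp⟩
  have hw : w ∈ U := by
    refine hG τ ⟨hτ1, hτ5, i, i, 1, 1, by norm_num, ?_, ?_⟩ w rfl
    · rw [hii, ← MonoidAlgebra.one_def, mul_one]
    · rw [hBii, inv_one, ← MonoidAlgebra.one_def, one_mul]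
  let D : (Matrix κ κ (MonoidAlgebra ℤ Γ))ˣ := Units.map (dgm i) w
  have hDv : (D : Matrix κ κ (MonoidAlgebra ℤ Γ))
      = Matrix.diagonal (Function.update 1 i (pt τ)) := rfl
  have hDi : ((D⁻¹ : (Matrix κ κ (MonoidAlgebra ℤ Γ))ˣ) : Matrix κ κ (MonoidAlgebra ℤ Γ))
      = Matrix.diagonal (Function.update 1 i (pt (τ ^ 2))) := rfl
  set A' : Matrix κ κ (MonoidAlgebra ℤ Γ) := ((D⁻¹ : (Matrix κ κ (MonoidAlgebra ℤ Γ))ˣ) :
    Matrix κ κ (MonoidAlgebra ℤ Γ)) * A with hA'
  set B' : Matrix κ κ (MonoidAlgebra ℤ Γ) := B * (D : Matrix κ κ (MonoidAlgebra ℤ Γ)) with hB'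
  have hIP' : IP A' B' := by
    constructor
    · rw [hA', hB', mul_assoc, ← mul_assoc A, hIP.ab, one_mul, Units.inv_mul]
    · rw [hA', hB', mul_assoc, ← mul_assoc (D : Matrix κ κ (MonoidAlgebra ℤ Γ)), Units.mul_inv,
        one_mul, hIP.ba]
  have eA : ∀ x y, x ≠ i → A' x y = A x y := by
    intro x y hx
    rw [hA', hDi, Matrix.diagonal_mul, Function.update_of_ne hx, Pi.one_apply, one_mul]
  have eB : ∀ x y, y ≠ i → B' x y = B x y := by
    intro x y hy
    rw [hB', hDv, Matrix.mul_diagonal, Function.update_of_ne hy, Pi.one_apply, mul_one]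
  have hA'ii : A' i i = 1 := by
    rw [hA', hDi, Matrix.diagonal_mul, Function.update_self, hii, hpp]
  have h0 : ∀ a b, a ≠ i → b ≠ i → A' a i * A' i b = 0 := by
    intro a b ha _
    rw [eA a i ha, hAcol a ha, zero_mul]
  have rA : rsB A' i = rsB A i := by
    ext1 x y
    exact eA _ _ x.2
  have rB : rsB B' i = rsB B i := by
    ext1 x y
    exact eB _ _ y.2
  have hIPr : IP (rsB A i) (rsB B i) := by
    rw [← rA, ← rB]
    have hpv : rsB A' i = pvA A' i := by
      ext1 x y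
      unfold rsB pvA
      rw [h0 x y x.2 y.2, sub_zero]
    rw [hpv]
    exact hIP'.pv i hA'ii
  have hTr : Tm U (rsB A' i) := by
    rw [rA]
    refine ih _ (card_ne_le hcard i) _ (rsB B i) ⟨hIPr, fun a => ?_⟩ (Good_rs hG i)
    · have r1 := hS.rows a
      have r2 := N_res_le i (fun j => A a j)
      have r3 := N_res_le i (fun j => B j a)
      change N (fun x : {x : κ // x ≠ i} => A a x) + N (fun x : {x : κ // x ≠ i} => B x a) ≤ 6
      omega
  have hTA' : Tm U A' := Tm_rs hIP' i hA'ii h0 hTr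
  intro v hv
  have h1 : TT U (D⁻¹ * v) := by
    apply hTA'
    rw [Units.val_mul, hv]
  have h2 : v = D * (D⁻¹ * v) := by group
  rw [h2]
  exact TT_mul _ _ _ (TT_of_mem _ _ (dgm_mem_HH U i w hw)) h1

end all2

/-- all cases of the remaining case -/
theorem All2.final {X Z : Matrix κ κ (MonoidAlgebra ℤ Γ)} (h : All2 X Z)
    {U : Subgroup (MonoidAlgebra ℤ Γ)ˣ} {n : ℕ} (ih : IH U n)
    (hcard : Fintype.card κ ≤ n + 1) (hG : Good U (1 + X) (1 - Z)) : Tm U (1 + X) := by
  rcases isEmpty_or_nonempty κ with hE | hE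
  · intro w _
    have : w = 1 := Units.ext (Subsingleton.elim _ _)
    rw [this]; exact TT_one _
  by_cases h1 : ∃ r s, bg X r s ≠ 0 ∧ bg Z r s ≠ 0
  · obtain ⟨r, s, h2, h3⟩ := h1
    exact h.layer_step h2 h3 ih hcard hG
  push Not at h1
  have hP : ∀ r s, bg X r s ≠ 0 → ¬ bg Z r s ≠ 0 := fun r s h2 h3 => h3 (h1 r s h2)
  have i : κ := Classical.arbitrary κ
  by_cases hi : X i i = 0
  · exact h.pent_step hP hi ih hcard hG
  · exact h.unit_step hP hi ih hcard hG

/-- the induction -/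
theorem main (U : Subgroup (MonoidAlgebra ℤ Γ)ˣ) (hU : UC U) : ∀ n : ℕ, IH U n := by
  intro n
  induction n with
  | zero =>
    intro μ _ _ hc A B _ _ w _
    have : IsEmpty μ := Fintype.card_eq_zero_iff.1 (Nat.le_zero.1 hc)
    have : w = 1 := Units.ext (Subsingleton.elim _ _)
    rw [this]; exact TT_one _
  | succ n ih =>
    intro μ _ _ hc A B h hG
    by_cases h2 : ∀ i j g, ((A i j).coeff g - (B j i).coeff g⁻¹) ^ 2 ≤ 1
    · obtain ⟨σ, a, ε, he, hNF⟩ := normalise h h2
      apply mon_Tm σ a ε he hU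
      have e1 : mA σ a ε A = 1 + (mA σ a ε A - 1) := by abel
      have e2 : mB σ a ε B = 1 - (1 - mB σ a ε B) := by abel
      have hG' := mon_Good σ a ε he hG
      rw [e1] at hG' ⊢
      rw [e2] at hG'
      exact hNF.reduce hU ih hc hG' fun h3 => h3.final ih hc hG'
    · push Not at h2
      obtain ⟨i, j, g, h3⟩ := h2
      exact step_two h hU ih hc hG i j g (not_le.2 h3)

end Pool.Agent.H76R
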