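import Pool.Agent.H76R.F

set_option autoImplicit false
set_option linter.unusedSectionVars false

/-! Operator norms. -/

namespace Pool.Agent.H76R

open Matrix TH57.Thr TH6.LF Pool.Agent.Y75.Th

variable {Γ : Type} [Group Γ] {κ : Type} [Fintype κ] [DecidableEq κ]

theorem toReal_sub' (A B : Matrix κ κ (MonoidAlgebra ℤ Γ)) :
    toReal (A - B) = toReal A - toReal B := by
  ext1 i j
  simp only [toReal, Matrix.map_apply, Matrix.sub_apply, map_sub]

/-- the rows of a matrix of bounded norm -/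
theorem NormLE.row {M : Matrix κ κ (MonoidAlgebra ℤ Γ)} {δ : ℝ} (h : NormLE M δ)
    (y : MonoidAlgebra ℤ Γ) (i : κ) :
    ((N (fun j => y * M i j) : ℤ) : ℝ) ≤ δ ^ 2 * ((nsq y : ℤ) : ℝ) := by
  set E : Matrix κ κ (MonoidAlgebra ℤ Γ) := Matrix.diagonal (fun _ => y) with hE
  have h1 := h (Pi.single i (1 : MonoidAlgebra ℝ Γ) ᵥ* toReal E)
  rw [Matrix.vecMul_vecMul, ← toReal_mul, normSq_row, normSq_row] at h1
  have h2 : N (fun j => (E * M) i j) = N (fun j => y * M i j) := by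
    refine Finset.sum_congr rfl fun j _ => ?_
    dsimp only
    rw [hE, Matrix.diagonal_mul]
  have h3 : N (fun j => E i j) = nsq y := by
    unfold N
    rw [Finset.sum_eq_single i]
    · dsimp only
      rw [hE, Matrix.diagonal_apply_eq]
    · intro j _ hj
      dsimp only
      rw [hE, Matrix.diagonal_apply_ne _ (Ne.symm hj), nsq_zero]
    · intro hi
      exact absurd (Finset.mem_univ i) hi
  rw [h2, h3] at h1
  exact h1

theorem nsq_one : nsq (1 : MonoidAlgebra ℤ Γ) = 1 := by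
  rw [MonoidAlgebra.one_def, nsq_single]; norm_num

theorem NormLE.row1 {M : Matrix κ κ (MonoidAlgebra ℤ Γ)} {δ : ℝ} (h : NormLE M δ)
    (hδ : δ ^ 2 < 5) (i : κ) : N (fun j => M i j) ≤ 4 := by
  have h1 := NormLE.row h 1 i
  simp only [one_mul, nsq_one] at h1
  have h2 : ((N (fun j => M i j) : ℤ) : ℝ) < ((5 : ℤ) : ℝ) := by
    push_cast at h1 ⊢
    linarith
  have h3 := Int.cast_lt.1 h2
  omega

/-- the difference of the two pentagon units -/
theorem pent_diff (t : Γ) (h5 : t ^ 5 = 1) :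
    (1 - MonoidAlgebra.single t 1) * (pt t - pt (t ^ 2)) * (pt t - pt (t ^ 2))
      = (1 - MonoidAlgebra.single t (1 : ℤ)) * 5 := by
  have e2 : (t ^ 2)⁻¹ = t ^ 3 := by
    have : (t ^ 2)⁻¹ = (t ^ 5)⁻¹ * t ^ 3 := by group
    rw [this, h5]; simp
  have e1 : t⁻¹ = t ^ 4 := by
    have : t⁻¹ = (t ^ 5)⁻¹ * t ^ 4 := by group
    rw [this, h5]; simp
  have hT : ∀ n : ℕ, (MonoidAlgebra.single (t ^ n) (1 : ℤ) : MonoidAlgebra ℤ Γ)
      = (MonoidAlgebra.single t 1) ^ n := by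
    intro n
    rw [MonoidAlgebra.single_pow, one_pow]
  set T : MonoidAlgebra ℤ Γ := MonoidAlgebra.single t 1 with hTd
  have hT5 : T ^ 5 = 1 := by
    rw [← hT, h5, MonoidAlgebra.one_def]
  have p1 : pt t = 1 - T - T ^ 4 := by
    unfold pt
    rw [e1, hT, ← MonoidAlgebra.one_def]
  have p2 : pt (t ^ 2) = 1 - T ^ 2 - T ^ 3 := by
    unfold pt
    rw [e2, hT, hT, ← MonoidAlgebra.one_def]
  rw [p1, p2]
  have c : ∀ (m n : ℕ), T ^ m * T ^ n = T ^ (m + n) := fun m n => (pow_add T m n).symm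
  have key : (1 - T) * (1 - T - T ^ 4 - (1 - T ^ 2 - T ^ 3)) * (1 - T - T ^ 4 - (1 - T ^ 2 - T ^ 3))
      - (1 - T) * 5 = (T ^ 5 - 1) * (-T ^ 4 + 3 * T ^ 3 - T ^ 2 - 5 * T + 5)  := by
    noncomm_ring
  rw [hT5, sub_self, zero_mul, sub_eq_zero] at key
  exact key

theorem bar_five : bar (5 : MonoidAlgebra ℤ Γ) = 5 := by
  have : (5 : MonoidAlgebra ℤ Γ) = 1 + 1 + 1 + 1 + 1 := by norm_num
  rw [this]
  simp only [bar_add, bar_one]

theorem coeff_five (x : MonoidAlgebra ℤ Γ) (g : Γ) : (x * 5).coeff g = 5 * x.coeff g := by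
  have : x * 5 = x + x + x + x + x := by noncomm_ring
  rw [this]
  simp only [coeff_add']
  ring

/-- no pentagon entries if the norm is less than `√5` -/
theorem NormLE.noPent {A B : Matrix κ κ (MonoidAlgebra ℤ Γ)} {δ : ℝ} (h : NormLE (A - adj B) δ)
    (hδ : δ ^ 2 < 5) (t : Γ) : ¬ Pent A B t := by
  classical
  rintro ⟨h1, h5, i, j, g, ε, hε, hA, hB⟩
  set y : MonoidAlgebra ℤ Γ := 1 - MonoidAlgebra.single t 1 with hy
  have n1 : nsq y = 2 := by
    rw [hy, nsq_one_sub _ (by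
      rw [MonoidAlgebra.coeff_single, Finsupp.single_apply, if_neg h1]), nsq_single]
    norm_num
  have n2 := NormLE.row h y i
  rw [n1] at n2
  have hD : (A - adj B) i j = (pt t - pt (t ^ 2)) * MonoidAlgebra.single g ε := by
    rw [Matrix.sub_apply, adj_apply, hA, hB, bar_mul, bar_pt, bar_single, inv_inv, sub_mul]
  have n3 : nsq (y * (A - adj B) i j) = 10 := by
    have hb : bar (pt t - pt (t ^ 2)) = pt t - pt (t ^ 2) := by rw [bar_sub, bar_pt, bar_pt]
    rw [hD, ← mul_assoc, nsq_mul_single _ _ hε, nsq_eq_tr, bar_mul, hb]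
    have e1 : y * (pt t - pt (t ^ 2)) * ((pt t - pt (t ^ 2)) * bar y)
        = y * (pt t - pt (t ^ 2)) * (pt t - pt (t ^ 2)) * bar y := by
      simp only [mul_assoc]
    rw [e1, hy, pent_diff t h5, ← hy]
    have e2 : y * 5 * bar y = y * bar y * 5 := by noncomm_ring
    rw [e2, coeff_five, ← nsq_eq_tr, n1]
    norm_num
  have n4 : nsq (y * (A - adj B) i j) ≤ N (fun j => y * (A - adj B) i j) :=
    nsq_le_N (fun j => y * (A - adj B) i j) j
  rw [n3] at n4
  have n5 : ((10 : ℤ) : ℝ) ≤ ((N (fun j => y * (A - adj B) i j) : ℤ) : ℝ) := Int.cast_le.2 n4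
  push_cast at n5 n2
  linarith

/-- **operator norm of `A - (A*)⁻¹`** -/
theorem TT_norm (A : (Matrix κ κ (MonoidAlgebra ℤ Γ))ˣ) (δ : ℝ) (hδ : δ ^ 2 < 5)
    (h : NormLE ((A : Matrix κ κ (MonoidAlgebra ℤ Γ))
      - adj (↑A⁻¹ : Matrix κ κ (MonoidAlgebra ℤ Γ))) δ) : TT (TU Γ) A :=
  TT_rows UC_TU A (fun i => NormLE.row1 h hδ i)
    fun t ht => absurd ht (NormLE.noPent h hδ t)

theorem normSq_sub (x y : κ → MonoidAlgebra ℝ Γ) :
    normSq (x - y) = normSq x - 2 * ip x y + normSq y := by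
  have h1 : x - y = (1 : ℝ) • x + (-1 : ℝ) • y := by
    rw [one_smul, neg_one_smul, sub_eq_add_neg]
  rw [h1, normSq_comb]
  ring

/-- the norm of the difference -/
theorem norm_diff (A A' : Matrix κ κ (MonoidAlgebra ℤ Γ)) (h1 : A * A' = 1) (h2 : A' * A = 1)
    (M : ℝ) (hM : 1 < M) (hA : NormLE A M) (hA' : NormLE A' M) :
    NormLE (A - adj A') (M - M⁻¹) := by
  intro x
  have h3 := norm_pair A A' h1 h2 M hM hA hA' x
  have e3 : toReal A * toReal A' = 1 := by rw [← toReal_mul, h1, toReal_one]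
  have i2 : ip (x ᵥ* toReal A) (x ᵥ* toReal (adj A')) = normSq x := by
    rw [toReal_adj, ← ip_vecMul, Matrix.vecMul_vecMul, e3, Matrix.vecMul_one, ip_self]
  rw [toReal_sub', Matrix.vecMul_sub, normSq_sub, i2]
  have hM0 : M ≠ 0 := by positivity
  have e4 : (M - M⁻¹) ^ 2 = M ^ 2 + (M ^ 2)⁻¹ - 2 := by
    field_simp
    ring
  rw [e4]
  have e5 : (M ^ 2 + (M ^ 2)⁻¹ - 2) * normSq x = (M ^ 2 + (M ^ 2)⁻¹) * normSq x - 2 * normSq x := by
    ring
  rw [e5]
  linarith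

/-- **two-sided norm bound** -/
theorem TT_two (A : (Matrix κ κ (MonoidAlgebra ℤ Γ))ˣ) (c : ℝ) (hc0 : 0 ≤ c)
    (hc : c < (3 + Real.sqrt 5) / 2) (hA : NormLE (A : Matrix κ κ (MonoidAlgebra ℤ Γ)) c)
    (hA' : NormLE (↑A⁻¹ : Matrix κ κ (MonoidAlgebra ℤ Γ)) c) : TT (TU Γ) A := by
  have hs : Real.sqrt 5 ^ 2 = 5 := Real.sq_sqrt (by norm_num)
  have hs1 : 1 < Real.sqrt 5 := by
    rw [show (1 : ℝ) = Real.sqrt 1 by simp]
    exact Real.sqrt_lt_sqrt (by norm_num) (by norm_num)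
  set s := Real.sqrt 5 with hsd
  obtain ⟨M, hM1, hM2, hM3⟩ : ∃ M : ℝ, 1 < M ∧ c ≤ M ∧ M < (3 + s) / 2 := by
    refine ⟨(max c 1 + (3 + s) / 2) / 2, ?_, ?_, ?_⟩
    · have := le_max_right c 1
      linarith
    · have := le_max_left c 1
      linarith
    · have : max c 1 < (3 + s) / 2 := max_lt hc (by linarith)
      linarith
  have up : ∀ B : Matrix κ κ (MonoidAlgebra ℤ Γ), NormLE B c → NormLE B M := fun B hB x =>
    le_trans (hB x) (mul_le_mul_of_nonneg_right (pow_le_pow_left₀ hc0 hM2 2) (normSq_nonneg _))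
  refine TT_norm A (M - M⁻¹) ?_ (norm_diff _ _ A.mul_inv A.inv_mul M hM1 (up _ hA) (up _ hA'))
  have hM0 : 0 < M := by linarith
  have hMi : M * M⁻¹ = 1 := mul_inv_cancel₀ hM0.ne'
  set p := M⁻¹ with hp
  have hp0 : 0 < p := by rw [hp]; positivity
  have hp1 : p < 1 := by nlinarith
  have h1 : 0 < M - p := by linarith
  have h2 : M - p < s := by
    by_contra hcon
    push Not at hcon
    -- `M ≥ p + s`, so `1 = M p ≥ p² + s p`
    have h3 : p ^ 2 + s * p ≤ 1 := by nlinarith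
    have h4 : M ^ 2 - s * M ≥ 1 := by nlinarith
    nlinarith
  nlinarith

end Pool.Agent.H76R
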