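import Pool.Agent.H76R.W

set_option autoImplicit false
set_option linter.unusedSectionVars false

/-! The unit of `ℤ[ℤ/5]`. -/

namespace Pool.Agent.H76R

open Matrix TH57.Thr TH6.LF Pool.Agent.Y75.Th Multiplicative

theorem five_ineq (s : ℝ) (hs : s ^ 2 = 5) (hs0 : 0 ≤ s) (x0 x1 x2 x3 x4 : ℝ) :
    (x4 + x1 - x0) ^ 2 + (x0 + x2 - x1) ^ 2 + (x1 + x3 - x2) ^ 2 + (x2 + x4 - x3) ^ 2
      + (x3 + x0 - x4) ^ 2
      ≤ ((3 + s) / 2) ^ 2 * (x0 ^ 2 + x1 ^ 2 + x2 ^ 2 + x3 ^ 2 + x4 ^ 2) := by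
  have h1 : (7 + 3 * s) / 2 * (x0 ^ 2 + x1 ^ 2 + x2 ^ 2 + x3 ^ 2 + x4 ^ 2)
      - ((x4 + x1 - x0) ^ 2 + (x0 + x2 - x1) ^ 2 + (x1 + x3 - x2) ^ 2 + (x2 + x4 - x3) ^ 2
      + (x3 + x0 - x4) ^ 2)
      = (5 + 3 * s) / 10 * (x0 + x1 + x2 + x3 + x4) ^ 2
        + 12 / 25 * s * (
          (x0 + (s - 1) / 4 * (x1 + x4) + -(s + 1) / 4 * (x2 + x3)) ^ 2
          + (x1 + (s - 1) / 4 * (x2 + x0) + -(s + 1) / 4 * (x3 + x4)) ^ 2
          + (x2 + (s - 1) / 4 * (x3 + x1) + -(s + 1) / 4 * (x4 + x0)) ^ 2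
          + (x3 + (s - 1) / 4 * (x4 + x2) + -(s + 1) / 4 * (x0 + x1)) ^ 2
          + (x4 + (s - 1) / 4 * (x0 + x3) + -(s + 1) / 4 * (x1 + x2)) ^ 2) := by
    linear_combination ((-3/25)*s*x0^2 + (3/50)*s*x0*x1 + (3/50)*s*x0*x2 + (3/50)*s*x0*x3 + (3/50)*s*x0*x4 + (-3/25)*s*x1^2 + (3/50)*s*x1*x2 + (3/50)*s*x1*x3 + (3/50)*s*x1*x4 + (-3/25)*s*x2^2 + (3/50)*s*x2*x3 + (3/50)*s*x2*x4 + (-3/25)*s*x3^2 + (3/50)*s*x3*x4 + (-3/25)*s*x4^2 + (-3/5)*x0*x1 + (3/5)*x0*x2 + (3/5)*x0*x3 + (-3/5)*x0*x4 + (-3/5)*x1*x2 + (3/5)*x1*x3 + (3/5)*x1*x4 + (-3/5)*x2*x3 + (3/5)*x2*x4 + (-3/5)*x3*x4) * hs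
  have h2 : ((3 + s) / 2) ^ 2 = (7 + 3 * s) / 2 := by
    linear_combination (1 / 4) * hs
  rw [h2]
  have h3 : 0 ≤ (5 + 3 * s) / 10 * (x0 + x1 + x2 + x3 + x4) ^ 2
        + 12 / 25 * s * (
          (x0 + (s - 1) / 4 * (x1 + x4) + -(s + 1) / 4 * (x2 + x3)) ^ 2
          + (x1 + (s - 1) / 4 * (x2 + x0) + -(s + 1) / 4 * (x3 + x4)) ^ 2
          + (x2 + (s - 1) / 4 * (x3 + x1) + -(s + 1) / 4 * (x4 + x0)) ^ 2
          + (x3 + (s - 1) / 4 * (x4 + x2) + -(s + 1) / 4 * (x0 + x1)) ^ 2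
          + (x4 + (s - 1) / 4 * (x0 + x3) + -(s + 1) / 4 * (x1 + x2)) ^ 2) := by
    positivity
  linarith

/-- the squared norm over the cyclic group of order five -/
theorem normSq_C5 (x : Fin 1 → MonoidAlgebra ℝ C5) :
    normSq x = (x 0).coeff (ofAdd 0) ^ 2 + (x 0).coeff (ofAdd 1) ^ 2 + (x 0).coeff (ofAdd 2) ^ 2
      + (x 0).coeff (ofAdd 3) ^ 2 + (x 0).coeff (ofAdd 4) ^ 2 := by
  unfold normSq
  rw [Fintype.sum_unique, sum_sq_of_support_subset _ Finset.univ (Finset.subset_univ _)]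
  change ∑ g : Fin 5, (x 0).coeff (ofAdd g) ^ 2 = _
  rw [Fin.sum_univ_five]
  rfl

theorem cmul (y : MonoidAlgebra ℝ C5) (h : C5) (r : ℝ) (g : C5) :
    (y * MonoidAlgebra.single h r).coeff g = y.coeff (g * h⁻¹) * r := by
  rw [MonoidAlgebra.coeff_mul_single_apply]

theorem vecMul_C5 (x : Fin 1 → MonoidAlgebra ℝ C5)
    (A : Matrix (Fin 1) (Fin 1) (MonoidAlgebra ℤ C5)) :
    (x ᵥ* toReal A) 0 = x 0 * MonoidAlgebra.mapRingHom C5 (Int.castRingHom ℝ) (A 0 0) := by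
  simp [Matrix.vecMul, dotProduct, toReal]

theorem uu_norm : NormLE (um : Matrix (Fin 1) (Fin 1) (MonoidAlgebra ℤ C5))
    ((3 + Real.sqrt 5) / 2) := by
  intro x
  rw [normSq_C5, normSq_C5, vecMul_C5]
  have h0 : MonoidAlgebra.mapRingHom C5 (Int.castRingHom ℝ)
      ((um : Matrix (Fin 1) (Fin 1) (MonoidAlgebra ℤ C5)) 0 0)
      = MonoidAlgebra.single (ofAdd 1) 1 + MonoidAlgebra.single (ofAdd 4) 1
        - MonoidAlgebra.single 1 1 := by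
    change MonoidAlgebra.mapRingHom C5 (Int.castRingHom ℝ) uu = _
    unfold uu
    rw [map_sub, map_add]
    simp
  have hc : ∀ g, (x 0 * MonoidAlgebra.mapRingHom C5 (Int.castRingHom ℝ)
      ((um : Matrix (Fin 1) (Fin 1) (MonoidAlgebra ℤ C5)) 0 0)).coeff g
      = (x 0).coeff (g * (ofAdd 1)⁻¹) + (x 0).coeff (g * (ofAdd 4)⁻¹) - (x 0).coeff g := by
    intro g
    rw [h0, mul_sub, mul_add, MonoidAlgebra.coeff_sub, MonoidAlgebra.coeff_add,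
      Finsupp.sub_apply, Finsupp.add_apply, cmul, cmul, cmul]
    simp
  simp only [hc]
  have hs : Real.sqrt 5 ^ 2 = 5 := Real.sq_sqrt (by norm_num)
  have h1 := five_ineq (Real.sqrt 5) hs (Real.sqrt_nonneg 5) ((x 0).coeff (ofAdd 0))
    ((x 0).coeff (ofAdd 1)) ((x 0).coeff (ofAdd 2)) ((x 0).coeff (ofAdd 3)) ((x 0).coeff (ofAdd 4))
  exact h1

theorem vv_norm : NormLE (↑um⁻¹ : Matrix (Fin 1) (Fin 1) (MonoidAlgebra ℤ C5))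
    ((3 + Real.sqrt 5) / 2) := by
  intro x
  rw [normSq_C5, normSq_C5, vecMul_C5]
  have h0 : MonoidAlgebra.mapRingHom C5 (Int.castRingHom ℝ)
      ((↑um⁻¹ : Matrix (Fin 1) (Fin 1) (MonoidAlgebra ℤ C5)) 0 0)
      = MonoidAlgebra.single (ofAdd 2) 1 + MonoidAlgebra.single (ofAdd 3) 1
        - MonoidAlgebra.single 1 1 := by
    change MonoidAlgebra.mapRingHom C5 (Int.castRingHom ℝ) vv = _
    unfold vv
    rw [map_sub, map_add]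
    simp
  have hc : ∀ g, (x 0 * MonoidAlgebra.mapRingHom C5 (Int.castRingHom ℝ)
      ((↑um⁻¹ : Matrix (Fin 1) (Fin 1) (MonoidAlgebra ℤ C5)) 0 0)).coeff g
      = (x 0).coeff (g * (ofAdd 2)⁻¹) + (x 0).coeff (g * (ofAdd 3)⁻¹) - (x 0).coeff g := by
    intro g
    rw [h0, mul_sub, mul_add, MonoidAlgebra.coeff_sub, MonoidAlgebra.coeff_add,
      Finsupp.sub_apply, Finsupp.add_apply, cmul, cmul, cmul]
    simp
  simp only [hc]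
  have hs : Real.sqrt 5 ^ 2 = 5 := Real.sq_sqrt (by norm_num)
  have h1 := five_ineq (Real.sqrt 5) hs (Real.sqrt_nonneg 5) ((x 0).coeff (ofAdd 0))
    ((x 0).coeff (ofAdd 2)) ((x 0).coeff (ofAdd 4)) ((x 0).coeff (ofAdd 1)) ((x 0).coeff (ofAdd 3))
  have e : ∀ a b : C5, (x 0).coeff (a * b⁻¹) = (x 0).coeff (a * b⁻¹) := fun _ _ => rfl
  have t1 : ((x 0).coeff (ofAdd 0 * (ofAdd 2)⁻¹) + (x 0).coeff (ofAdd 0 * (ofAdd 3)⁻¹)
      - (x 0).coeff (ofAdd 0)) = (x 0).coeff (ofAdd (3 : ZMod 5)) + (x 0).coeff (ofAdd 2)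
      - (x 0).coeff (ofAdd 0) := rfl
  have t2 : ((x 0).coeff (ofAdd 1 * (ofAdd 2)⁻¹) + (x 0).coeff (ofAdd 1 * (ofAdd 3)⁻¹)
      - (x 0).coeff (ofAdd 1)) = (x 0).coeff (ofAdd (4 : ZMod 5)) + (x 0).coeff (ofAdd 3)
      - (x 0).coeff (ofAdd 1) := rfl
  have t3 : ((x 0).coeff (ofAdd 2 * (ofAdd 2)⁻¹) + (x 0).coeff (ofAdd 2 * (ofAdd 3)⁻¹)
      - (x 0).coeff (ofAdd 2)) = (x 0).coeff (ofAdd (0 : ZMod 5)) + (x 0).coeff (ofAdd 4)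
      - (x 0).coeff (ofAdd 2) := rfl
  have t4 : ((x 0).coeff (ofAdd 3 * (ofAdd 2)⁻¹) + (x 0).coeff (ofAdd 3 * (ofAdd 3)⁻¹)
      - (x 0).coeff (ofAdd 3)) = (x 0).coeff (ofAdd (1 : ZMod 5)) + (x 0).coeff (ofAdd 0)
      - (x 0).coeff (ofAdd 3) := rfl
  have t5 : ((x 0).coeff (ofAdd 4 * (ofAdd 2)⁻¹) + (x 0).coeff (ofAdd 4 * (ofAdd 3)⁻¹)
      - (x 0).coeff (ofAdd 4)) = (x 0).coeff (ofAdd (2 : ZMod 5)) + (x 0).coeff (ofAdd 1)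
      - (x 0).coeff (ofAdd 4) := rfl
  rw [t1, t2, t3, t4, t5]
  linarith

theorem bar_vv : bar vv = vv := by
  unfold vv
  rw [bar_sub, bar_add, bar_single, bar_single, bar_single]
  have e1 : (ofAdd 2 : C5)⁻¹ = ofAdd 3 := rfl
  have e2 : (ofAdd 3 : C5)⁻¹ = ofAdd 2 := rfl
  rw [e1, e2, inv_one]
  abel

theorem dd_norm : NormLE ((um : Matrix (Fin 1) (Fin 1) (MonoidAlgebra ℤ C5))
    - adj (↑um⁻¹ : Matrix (Fin 1) (Fin 1) (MonoidAlgebra ℤ C5))) (Real.sqrt 5) := by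
  intro x
  rw [normSq_C5, normSq_C5, vecMul_C5]
  have h0 : MonoidAlgebra.mapRingHom C5 (Int.castRingHom ℝ)
      (((um : Matrix (Fin 1) (Fin 1) (MonoidAlgebra ℤ C5))
        - adj (↑um⁻¹ : Matrix (Fin 1) (Fin 1) (MonoidAlgebra ℤ C5))) 0 0)
      = MonoidAlgebra.single (ofAdd 1) 1 + MonoidAlgebra.single (ofAdd 4) 1
        - (MonoidAlgebra.single (ofAdd 2) 1 + MonoidAlgebra.single (ofAdd 3) 1) := by
    change MonoidAlgebra.mapRingHom C5 (Int.castRingHom ℝ) (uu - bar vv) = _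
    rw [bar_vv]
    unfold uu vv
    rw [map_sub, map_sub, map_sub, map_add, map_add]
    simp
  have hc : ∀ g, (x 0 * MonoidAlgebra.mapRingHom C5 (Int.castRingHom ℝ)
      (((um : Matrix (Fin 1) (Fin 1) (MonoidAlgebra ℤ C5))
        - adj (↑um⁻¹ : Matrix (Fin 1) (Fin 1) (MonoidAlgebra ℤ C5))) 0 0)).coeff g
      = (x 0).coeff (g * (ofAdd 1)⁻¹) + (x 0).coeff (g * (ofAdd 4)⁻¹)
        - ((x 0).coeff (g * (ofAdd 2)⁻¹) + (x 0).coeff (g * (ofAdd 3)⁻¹)) := by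
    intro g
    rw [h0, mul_sub, mul_add, mul_add, MonoidAlgebra.coeff_sub, MonoidAlgebra.coeff_add,
      MonoidAlgebra.coeff_add,
      Finsupp.sub_apply, Finsupp.add_apply, Finsupp.add_apply, cmul, cmul, cmul, cmul]
    simp
  simp only [hc]
  have hs : Real.sqrt 5 ^ 2 = 5 := Real.sq_sqrt (by norm_num)
  rw [hs]
  have key : ∀ a b c d e : ℝ, ((e + b) - (d + c)) ^ 2 + ((a + c) - (e + d)) ^ 2
      + ((b + d) - (a + e)) ^ 2 + ((c + e) - (b + a)) ^ 2 + ((d + a) - (c + b)) ^ 2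
      ≤ 5 * (a ^ 2 + b ^ 2 + c ^ 2 + d ^ 2 + e ^ 2) := by
    intro a b c d e
    nlinarith [sq_nonneg (a + b + c + d + e)]
  exact key ((x 0).coeff (ofAdd 0)) ((x 0).coeff (ofAdd 1)) ((x 0).coeff (ofAdd 2))
    ((x 0).coeff (ofAdd 3)) ((x 0).coeff (ofAdd 4))

end Pool.Agent.H76R
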