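import Pool.Agent.H76R.X

set_option autoImplicit false
set_option linter.unusedSectionVars false

/-! The classes of the matrices with short rows. -/

namespace Pool.Agent.H76R

open Matrix TH57.Thr TH6.LF Pool.Agent.Y75.Th
open scoped commutatorElement

section gen

variable {R : Type} [Ring R] (U : Subgroup Rˣ) {κ μ ν : Type} [Fintype κ] [DecidableEq κ]
  [Fintype μ] [DecidableEq μ] [Fintype ν] [DecidableEq ν]

/-- block diagonal units -/
def blk (a : (Matrix κ κ R)ˣ) (b : (Matrix μ μ R)ˣ) : (Matrix (κ ⊕ μ) (κ ⊕ μ) R)ˣ where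
  val := fromBlocks a.val 0 0 b.val
  inv := fromBlocks a⁻¹.val 0 0 b⁻¹.val
  val_inv := by
    rw [fromBlocks_multiply]
    simp [← fromBlocks_one]
  inv_val := by
    rw [fromBlocks_multiply]
    simp [← fromBlocks_one]

theorem blk_val (a : (Matrix κ κ R)ˣ) (b : (Matrix μ μ R)ˣ) :
    (blk a b).val = fromBlocks a.val 0 0 b.val := rfl

theorem blk_mul (a a' : (Matrix κ κ R)ˣ) (b b' : (Matrix μ μ R)ˣ) :
    blk (a * a') (b * b') = blk a b * blk a' b' := by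
  apply Units.ext
  rw [Units.val_mul, blk_val, blk_val, blk_val, fromBlocks_multiply]
  simp

theorem blk_inv (a : (Matrix κ κ R)ˣ) (b : (Matrix μ μ R)ˣ) : (blk a b)⁻¹ = blk a⁻¹ b⁻¹ :=
  Units.ext rfl

theorem TT_blk (a : (Matrix κ κ R)ˣ) (b : (Matrix μ μ R)ˣ) (ha : TT U a) (hb : TT U b) :
    TT U (blk a b) := TT_tri U a b 0 _ rfl ha hb

theorem blk_one_stm (a : (Matrix κ κ R)ˣ) : blk a (1 : (Matrix μ μ R)ˣ) = Units.map (stm μ) a :=
  Units.ext rfl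

theorem TT_blk_right (a : (Matrix κ κ R)ˣ) (b : (Matrix μ μ R)ˣ) (h : TT U (blk a b))
    (hb : TT U b) : TT U a := by
  apply TT_unst (μ := μ) U
  have h1 : Units.map (stm μ) a = blk a b * blk 1 b⁻¹ := by
    rw [← blk_mul, mul_inv_cancel, mul_one]
    exact Units.ext rfl
  rw [h1]
  exact TT_mul U _ _ h (TT_blk U _ _ (TT_one U) (TT_inv U _ hb))

theorem TT_assoc (a : (Matrix κ κ R)ˣ) (b : (Matrix μ μ R)ˣ) (c : (Matrix ν ν R)ˣ)
    (h : TT U (blk (blk a b) c)) : TT U (blk a (blk b c)) := by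
  have h1 := TT_re U (Equiv.sumAssoc κ μ ν).symm _ h
  convert h1 using 1
  apply Units.ext
  ext (i | i | i) (j | j | j) <;> simp [re, blk]

theorem TT_assoc' (a : (Matrix κ κ R)ˣ) (b : (Matrix μ μ R)ˣ) (c : (Matrix ν ν R)ˣ)
    (h : TT U (blk a (blk b c))) : TT U (blk (blk a b) c) := by
  have h1 := TT_re U (Equiv.sumAssoc κ μ ν) _ h
  convert h1 using 1
  apply Units.ext
  ext ((i | i) | i) ((j | j) | j) <;> simp [re, blk]

theorem TT_swap (a : (Matrix κ κ R)ˣ) (b : (Matrix μ μ R)ˣ) (c : (Matrix ν ν R)ˣ)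
    (h : TT U (blk a (blk b c))) : TT U (blk a (blk c b)) := by
  have h1 := TT_re U (Equiv.sumCongr (Equiv.refl κ) (Equiv.sumComm ν μ)) _ h
  convert h1 using 1
  apply Units.ext
  ext (i | i | i) (j | j | j) <;> simp [re, blk]

theorem TT_blk_inv (a : (Matrix κ κ R)ˣ) : TT U (blk a a⁻¹) := by
  have h1 : blk a a⁻¹ = ⁅blk a (1 : (Matrix κ κ R)ˣ), pu (R := R) (Equiv.sumComm κ κ)⁆ := by
    rw [commutatorElement_def]
    have h2 : pu (R := R) (Equiv.sumComm κ κ) * (blk a (1 : (Matrix κ κ R)ˣ))⁻¹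
        * (pu (Equiv.sumComm κ κ))⁻¹ = blk (1 : (Matrix κ κ R)ˣ) a⁻¹ := by
      rw [← re_eq, blk_inv]
      apply Units.ext
      ext (i | i) (j | j) <;> simp [re, blk, Matrix.one_apply]
    rw [mul_assoc, mul_assoc, ← mul_assoc (pu (R := R) (Equiv.sumComm κ κ)), h2, ← blk_mul]
    simp
  rw [h1]
  refine TT_of_mem U _ (commutator_le_HH U ?_)
  rw [commutator_def]
  exact Subgroup.commutator_mem_commutator (Subgroup.mem_top _) (Subgroup.mem_top _)

end gen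

variable {Γ : Type} [Group Γ]

section kappa

variable {κ : Type} [Fintype κ] [DecidableEq κ]

/-- all rows and columns of `B - (B*)⁻¹` are short -/
def SR (B : (Matrix κ κ (MonoidAlgebra ℤ Γ))ˣ) : Prop :=
  (∀ i, N (fun j => ((B : Matrix κ κ (MonoidAlgebra ℤ Γ))
      - adj (↑B⁻¹ : Matrix κ κ (MonoidAlgebra ℤ Γ))) i j) ≤ 4) ∧
  (∀ i, N (fun j => ((B : Matrix κ κ (MonoidAlgebra ℤ Γ))
      - adj (↑B⁻¹ : Matrix κ κ (MonoidAlgebra ℤ Γ))) j i) ≤ 4)

/-- the class is the class of a matrix with short rows and columns -/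
def RR (x : (Matrix κ κ (MonoidAlgebra ℤ Γ))ˣ) : Prop :=
  ∃ (μ : Type) (_ : Fintype μ) (_ : DecidableEq μ) (B : (Matrix μ μ (MonoidAlgebra ℤ Γ))ˣ),
    SR B ∧ TT (TU Γ) (blk x B⁻¹)

theorem SR_one : SR (1 : (Matrix κ κ (MonoidAlgebra ℤ Γ))ˣ) := by
  have h0 : ((1 : (Matrix κ κ (MonoidAlgebra ℤ Γ))ˣ) : Matrix κ κ (MonoidAlgebra ℤ Γ))
      - adj (↑(1 : (Matrix κ κ (MonoidAlgebra ℤ Γ))ˣ)⁻¹ : Matrix κ κ (MonoidAlgebra ℤ Γ)) = 0 := by
    rw [inv_one, Units.val_one, adj_one, sub_self]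
  have h1 : N (fun _ : κ => (0 : MonoidAlgebra ℤ Γ)) = 0 :=
    Finset.sum_eq_zero fun j _ => nsq_zero
  constructor <;> intro i <;> rw [h0] <;> change N (fun _ : κ => (0 : MonoidAlgebra ℤ Γ)) ≤ 4 <;>
    omega

theorem RR_of_TT (x : (Matrix κ κ (MonoidAlgebra ℤ Γ))ˣ) (h : TT (TU Γ) x) : RR x :=
  ⟨Unit, inferInstance, inferInstance, 1, SR_one, by
    rw [inv_one]; exact TT_blk _ _ _ h (TT_one _)⟩

theorem D_inv (B : (Matrix κ κ (MonoidAlgebra ℤ Γ))ˣ) (i j : κ) :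
    nsq ((((B⁻¹ : (Matrix κ κ (MonoidAlgebra ℤ Γ))ˣ) : Matrix κ κ (MonoidAlgebra ℤ Γ))
      - adj (↑(B⁻¹)⁻¹ : Matrix κ κ (MonoidAlgebra ℤ Γ))) i j)
    = nsq (((B : Matrix κ κ (MonoidAlgebra ℤ Γ))
      - adj (↑B⁻¹ : Matrix κ κ (MonoidAlgebra ℤ Γ))) j i) := by
  rw [inv_inv, Matrix.sub_apply, Matrix.sub_apply, adj_apply, adj_apply,
    ← nsq_neg, ← nsq_bar, neg_sub, bar_sub, bar_bar]

theorem SR_inv (B : (Matrix κ κ (MonoidAlgebra ℤ Γ))ˣ) (h : SR B) : SR B⁻¹ := by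
  constructor
  · intro i
    have h1 := h.2 i
    unfold N at h1 ⊢
    rw [Finset.sum_congr rfl fun j _ => D_inv B i j]
    exact h1
  · intro i
    have h1 := h.1 i
    unfold N at h1 ⊢
    rw [Finset.sum_congr rfl fun j _ => D_inv B j i]
    exact h1

theorem SR_blk {μ : Type} [Fintype μ] [DecidableEq μ] (B : (Matrix κ κ (MonoidAlgebra ℤ Γ))ˣ)
    (C : (Matrix μ μ (MonoidAlgebra ℤ Γ))ˣ) (hB : SR B) (hC : SR C) : SR (blk B C) := by
  have h0 : ((blk B C : (Matrix (κ ⊕ μ) (κ ⊕ μ) (MonoidAlgebra ℤ Γ))ˣ) :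
      Matrix (κ ⊕ μ) (κ ⊕ μ) (MonoidAlgebra ℤ Γ))
      - adj (↑(blk B C)⁻¹ : Matrix (κ ⊕ μ) (κ ⊕ μ) (MonoidAlgebra ℤ Γ))
      = fromBlocks ((B : Matrix κ κ (MonoidAlgebra ℤ Γ))
        - adj (↑B⁻¹ : Matrix κ κ (MonoidAlgebra ℤ Γ))) 0 0
        ((C : Matrix μ μ (MonoidAlgebra ℤ Γ))
        - adj (↑C⁻¹ : Matrix μ μ (MonoidAlgebra ℤ Γ))) := by
    change fromBlocks B.val 0 0 C.val - adj (fromBlocks B⁻¹.val 0 0 C⁻¹.val) = _
    rw [adj_fromBlocks, adj_zero, adj_zero]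
    ext (i | i) (j | j) <;> simp
  have hz : ∀ (ι : Type) [Fintype ι], N (fun _ : ι => (0 : MonoidAlgebra ℤ Γ)) = 0 := fun ι _ =>
    Finset.sum_eq_zero fun j _ => nsq_zero
  constructor
  · rintro (i | i)
    · rw [h0]
      unfold N
      rw [Fintype.sum_sum_type]
      have h1 := hB.1 i
      have h2 := hz μ
      unfold N at h1 h2
      dsimp only at h1 h2
      simp only [fromBlocks_apply₁₁, fromBlocks_apply₁₂, Matrix.zero_apply]
      omega
    · rw [h0]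
      unfold N
      rw [Fintype.sum_sum_type]
      have h1 := hC.1 i
      have h2 := hz κ
      unfold N at h1 h2
      dsimp only at h1 h2
      simp only [fromBlocks_apply₂₁, fromBlocks_apply₂₂, Matrix.zero_apply]
      omega
  · rintro (i | i)
    · rw [h0]
      unfold N
      rw [Fintype.sum_sum_type]
      have h1 := hB.2 i
      have h2 := hz μ
      unfold N at h1 h2
      dsimp only at h1 h2
      simp only [fromBlocks_apply₁₁, fromBlocks_apply₂₁, Matrix.zero_apply]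
      omega
    · rw [h0]
      unfold N
      rw [Fintype.sum_sum_type]
      have h1 := hC.2 i
      have h2 := hz κ
      unfold N at h1 h2
      dsimp only at h1 h2
      simp only [fromBlocks_apply₁₂, fromBlocks_apply₂₂, Matrix.zero_apply]
      omega

theorem RR_mul (x y : (Matrix κ κ (MonoidAlgebra ℤ Γ))ˣ) (hx : RR x) (hy : RR y) : RR (x * y) := by
  obtain ⟨μ, i1, i2, B, hB, h1⟩ := hx
  obtain ⟨ν, i3, i4, C, hC, h2⟩ := hy
  refine ⟨μ ⊕ ν, inferInstance, inferInstance, blk B C, SR_blk B C hB hC, ?_⟩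
  have h3 : blk (x * y) (blk B C)⁻¹ = blk x (blk B⁻¹ 1) * blk y (blk 1 C⁻¹) := by
    rw [blk_inv, ← blk_mul, ← blk_mul, one_mul, mul_one]
  rw [h3]
  refine TT_mul _ _ _ (TT_assoc _ _ _ _ (TT_blk _ _ _ h1 (TT_one _))) ?_
  exact TT_swap _ _ _ _ (TT_assoc _ _ _ _ (TT_blk _ _ _ h2 (TT_one _)))

theorem RR_inv (x : (Matrix κ κ (MonoidAlgebra ℤ Γ))ˣ) (hx : RR x) : RR x⁻¹ := by
  obtain ⟨μ, i1, i2, B, hB, h1⟩ := hx
  refine ⟨μ, inferInstance, inferInstance, B⁻¹, SR_inv B hB, ?_⟩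
  rw [← blk_inv]
  exact TT_inv _ _ h1

/-- the subgroup of all these -/
def RG (κ : Type) [Fintype κ] [DecidableEq κ] : Subgroup (Matrix κ κ (MonoidAlgebra ℤ Γ))ˣ where
  carrier := {x | RR x}
  mul_mem' := fun hx hy => RR_mul _ _ hx hy
  one_mem' := RR_of_TT _ (TT_one _)
  inv_mem' := fun hx => RR_inv _ hx

theorem SR_pt (i : κ) (t : Γ) (h5 : t ^ 5 = 1) (u : (MonoidAlgebra ℤ Γ)ˣ)
    (hu : (u : MonoidAlgebra ℤ Γ) = pt t) :
    SR (Units.map (dgm i) u : (Matrix κ κ (MonoidAlgebra ℤ Γ))ˣ) := by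
  have hui : ((u⁻¹ : (MonoidAlgebra ℤ Γ)ˣ) : MonoidAlgebra ℤ Γ) = pt (t ^ 2) := by
    calc ((u⁻¹ : (MonoidAlgebra ℤ Γ)ˣ) : MonoidAlgebra ℤ Γ)
        = ((u⁻¹ : (MonoidAlgebra ℤ Γ)ˣ) : MonoidAlgebra ℤ Γ)
          * ((u : MonoidAlgebra ℤ Γ) * pt (t ^ 2)) := by rw [hu, pt_mul t h5, mul_one]
      _ = _ := by rw [← mul_assoc, Units.inv_mul, one_mul]
  have n0 : nsq (pt t - pt (t ^ 2)) ≤ 4 := by
    by_cases h1 : t = 1
    · rw [h1, one_pow, sub_self, nsq_zero]; norm_num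
    · rw [nsq_sub, bar_pt, pt_mul t h5, nsq_pt h1 h5, nsq_pt (pow2_ne h1 h5) (pow2_pow5 h5),
        MonoidAlgebra.one_def, MonoidAlgebra.coeff_single, Finsupp.single_eq_same]
      norm_num
  have h0 : ∀ a b, ((Units.map (dgm i) u : (Matrix κ κ (MonoidAlgebra ℤ Γ))ˣ) :
      Matrix κ κ (MonoidAlgebra ℤ Γ)) a b
      - adj (↑(Units.map (dgm i) u : (Matrix κ κ (MonoidAlgebra ℤ Γ))ˣ)⁻¹ :
        Matrix κ κ (MonoidAlgebra ℤ Γ)) a b
      = if a = i ∧ b = i then pt t - pt (t ^ 2) else 0 := by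
    intro a b
    rw [← map_inv]
    change dgm i (u : MonoidAlgebra ℤ Γ) a b
      - bar (dgm i ((u⁻¹ : (MonoidAlgebra ℤ Γ)ˣ) : MonoidAlgebra ℤ Γ) b a) = _
    rw [hu, hui, dgm_apply, dgm_apply, Matrix.diagonal_apply, Matrix.diagonal_apply]
    by_cases hab : a = b
    · subst hab
      rw [if_pos rfl, if_pos rfl]
      by_cases ha : a = i
      · subst ha
        rw [Function.update_self, Function.update_self, if_pos ⟨rfl, rfl⟩, bar_pt]
      · rw [Function.update_of_ne ha, Function.update_of_ne ha, Pi.one_apply, bar_one,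
          sub_self, if_neg (fun h => ha h.1)]
    · rw [if_neg hab, if_neg (Ne.symm hab), bar_zero, sub_zero, if_neg]
      rintro ⟨rfl, rfl⟩
      exact hab rfl
  constructor
  · intro a
    unfold N
    have h1 : ∀ b, nsq ((((Units.map (dgm i) u : (Matrix κ κ (MonoidAlgebra ℤ Γ))ˣ) :
      Matrix κ κ (MonoidAlgebra ℤ Γ))
      - adj (↑(Units.map (dgm i) u : (Matrix κ κ (MonoidAlgebra ℤ Γ))ˣ)⁻¹ :
        Matrix κ κ (MonoidAlgebra ℤ Γ))) a b)
        ≤ if b = i then nsq (pt t - pt (t ^ 2)) else 0 := by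
      intro b
      rw [Matrix.sub_apply, h0]
      by_cases hb : b = i
      · rw [if_pos hb]
        by_cases ha : a = i
        · rw [if_pos ⟨ha, hb⟩]
        · rw [if_neg (fun h => ha h.1), nsq_zero]; exact nsq_nonneg _
      · rw [if_neg hb, if_neg (fun h => hb h.2), nsq_zero]
    refine le_trans (Finset.sum_le_sum fun b _ => h1 b) ?_
    rw [Finset.sum_ite_eq' Finset.univ i, if_pos (Finset.mem_univ _)]
    exact n0
  · intro a
    unfold N
    have h1 : ∀ b, nsq ((((Units.map (dgm i) u : (Matrix κ κ (MonoidAlgebra ℤ Γ))ˣ) :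
      Matrix κ κ (MonoidAlgebra ℤ Γ))
      - adj (↑(Units.map (dgm i) u : (Matrix κ κ (MonoidAlgebra ℤ Γ))ˣ)⁻¹ :
        Matrix κ κ (MonoidAlgebra ℤ Γ))) b a)
        ≤ if b = i then nsq (pt t - pt (t ^ 2)) else 0 := by
      intro b
      rw [Matrix.sub_apply, h0]
      by_cases hb : b = i
      · rw [if_pos hb]
        by_cases ha : a = i
        · rw [if_pos ⟨hb, ha⟩]
        · rw [if_neg (fun h => ha h.2), nsq_zero]; exact nsq_nonneg _
      · rw [if_neg hb, if_neg (fun h => hb h.1), nsq_zero]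
    refine le_trans (Finset.sum_le_sum fun b _ => h1 b) ?_
    rw [Finset.sum_ite_eq' Finset.univ i, if_pos (Finset.mem_univ _)]
    exact n0

theorem HH_le_RG : HH (U5 Γ) κ ≤ RG κ := by
  apply sup_le
  · intro x hx
    exact RR_of_TT x (TT_of_mem _ _ (commutator_le_HH _ hx))
  · apply (Subgroup.closure_le _).2
    rintro _ ⟨i, u, hu, rfl⟩
    have h1 : U5 Γ ≤ (RG κ).comap (Units.map (dgm (R := MonoidAlgebra ℤ Γ) i)) := by
      apply (Subgroup.closure_le _).2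
      rintro w (hw | ⟨t, h5, hw⟩)
      · exact RR_of_TT _ (TT_of_mem _ _ (dgm_mem_HH _ _ _ hw))
      · exact ⟨κ, inferInstance, inferInstance, _, SR_pt i t h5 w hw, TT_blk_inv _ _⟩
    exact h1 hu

/-- every class of the subgroup generated by the pentagon units is represented by a matrix with
short rows and columns -/
theorem RR_of_TT5 (A : (Matrix κ κ (MonoidAlgebra ℤ Γ))ˣ) (h : TT (U5 Γ) A) : RR A := by
  obtain ⟨μ, i1, i2, h1⟩ := h
  obtain ⟨ν, i3, i4, B, hB, h2⟩ := HH_le_RG h1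
  refine ⟨ν, i3, i4, B, hB, ?_⟩
  rw [← blk_one_stm] at h2
  apply TT_unst (μ := μ)
  rw [← blk_one_stm]
  exact TT_assoc' _ _ _ _ (TT_swap _ _ _ _ (TT_assoc _ _ _ _ h2))

/-- the classes of matrices with short rows -/
theorem TT5_of_rows {μ : Type} [Fintype μ] [DecidableEq μ]
    (A : (Matrix κ κ (MonoidAlgebra ℤ Γ))ˣ) (B : (Matrix μ μ (MonoidAlgebra ℤ Γ))ˣ)
    (h : TT (TU Γ) (blk A B⁻¹)) (hB : TT (U5 Γ) B) : TT (U5 Γ) A :=
  TT_blk_right _ _ _ (TT_mono TU_le_U5 _ h) (TT_inv _ _ hB)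

end kappa

end Pool.Agent.H76R
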